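import Mathlib
import Pool.Agent.H6.QL.RwDefs

set_option autoImplicit false

/-!
# The exact valuation: degree `s`, error `0`
-/

namespace Pool.H6.QR

open Finset Pool.Agent.H3.Frg Pool.Agent.H81.QG Pool.H6.QL

variable {H : Type} [NormedAddCommGroup H] [InnerProductSpace ℝ H] {n K : ℕ}
  {cl : Rn n →ₗ[ℝ] H} {dg : ℕ → Submodule ℝ (Rn n)}

private theorem ev_bool (F : Fm (Fin n)) (a : Fin n → Bool) :
    ev (R := Rn n) yy F a = 0 ∨ ev (R := Rn n) yy F a = 1 := by
  induction F with
  | var i =>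
    show (if a i = true then (1 : ℝ) else 0) = 0 ∨ (if a i = true then (1 : ℝ) else 0) = 1
    split_ifs
    · exact Or.inr rfl
    · exact Or.inl rfl
  | neg A ih =>
    show (1 : ℝ) - ev (R := Rn n) yy A a = 0 ∨ (1 : ℝ) - ev (R := Rn n) yy A a = 1
    rcases ih with h | h <;> rw [h] <;> norm_num
  | imp A B ihA ihB =>
    show (1 : ℝ) - ev (R := Rn n) yy A a + ev (R := Rn n) yy A a * ev (R := Rn n) yy B a = 0 ∨
      (1 : ℝ) - ev (R := Rn n) yy A a + ev (R := Rn n) yy A a * ev (R := Rn n) yy B a = 1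
    rcases ihA with h | h <;> rcases ihB with h' | h' <;> rw [h, h'] <;> norm_num

private theorem ev_mem (hL : Liar cl dg K) (hy : ∀ i : Fin n, yy i ∈ dg 1) (F : Fm (Fin n)) :
    ev (R := Rn n) yy F ∈ dg F.leaves := by
  have h1 : ∀ j, (1 : Rn n) ∈ dg j := fun j => hL.mono (Nat.zero_le j) hL.one
  induction F with
  | var i => exact hy i
  | neg A ih => exact sub_mem (h1 _) ih
  | imp A B ihA ihB =>
    refine add_mem (sub_mem (h1 _) (hL.mono (Nat.le_add_right _ _) ihA)) ?_
    exact hL.mul _ _ _ _ ihA ihB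

theorem vi_exact (hL : Liar cl dg K) (hy : ∀ i : Fin n, yy i ∈ dg 1) (s k : ℕ) :
    VI cl dg (fun F => ev (R := Rn n) yy F) yy s s k 0 := by
  have hz : ∀ r : Rn n, r = 0 → Sml cl dg k 0 r := by
    rintro r rfl p _
    rw [zero_mul, map_zero, norm_zero, zero_mul]
  refine ⟨fun F hF => hL.mono hF (ev_mem hL hy F), hy, ?_, ?_, ?_, ?_, ?_⟩
  · intro i
    funext a
    show (if a i = true then (1 : ℝ) else 0) * (if a i = true then (1 : ℝ) else 0) =
      if a i = true then (1 : ℝ) else 0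
    split_ifs <;> norm_num
  · intro F _
    refine hz _ ?_
    funext a
    show ev (R := Rn n) yy F a * ev (R := Rn n) yy F a - ev (R := Rn n) yy F a = 0
    rcases ev_bool F a with h | h <;> rw [h] <;> norm_num
  · intro i
    exact hz _ (sub_self _)
  · intro F _
    exact hz _ (sub_self _)
  · intro A B _
    exact hz _ (sub_self _)

end Pool.H6.QR
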