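import Mathlib
import Pool.Agent.H81.QG.Nrm

set_option autoImplicit false

/-!
# [H6 QR FRD] Forgetful prover: definitions and the two rules

`FR .. v`: approximate truth values `v` of the lines `α`. The prover remembers at most four lines.
`query`: `(1 - 2η) ‖cl p‖² ≤ ‖cl (v p)‖² + ‖cl ((1-v) p)‖²` (`vsum`; `W ≤ ..`, `p ∈ dg k'`).
`forget`: `‖cl (v p)‖² ≤ (1+η)² ‖cl p‖²` and the same for `1 - v` (`vbd`, `k' + 2 W ≤ K`).
`TC ax rule c a n`: derivation of `a` with one marked leaf `c` (assumed true), `n` applications of the rule.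
-/

namespace Pool.H6.QR

open Finset Pool.Agent.H81.QG

variable {R H α : Type} [CommRing R] [Algebra ℝ R] [NormedAddCommGroup H] [InnerProductSpace ℝ H]

/-- Approximate truth values of the lines. -/
structure FR (cl : R →ₗ[ℝ] H) (dg : ℕ → Submodule ℝ R) (K W k : ℕ) (η : ℝ) (ax : Set α)
    (rule : α → α → α → Prop) (v : α → R) : Prop where
  liar : Liar cl dg K
  deg : ∀ a, v a ∈ dg W
  idem : ∀ a, Sml cl dg k η (v a * v a - v a)
  ax : ∀ a ∈ ax, Sml cl dg k η (1 - v a)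
  rule : ∀ a b c, rule a b c → Sml cl dg k η (v a * v b * (1 - v c))
  hk : 6 * W ≤ k
  hK : k + 2 * W ≤ K
  h0 : 0 ≤ η
  h1 : η ≤ 1 / 1000

/-- Derivations with one marked leaf. -/
inductive TC (ax : Set α) (rule : α → α → α → Prop) (c : α) : α → ℕ → Prop
  | leaf : TC ax rule c c 0
  | mpl (a b d : α) (m n : ℕ) : TC ax rule c a m → TT ax rule b n → rule a b d →
      TC ax rule c d (m + n + 1)
  | mpr (a b d : α) (m n : ℕ) : TT ax rule a m → TC ax rule c b n → rule a b d →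
      TC ax rule c d (m + n + 1)

variable {cl : R →ₗ[ℝ] H} {dg : ℕ → Submodule ℝ R} {K W k : ℕ} {η : ℝ} {ax : Set α}
  {rule : α → α → α → Prop} {v : α → R}

theorem FR.query (h : FR cl dg K W k η ax rule v) (a : α) {p : R} (hp : p ∈ dg k) :
    (1 - 2 * η) * ‖cl p‖ ^ 2 ≤ ‖cl (v a * p)‖ ^ 2 + ‖cl ((1 - v a) * p)‖ ^ 2 := by
  have h1 := (abs_le.1 (vsum h.liar (h.deg a) (h.idem a) h.hK hp)).1
  linarith

theorem FR.forget (h : FR cl dg K W k η ax rule v) (a : α) {p : R} (hp : p ∈ dg k) :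
    ‖cl (v a * p)‖ ^ 2 ≤ (1 + 3 * η) * ‖cl p‖ ^ 2 ∧
      ‖cl ((1 - v a) * p)‖ ^ 2 ≤ (1 + 3 * η) * ‖cl p‖ ^ 2 := by
  have h0 := h.h0
  have h1 := h.h1
  have key : ∀ b c : ℝ, 0 ≤ b → 0 ≤ c → b ≤ (1 + η) * c → b ^ 2 ≤ (1 + 3 * η) * c ^ 2 := by
    intro b c hb hc hbc
    have h2 : b ^ 2 ≤ ((1 + η) * c) ^ 2 := pow_le_pow_left₀ hb hbc 2
    have h3 : (1 + η) ^ 2 ≤ 1 + 3 * η := by nlinarith
    have h4 : (1 + η) ^ 2 * c ^ 2 ≤ (1 + 3 * η) * c ^ 2 :=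
      mul_le_mul_of_nonneg_right h3 (sq_nonneg c)
    calc b ^ 2 ≤ ((1 + η) * c) ^ 2 := h2
      _ = (1 + η) ^ 2 * c ^ 2 := by ring
      _ ≤ _ := h4
  obtain ⟨h2, h3⟩ := vbd h.liar (h.deg a) h0 (h.idem a) h.hK
  exact ⟨key _ _ (norm_nonneg _) (norm_nonneg _) (h2 p hp),
    key _ _ (norm_nonneg _) (norm_nonneg _) (h3 p hp)⟩

end Pool.H6.QR
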