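import Mathlib
import Pool.Agent.H6.QR.FrD

set_option autoImplicit false

/-!
# [H6 QR FRH] Forgetful prover: height

`w p := ‖cl p‖²`. Claim: `HT ax rule a h → w (1 - v a) ≤ 3^(h+1) η²`.
`ax`: `1 ∈ dg 0 ≤ dg k`, `‖cl ((1 - v a) * 1)‖ ≤ η ‖cl 1‖ = η`.
`mp a b c h`: query `a` for `p = 1 - v c`: `(1 - 2η) w (1 - v c) ≤ w (v a (1 - v c)) + w ((1 - v a)(1 - v c))`;
the second is `≤ (1+3η) w (1 - v a)` (forget `c`: multiply `1 - v a` by `1 - v c`). Query `b` for `v a (1 - v c)`: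
`(1 - 2η) w (v a (1 - v c)) ≤ w (v b (v a (1 - v c))) + w ((1 - v b)(v a (1 - v c)))`, the first is `≤ η²` (`rule`, `p = 1`), the
second `≤ (1+3η)² w (1 - v b)`. So `w (1 - v c) ≤ (1.01)(2 · 3^(h+1) η² + η²) ≤ 3^(h+2) η²` (`η ≤ 1/1000`, `1 ≤ 3^(h+1)/3`).
Degrees: everything is in `dg (3 W) ≤ dg k`.
`fr_ht_fin`: `1 = w 1`: query `a` for `p = 1`, then query `b` for `v a`: `w (v b v a) ≤ η²`.
-/

namespace Pool.H6.QR

open Finset Pool.Agent.H81.QG

variable {R H α : Type} [CommRing R] [Algebra ℝ R] [NormedAddCommGroup H] [InnerProductSpace ℝ H]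
variable {cl : R →ₗ[ℝ] H} {dg : ℕ → Submodule ℝ R} {K W k : ℕ} {η : ℝ} {ax : Set α}
  {rule : α → α → α → Prop} {v : α → R}

private theorem fr_one (h : FR cl dg K W k η ax rule v) (j : ℕ) : (1 : R) ∈ dg j :=
  h.liar.mono (Nat.zero_le j) h.liar.one

private theorem fr_cmp (h : FR cl dg K W k η ax rule v) (a : α) : 1 - v a ∈ dg W :=
  sub_mem (fr_one h W) (h.deg a)

private theorem fr_sml (h : FR cl dg K W k η ax rule v) {r : R} (hr : Sml cl dg k η r) :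
    ‖cl r‖ ^ 2 ≤ η ^ 2 := by
  have h1 := hr 1 (fr_one h k)
  rw [mul_one, h.liar.nrm, mul_one] at h1
  exact pow_le_pow_left₀ (norm_nonneg _) h1 2

theorem fr_ht (h : FR cl dg K W k η ax rule v) {a : α} {m : ℕ}
    (hT : Pool.Agent.H81.QG.HT ax rule a m) : ‖cl (1 - v a)‖ ^ 2 ≤ 3 ^ (m + 1) * η ^ 2 := by
  induction hT with
  | ax a m ha =>
    have h1 := fr_sml h (h.ax a ha)
    have h2 : (1 : ℝ) ≤ 3 ^ (m + 1) := one_le_pow₀ (by norm_num)
    nlinarith [sq_nonneg η]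
  | mp a b c m _ _ hr iha ihb =>
    have hk := h.hk
    have hp1 : 1 - v c ∈ dg k := h.liar.mono (by omega) (fr_cmp h c)
    have hpa : 1 - v a ∈ dg k := h.liar.mono (by omega) (fr_cmp h a)
    have hpb : 1 - v b ∈ dg k := h.liar.mono (by omega) (fr_cmp h b)
    have hp2 : v a * (1 - v c) ∈ dg k :=
      h.liar.mono (by omega) (h.liar.mul W W _ _ (h.deg a) (fr_cmp h c))
    have hp3 : (1 - v c) * (1 - v b) ∈ dg k :=
      h.liar.mono (by omega) (h.liar.mul W W _ _ (fr_cmp h c) (fr_cmp h b))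
    have q1 := h.query a hp1
    have f1 := (h.forget c hpa).2
    have q2 := h.query b hp2
    have f2 := (h.forget a hp3).1
    have f3 := (h.forget c hpb).2
    have r1 := fr_sml h (h.rule a b c hr)
    have e1 : (1 - v a) * (1 - v c) = (1 - v c) * (1 - v a) := by ring
    have e2 : v b * (v a * (1 - v c)) = v a * v b * (1 - v c) := by ring
    have e3 : (1 - v b) * (v a * (1 - v c)) = v a * ((1 - v c) * (1 - v b)) := by ring
    rw [e1] at q1
    rw [e2, e3] at q2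
    have h0 := h.h0
    have h1 := h.h1
    have hT : 3 * η ^ 2 ≤ 3 ^ (m + 1) * η ^ 2 := by
      have h2 : (3 : ℝ) ≤ 3 ^ (m + 1) := by
        have h3 : (1 : ℝ) ≤ 3 ^ m := one_le_pow₀ (by norm_num)
        rw [pow_succ]
        linarith
      exact mul_le_mul_of_nonneg_right h2 (sq_nonneg η)
    have e4 : (3 : ℝ) ^ (m + 1 + 1) * η ^ 2 = 3 * (3 ^ (m + 1) * η ^ 2) := by ring
    rw [e4]
    set T : ℝ := 3 ^ (m + 1) * η ^ 2 with hTdef
    set X : ℝ := ‖cl (1 - v c)‖ ^ 2 with hX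
    set Y : ℝ := ‖cl (v a * (1 - v c))‖ ^ 2 with hY
    set A : ℝ := ‖cl (1 - v a)‖ ^ 2 with hA
    set B : ℝ := ‖cl (1 - v b)‖ ^ 2 with hB
    have hX0 : 0 ≤ X := sq_nonneg _
    have hY0 : 0 ≤ Y := sq_nonneg _
    have hA0 : 0 ≤ A := sq_nonneg _
    have hB0 : 0 ≤ B := sq_nonneg _
    have s1 : (998 / 1000 : ℝ) * X ≤ (1 - 2 * η) * X :=
      mul_le_mul_of_nonneg_right (by linarith) hX0
    have s2 : (998 / 1000 : ℝ) * Y ≤ (1 - 2 * η) * Y :=
      mul_le_mul_of_nonneg_right (by linarith) hY0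
    have s3 : (1 + 3 * η) * A ≤ (1003 / 1000 : ℝ) * T :=
      mul_le_mul (by linarith) iha hA0 (by norm_num)
    have s4 : (1 + 3 * η) * B ≤ (1003 / 1000 : ℝ) * T :=
      mul_le_mul (by linarith) ihb hB0 (by norm_num)
    have s5 : ‖cl ((1 - v c) * (1 - v b))‖ ^ 2 ≤ (1003 / 1000 : ℝ) * T := f3.trans s4
    have s6 : (1 + 3 * η) * ‖cl ((1 - v c) * (1 - v b))‖ ^ 2 ≤
        (1003 / 1000 : ℝ) * ((1003 / 1000 : ℝ) * T) :=
      mul_le_mul (by linarith) s5 (sq_nonneg _) (by norm_num)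
    have hT0 : 0 ≤ T := hA0.trans iha
    linarith

/-- Two lines that exclude each other cannot both have small falsity. -/
theorem fr_fin (h : FR cl dg K W k η ax rule v) {a b : α} (hab : Sml cl dg k η (v a * v b))
    {β : ℝ} (ha : ‖cl (1 - v a)‖ ^ 2 ≤ β) (hb : ‖cl (1 - v b)‖ ^ 2 ≤ β) (hβ : 3 * β < 1) :
    False := by
  have hk := h.hk
  have hva : v a ∈ dg k := h.liar.mono (by omega) (h.deg a)
  have hpb : 1 - v b ∈ dg k := h.liar.mono (by omega) (fr_cmp h b)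
  have q1 := h.query a (fr_one h k)
  have q2 := h.query b hva
  have f1 := (h.forget a hpb).1
  have r1 := fr_sml h hab
  have e1 : v b * v a = v a * v b := by ring
  have e2 : (1 - v b) * v a = v a * (1 - v b) := by ring
  rw [mul_one, mul_one, h.liar.nrm, one_pow, mul_one] at q1
  rw [e1, e2] at q2
  have h0 := h.h0
  have h1 := h.h1
  have hη : η ^ 2 ≤ (1 / 1000) ^ 2 := pow_le_pow_left₀ h0 h1 2
  have s2 : (998 / 1000 : ℝ) * ‖cl (v a)‖ ^ 2 ≤ (1 - 2 * η) * ‖cl (v a)‖ ^ 2 :=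
    mul_le_mul_of_nonneg_right (by linarith) (sq_nonneg _)
  have s4 : (1 + 3 * η) * ‖cl (1 - v b)‖ ^ 2 ≤ (1003 / 1000 : ℝ) * β :=
    mul_le_mul (by linarith) hb (sq_nonneg _) (by norm_num)
  linarith

end Pool.H6.QR
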