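import Mathlib
import Pool.Agent.H6.QR.FrD

set_option autoImplicit false

/-!
# [H6 QR FRT] Forgetful prover: tree-like derivations

Separators. `sep_tt`: `TT ax rule a n`, `1 ≤ n`: there is `v` obtained by the rule from `v', v''` with
`TC ax rule v a n1` (the context above `v`), `TT v' n'`, `TT v'' n''`, `2 n1 ≤ n`, `2 n' ≤ n`, `2 n'' ≤ n`. Prove by induction on the
tree `TT a m` (for fixed `n`): if `n < 2 m` (and `1 ≤ m ≤ n`) then such `v` exists below `a` with `TC v a n1`, `n1 + n' + n'' + 1 = m`,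
`2 n', 2 n'' ≤ n`: `a` is `mp a' a'' m' m''`; if `2 m' ≤ n` and `2 m'' ≤ n` take `v = a`, `n1 = 0` (`TC.leaf`); if `n < 2 m'` use the
induction hypothesis for `a'` and `TC.mpl` (`n1' = n1 + m'' + 1`), similarly for `a''` with `TC.mpr`. Generalise: `2 n1 ≤ n` follows at
the end from `n1 = m - n' - n'' - 1` and: the subtree at `v` has more than `n/2`: keep the invariant `n < 2 (n' + n'' + 1)` and
`n1 + n' + n'' + 1 = m ≤ n`.
`sep_tc`: `TC ax rule c a n`, `1 ≤ n`: there is `v` on the path with `TC ax rule v a n1`, `2 n1 ≤ n`, and `v` is obtained by the rule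
from `v'` (on the path) and `v''`: `TC ax rule c v' m'`, `2 m' ≤ n`, `TT ax rule v'' n''`, `n'' < n`, and `rule v' v'' v` or
`rule v'' v' v`. Same induction along `TC` (invariant `n < 2 (m' + n'' + 1)`, `n1 + m' + n'' + 1 = m ≤ n`).

`w p = ‖cl p‖²`. Claim for all `r`: (b) `TT a n`, `n < 2^r`: `w (1 - v a) ≤ 4 · 8^r η²`; (a) `TC c a n`, `n < 2^r`:
`w (v c (1 - v a)) ≤ 4 · 8^r η²`. `r = 0`: `n = 0`: `a ∈ ax` (`FR.ax`, `‖cl 1‖ = 1`), resp. `a = c`: `w (v c (1 - v c)) ≤ η²`.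
Step (b): `n = 0` as before, otherwise `sep_tt` (all three numbers `< 2^r`); `p = 1 - v a`. Query `v`: true: `w (v v · p)`: (a) for
`TC v a n1`. False: query `v'` for `(1 - v v) p`: false: `w ((1 - v v')(1 - v v) p) ≤ (1+3η)² w (1 - v v')`: (b); true: query `v''`:
false: `≤ (1+3η)³ w (1 - v v'')`: (b); true: `w (v v'' v v' (1 - v v) p) ≤ η² w p ≤ 2 η²` (`rule`). Sum:
`β ≤ 1.05 (α_r + 2 β_r + 2 η²) ≤ 16 · 8^r η²` with `α_r = β_r = 4 · 8^r η²`.
Step (a): `p = v c (1 - v a)`; `sep_tc`. Query `v`: true: `w (v v (v c (1 - v a))) ≤ (1+3η) w (v v (1 - v a))`: (a). False: query `v'`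
(on the path): false: `w ((1 - v v')(1 - v v) v c (1 - v a)) ≤ (1+3η)² w (v c (1 - v v'))`: (a) for `TC c v' m'`; true: query
`v''`: false: `≤ (1+3η)⁴ w (1 - v v'')`: step (b) for `n'' < 2^(r+1)` (bound `16 · 8^r η²`); true: `≤ 3 η²` (`rule` in one of the two
orders). Sum `≤ 1.05 (2 · 4 · 8^r + 16 · 8^r + 3) η² ≤ 32 · 8^r η²`.
Degrees: at most 5 factors: `dg (5 W) ≤ dg k`.
-/

namespace Pool.H6.QR

open Finset Pool.Agent.H81.QG

variable {R H α : Type} [CommRing R] [Algebra ℝ R] [NormedAddCommGroup H] [InnerProductSpace ℝ H]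
variable {cl : R →ₗ[ℝ] H} {dg : ℕ → Submodule ℝ R} {K W k : ℕ} {η : ℝ} {ax : Set α}
  {rule : α → α → α → Prop} {v : α → R}

private theorem sep_tt0 {n : ℕ} {a : α} {m : ℕ} (h : TT ax rule a m) : n < 2 * m → m ≤ n →
    ∃ (x y z : α) (n1 n2 n3 : ℕ), TC ax rule x a n1 ∧ TT ax rule y n2 ∧ TT ax rule z n3 ∧
      rule y z x ∧ n1 + n2 + n3 + 1 = m ∧ 2 * n2 ≤ n ∧ 2 * n3 ≤ n ∧ n < 2 * (n2 + n3 + 1) := by
  induction h with
  | ax a ha => intro h1; omega
  | mp a b c m' m'' ha hb hr iha ihb =>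
    intro h1 h2
    by_cases h3 : n < 2 * m'
    · obtain ⟨x, y, z, n1, n2, n3, t1, t2, t3, t4, t5, t6, t7, t8⟩ := iha h3 (by omega)
      exact ⟨x, y, z, n1 + m'' + 1, n2, n3, TC.mpl _ _ _ _ _ t1 hb hr, t2, t3, t4, by omega, t6,
        t7, t8⟩
    · by_cases h4 : n < 2 * m''
      · obtain ⟨x, y, z, n1, n2, n3, t1, t2, t3, t4, t5, t6, t7, t8⟩ := ihb h4 (by omega)
        exact ⟨x, y, z, m' + n1 + 1, n2, n3, TC.mpr _ _ _ _ _ ha t1 hr, t2, t3, t4, by omega, t6,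
          t7, t8⟩
      · exact ⟨c, a, b, 0, m', m'', TC.leaf, ha, hb, hr, by omega, by omega, by omega, by omega⟩

theorem sep_tt {a : α} {n : ℕ} (h : TT ax rule a n) (hn : 1 ≤ n) :
    ∃ (x y z : α) (n1 n2 n3 : ℕ), TC ax rule x a n1 ∧ TT ax rule y n2 ∧ TT ax rule z n3 ∧
      rule y z x ∧ 2 * n1 ≤ n ∧ 2 * n2 ≤ n ∧ 2 * n3 ≤ n := by
  obtain ⟨x, y, z, n1, n2, n3, t1, t2, t3, t4, t5, t6, t7, t8⟩ :=
    sep_tt0 (n := n) h (by omega) le_rfl
  exact ⟨x, y, z, n1, n2, n3, t1, t2, t3, t4, by omega, t6, t7⟩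

private theorem sep_tc0 {n : ℕ} {c a : α} {m : ℕ} (h : TC ax rule c a m) : n < 2 * m → m ≤ n →
    ∃ (x y z : α) (n1 n2 n3 : ℕ), TC ax rule x a n1 ∧ TC ax rule c y n2 ∧ TT ax rule z n3 ∧
      (rule y z x ∨ rule z y x) ∧ n1 + n2 + n3 + 1 = m ∧ 2 * n2 ≤ n ∧
        n < 2 * (n2 + n3 + 1) := by
  induction h with
  | leaf => intro h1; omega
  | mpl a b d m' m'' ha hb hr iha =>
    intro h1 h2
    by_cases h3 : n < 2 * m'
    · obtain ⟨x, y, z, n1, n2, n3, t1, t2, t3, t4, t5, t6, t7⟩ := iha h3 (by omega)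
      exact ⟨x, y, z, n1 + m'' + 1, n2, n3, TC.mpl _ _ _ _ _ t1 hb hr, t2, t3, t4, by omega, t6,
        t7⟩
    · exact ⟨d, a, b, 0, m', m'', TC.leaf, ha, hb, Or.inl hr, by omega, by omega, by omega⟩
  | mpr a b d m' m'' ha hb hr ihb =>
    intro h1 h2
    by_cases h3 : n < 2 * m''
    · obtain ⟨x, y, z, n1, n2, n3, t1, t2, t3, t4, t5, t6, t7⟩ := ihb h3 (by omega)
      exact ⟨x, y, z, m' + n1 + 1, n2, n3, TC.mpr _ _ _ _ _ ha t1 hr, t2, t3, t4, by omega, t6,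
        t7⟩
    · exact ⟨d, b, a, 0, m'', m', TC.leaf, hb, ha, Or.inr hr, by omega, by omega, by omega⟩

theorem sep_tc {c a : α} {n : ℕ} (h : TC ax rule c a n) (hn : 1 ≤ n) :
    ∃ (x y z : α) (n1 n2 n3 : ℕ), TC ax rule x a n1 ∧ TC ax rule c y n2 ∧ TT ax rule z n3 ∧
      (rule y z x ∨ rule z y x) ∧ 2 * n1 ≤ n ∧ 2 * n2 ≤ n ∧ n3 < n := by
  obtain ⟨x, y, z, n1, n2, n3, t1, t2, t3, t4, t5, t6, t7⟩ :=
    sep_tc0 (n := n) h (by omega) le_rfl
  exact ⟨x, y, z, n1, n2, n3, t1, t2, t3, t4, by omega, t6, by omega⟩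

private theorem frt_mul (h : FR cl dg K W k η ax rule v) {j : ℕ} {p q : R} (hp : p ∈ dg W)
    (hq : q ∈ dg (j * W)) : p * q ∈ dg ((j + 1) * W) := by
  have h1 := h.liar.mul W (j * W) p q hp hq
  rwa [show W + j * W = (j + 1) * W by ring] at h1

private theorem frt_mem (h : FR cl dg K W k η ax rule v) {j : ℕ} {p : R} (hp : p ∈ dg (j * W))
    (hj : j ≤ 6) : p ∈ dg k :=
  h.liar.mono (le_trans (Nat.mul_le_mul_right W hj) h.hk) hp

private theorem frt_v (h : FR cl dg K W k η ax rule v) (a : α) : v a ∈ dg (1 * W) := by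
  rw [one_mul]
  exact h.deg a

private theorem frt_c (h : FR cl dg K W k η ax rule v) (a : α) : 1 - v a ∈ dg W :=
  sub_mem (h.liar.mono (Nat.zero_le W) h.liar.one) (h.deg a)

private theorem frt_c1 (h : FR cl dg K W k η ax rule v) (a : α) : 1 - v a ∈ dg (1 * W) := by
  rw [one_mul]
  exact frt_c h a

private theorem frt_q (h : FR cl dg K W k η ax rule v) (a : α) {j : ℕ} {p : R}
    (hp : p ∈ dg (j * W)) (hj : j ≤ 6) :
    998 / 1000 * ‖cl p‖ ^ 2 ≤ ‖cl (v a * p)‖ ^ 2 + ‖cl ((1 - v a) * p)‖ ^ 2 := by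
  have h1 := h.query a (frt_mem h hp hj)
  have h2 : (998 / 1000 : ℝ) * ‖cl p‖ ^ 2 ≤ (1 - 2 * η) * ‖cl p‖ ^ 2 :=
    mul_le_mul_of_nonneg_right (by linarith [h.h1]) (sq_nonneg _)
  exact h2.trans h1

private theorem frt_f (h : FR cl dg K W k η ax rule v) (a : α) {j : ℕ} {p : R}
    (hp : p ∈ dg (j * W)) (hj : j ≤ 6) :
    ‖cl (v a * p)‖ ^ 2 ≤ 1003 / 1000 * ‖cl p‖ ^ 2 ∧
      ‖cl ((1 - v a) * p)‖ ^ 2 ≤ 1003 / 1000 * ‖cl p‖ ^ 2 := by
  obtain ⟨h1, h2⟩ := h.forget a (frt_mem h hp hj)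
  have h3 : (1 + 3 * η) * ‖cl p‖ ^ 2 ≤ 1003 / 1000 * ‖cl p‖ ^ 2 :=
    mul_le_mul_of_nonneg_right (by linarith [h.h1]) (sq_nonneg _)
  exact ⟨h1.trans h3, h2.trans h3⟩

private theorem frt_s (h : FR cl dg K W k η ax rule v) {r p : R} (hr : Sml cl dg k η r) {j : ℕ}
    (hp : p ∈ dg (j * W)) (hj : j ≤ 6) : ‖cl (r * p)‖ ^ 2 ≤ η ^ 2 * ‖cl p‖ ^ 2 := by
  have h1 := hr p (frt_mem h hp hj)
  calc ‖cl (r * p)‖ ^ 2 ≤ (η * ‖cl p‖) ^ 2 := pow_le_pow_left₀ (norm_nonneg _) h1 2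
    _ = _ := by ring

private theorem frt_one (h : FR cl dg K W k η ax rule v) : (1 : R) ∈ dg (0 * W) := by
  rw [zero_mul]
  exact h.liar.one

private theorem frt_w1 (h : FR cl dg K W k η ax rule v) : ‖cl (1 : R)‖ ^ 2 = 1 := by
  rw [h.liar.nrm, one_pow]

private theorem frt_ax (h : FR cl dg K W k η ax rule v) {a : α} (ha : a ∈ ax) :
    ‖cl (1 - v a)‖ ^ 2 ≤ η ^ 2 := by
  have h1 := frt_s h (h.ax a ha) (frt_one h) (by omega)
  rwa [mul_one, frt_w1 h, mul_one] at h1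

private theorem frt_id (h : FR cl dg K W k η ax rule v) (c : α) :
    ‖cl (v c * (1 - v c))‖ ^ 2 ≤ η ^ 2 := by
  have h1 := frt_s h (h.idem c) (frt_one h) (by omega)
  rw [mul_one, frt_w1 h, mul_one] at h1
  have e : v c * (1 - v c) = -(v c * v c - v c) := by ring
  rw [e, map_neg, norm_neg]
  exact h1

private theorem frt_tt0 {a : α} {n : ℕ} (hT : TT ax rule a n) (hn : n = 0) : a ∈ ax := by
  cases hT with
  | ax a ha => exact ha
  | mp a b c m n ha hb hr => omega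

private theorem frt_tc0 {c a : α} {n : ℕ} (hT : TC ax rule c a n) (hn : n = 0) : a = c := by
  cases hT with
  | leaf => rfl
  | mpl a b d m n ha hb hr => omega
  | mpr a b d m n ha hb hr => omega

private theorem frt_e (r : ℕ) (η : ℝ) : η ^ 2 ≤ 8 ^ r * η ^ 2 :=
  le_mul_of_one_le_left (sq_nonneg η) (one_le_pow₀ (by norm_num))

private theorem frt_b (h : FR cl dg K W k η ax rule v) (r : ℕ)
    (hb : ∀ (a : α) (n : ℕ), TT ax rule a n → n < 2 ^ r →
      ‖cl (1 - v a)‖ ^ 2 ≤ 4 * 8 ^ r * η ^ 2)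
    (ha : ∀ (c a : α) (n : ℕ), TC ax rule c a n → n < 2 ^ r →
      ‖cl (v c * (1 - v a))‖ ^ 2 ≤ 4 * 8 ^ r * η ^ 2)
    {a : α} {n : ℕ} (hT : TT ax rule a n) (hn : n < 2 ^ (r + 1)) :
    ‖cl (1 - v a)‖ ^ 2 ≤ 16 * (8 ^ r * η ^ 2) := by
  have hE := frt_e r η
  have h0 : 0 ≤ η ^ 2 := sq_nonneg η
  rcases Nat.eq_zero_or_pos n with hn0 | hn0
  · have h1 := frt_ax h (frt_tt0 hT hn0)
    linarith
  obtain ⟨x, y, z, n1, n2, n3, t1, t2, t3, t4, t5, t6, t7⟩ := sep_tt hT hn0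
  rw [pow_succ] at hn
  have A := ha x a n1 t1 (by omega)
  have B := hb y n2 t2 (by omega)
  have C := hb z n3 t3 (by omega)
  have mp := frt_c1 h a
  have m2 := frt_mul h (frt_c h x) mp
  have m3 := frt_mul h (h.deg y) m2
  have q1 := frt_q h x mp (by omega)
  have q2 := frt_q h y m2 (by omega)
  have q3 := frt_q h z m3 (by omega)
  -- the answer false for y
  have f1 : ‖cl ((1 - v y) * ((1 - v x) * (1 - v a)))‖ ^ 2 ≤
      1003 / 1000 * (1003 / 1000 * ‖cl (1 - v y)‖ ^ 2) := by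
    have e : (1 - v y) * ((1 - v x) * (1 - v a)) = (1 - v x) * ((1 - v a) * (1 - v y)) := by ring
    rw [e]
    have g1 := (frt_f h a (frt_c1 h y) (by omega)).2
    have g2 := (frt_f h x (frt_mul h (frt_c h a) (frt_c1 h y)) (by omega)).2
    linarith
  -- the answer false for z
  have f2 : ‖cl ((1 - v z) * (v y * ((1 - v x) * (1 - v a))))‖ ^ 2 ≤
      1003 / 1000 * (1003 / 1000 * (1003 / 1000 * ‖cl (1 - v z)‖ ^ 2)) := by
    have e : (1 - v z) * (v y * ((1 - v x) * (1 - v a))) =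
      v y * ((1 - v x) * ((1 - v a) * (1 - v z))) := by ring
    rw [e]
    have k1 := frt_mul h (frt_c h a) (frt_c1 h z)
    have g1 := (frt_f h a (frt_c1 h z) (by omega)).2
    have g2 := (frt_f h x k1 (by omega)).2
    have g3 := (frt_f h y (frt_mul h (frt_c h x) k1) (by omega)).1
    linarith
  -- the answer true for y and z
  have f3 : ‖cl (v z * (v y * ((1 - v x) * (1 - v a))))‖ ^ 2 ≤ η ^ 2 * ‖cl (1 - v a)‖ ^ 2 := by
    have e : v z * (v y * ((1 - v x) * (1 - v a))) = v y * v z * (1 - v x) * (1 - v a) := by ring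
    rw [e]
    exact frt_s h (h.rule y z x t4) mp (by omega)
  have f4 : ‖cl (1 - v a)‖ ^ 2 ≤ 2 := by
    have g1 := (frt_f h a (frt_one h) (by omega)).2
    rw [mul_one, frt_w1 h] at g1
    linarith
  have f5 : η ^ 2 * ‖cl (1 - v a)‖ ^ 2 ≤ η ^ 2 * 2 := mul_le_mul_of_nonneg_left f4 h0
  rw [mul_assoc] at A B C
  linarith

private theorem frt_a (h : FR cl dg K W k η ax rule v) (r : ℕ)
    (hb : ∀ (a : α) (n : ℕ), TT ax rule a n → n < 2 ^ (r + 1) →
      ‖cl (1 - v a)‖ ^ 2 ≤ 16 * (8 ^ r * η ^ 2))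
    (ha : ∀ (c a : α) (n : ℕ), TC ax rule c a n → n < 2 ^ r →
      ‖cl (v c * (1 - v a))‖ ^ 2 ≤ 4 * 8 ^ r * η ^ 2)
    {c a : α} {n : ℕ} (hT : TC ax rule c a n) (hn : n < 2 ^ (r + 1)) :
    ‖cl (v c * (1 - v a))‖ ^ 2 ≤ 32 * (8 ^ r * η ^ 2) := by
  have hE := frt_e r η
  have h0 : 0 ≤ η ^ 2 := sq_nonneg η
  rcases Nat.eq_zero_or_pos n with hn0 | hn0
  · have h1 := frt_id h c
    rw [frt_tc0 hT hn0]
    linarith
  obtain ⟨x, y, z, n1, n2, n3, t1, t2, t3, t4, t5, t6, t7⟩ := sep_tc hT hn0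
  have C := hb z n3 t3 (by omega)
  rw [pow_succ] at hn
  have A := ha x a n1 t1 (by omega)
  have B := ha c y n2 t2 (by omega)
  have mp := frt_mul h (h.deg c) (frt_c1 h a)
  have m2 := frt_mul h (frt_c h x) mp
  have m3 := frt_mul h (h.deg y) m2
  have q1 := frt_q h x mp (by omega)
  have q2 := frt_q h y m2 (by omega)
  have q3 := frt_q h z m3 (by omega)
  -- the answer true for x
  have f0 : ‖cl (v x * (v c * (1 - v a)))‖ ^ 2 ≤ 1003 / 1000 * ‖cl (v x * (1 - v a))‖ ^ 2 := by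
    have e : v x * (v c * (1 - v a)) = v c * (v x * (1 - v a)) := by ring
    rw [e]
    exact (frt_f h c (frt_mul h (h.deg x) (frt_c1 h a)) (by omega)).1
  -- the answer false for y
  have f1 : ‖cl ((1 - v y) * ((1 - v x) * (v c * (1 - v a))))‖ ^ 2 ≤
      1003 / 1000 * (1003 / 1000 * ‖cl (v c * (1 - v y))‖ ^ 2) := by
    have e : (1 - v y) * ((1 - v x) * (v c * (1 - v a))) =
      (1 - v x) * ((1 - v a) * (v c * (1 - v y))) := by ring
    rw [e]
    have k1 := frt_mul h (h.deg c) (frt_c1 h y)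
    have g1 := (frt_f h a k1 (by omega)).2
    have g2 := (frt_f h x (frt_mul h (frt_c h a) k1) (by omega)).2
    linarith
  -- the answer false for z
  have f2 : ‖cl ((1 - v z) * (v y * ((1 - v x) * (v c * (1 - v a)))))‖ ^ 2 ≤
      1003 / 1000 * (1003 / 1000 * (1003 / 1000 * (1003 / 1000 * ‖cl (1 - v z)‖ ^ 2))) := by
    have e : (1 - v z) * (v y * ((1 - v x) * (v c * (1 - v a)))) =
      v y * ((1 - v x) * (v c * ((1 - v a) * (1 - v z)))) := by ring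
    rw [e]
    have k1 := frt_mul h (frt_c h a) (frt_c1 h z)
    have k2 := frt_mul h (h.deg c) k1
    have k3 := frt_mul h (frt_c h x) k2
    have g1 := (frt_f h a (frt_c1 h z) (by omega)).2
    have g2 := (frt_f h c k1 (by omega)).1
    have g3 := (frt_f h x k2 (by omega)).2
    have g4 := (frt_f h y k3 (by omega)).1
    linarith
  -- the answer true for y and z
  have f3 : ‖cl (v z * (v y * ((1 - v x) * (v c * (1 - v a)))))‖ ^ 2 ≤
      η ^ 2 * ‖cl (v c * (1 - v a))‖ ^ 2 := by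
    rcases t4 with t4 | t4
    · have e : v z * (v y * ((1 - v x) * (v c * (1 - v a)))) =
        v y * v z * (1 - v x) * (v c * (1 - v a)) := by ring
      rw [e]
      exact frt_s h (h.rule y z x t4) mp (by omega)
    · have e : v z * (v y * ((1 - v x) * (v c * (1 - v a)))) =
        v z * v y * (1 - v x) * (v c * (1 - v a)) := by ring
      rw [e]
      exact frt_s h (h.rule z y x t4) mp (by omega)
  have f4 : ‖cl (v c * (1 - v a))‖ ^ 2 ≤ 3 := by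
    have g1 := (frt_f h a (frt_one h) (by omega)).2
    rw [mul_one, frt_w1 h] at g1
    have g2 := (frt_f h c (frt_c1 h a) (by omega)).1
    linarith
  have f5 : η ^ 2 * ‖cl (v c * (1 - v a))‖ ^ 2 ≤ η ^ 2 * 3 := mul_le_mul_of_nonneg_left f4 h0
  rw [mul_assoc] at A B
  linarith

private theorem frt_main (h : FR cl dg K W k η ax rule v) (r : ℕ) :
    (∀ (a : α) (n : ℕ), TT ax rule a n → n < 2 ^ r → ‖cl (1 - v a)‖ ^ 2 ≤ 4 * 8 ^ r * η ^ 2) ∧
      ∀ (c a : α) (n : ℕ), TC ax rule c a n → n < 2 ^ r →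
        ‖cl (v c * (1 - v a))‖ ^ 2 ≤ 4 * 8 ^ r * η ^ 2 := by
  have h0 : 0 ≤ η ^ 2 := sq_nonneg η
  induction r with
  | zero =>
    refine ⟨fun a n hT hn => ?_, fun c a n hT hn => ?_⟩
    · have h1 := frt_ax h (frt_tt0 hT (by simpa using hn))
      rw [pow_zero]
      linarith
    · have h1 := frt_id h c
      rw [frt_tc0 hT (by simpa using hn), pow_zero]
      linarith
  | succ r ih =>
    have hb := fun (a : α) (n : ℕ) (hT : TT ax rule a n) (hn : n < 2 ^ (r + 1)) =>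
      frt_b h r ih.1 ih.2 hT hn
    have hE := frt_e r η
    have e : (4 : ℝ) * 8 ^ (r + 1) * η ^ 2 = 32 * (8 ^ r * η ^ 2) := by ring
    refine ⟨fun a n hT hn => ?_, fun c a n hT hn => ?_⟩
    · rw [e]
      have h1 := hb a n hT hn
      linarith
    · rw [e]
      exact frt_a h r hb ih.2 hT hn

theorem fr_tt (h : FR cl dg K W k η ax rule v) (r : ℕ) {a : α} {n : ℕ}
    (hT : TT ax rule a n) (hn : n < 2 ^ r) : ‖cl (1 - v a)‖ ^ 2 ≤ 4 * 8 ^ r * η ^ 2 :=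
  (frt_main h r).1 a n hT hn

end Pool.H6.QR
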