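import Mathlib
import Pool.Agent.H6.QR.FrH
import Pool.Agent.H6.QR.FrT
import Pool.Agent.H81.QG.Bds

set_option autoImplicit false

/-!
# [H6 QR FNB] Tree-like derivations and height, final form

`α = Fs ι s`, `v F = V F.1`, `ax = axs Sch Γ s`, `rule = mpr s`. `FR` on the degree `k'` with `η'`: `idem` from `hV.idem` (`η ≤ η'`),
`ax`: `hΓ` resp. `inst_sml` (as in `bad_of_bd` of `H81/QG/Bds.lean`), `rule`: `mp_sml`. `neg_sml` for `V A * V (neg A)`. Then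
`td_tt`, `fr_tt` (`n ≤ N < 2^r`), resp. `hd_ht`, `fr_ht`, and `fr_fin`.
-/

namespace Pool.H6.QR

open Finset Classical Pool.Agent.H3.Frg Pool.Agent.H3.Frg2 Pool.Agent.H81.QG

variable {R H ι : Type} [CommRing R] [Algebra ℝ R] [NormedAddCommGroup H] [InnerProductSpace ℝ H]
variable {cl : R →ₗ[ℝ] H} {dg : ℕ → Submodule ℝ R} {K : ℕ}

private theorem fnb_fr (hL : Liar cl dg K) {V : Fm ι → R} {y : ι → R} {W s k ℓ : ℕ} {η : ℝ}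
    (hV : VI cl dg V y W s k η) (hη : 0 ≤ η) (hK : k + 2 * W ≤ K)
    {Sch : Set (Fm ℕ)} {Γ : Set (Fm ι)} (hS : ∀ ψ ∈ Sch, ψ.len ≤ ℓ ∧ ∀ x, ψ.eval x = true)
    {k' : ℕ} {η' : ℝ} (hkl : k' + (2 * ℓ + 2) * W ≤ k) (hη' : 10 * 100 ^ ℓ * η ≤ η')
    (hΓ : ∀ A ∈ Γ, A.leaves ≤ s → Sml cl dg k' η' (1 - V A)) (hk : 6 * W ≤ k')
    (hη1 : η' ≤ 1 / 1000) :
    FR cl dg K W k' η' (axs Sch Γ s) (mpr s) (fun F : Fs ι s => V F.1) ∧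
      ∀ A : Fm ι, A.leaves ≤ s → Sml cl dg k' η' (V A * V (.neg A)) := by
  have e0 : (2 * ℓ + 2) * W = 2 * ℓ * W + 2 * W := by ring
  have p1 : (1 : ℝ) ≤ 100 ^ ℓ := one_le_pow₀ (by norm_num)
  have pη : 0 ≤ (100 : ℝ) ^ ℓ * η := by positivity
  have hle : ∀ m, m ≤ ℓ → 10 * ((100 : ℝ) ^ m * η) ≤ η' := by
    intro m hm
    have h1 : (100 : ℝ) ^ m ≤ 100 ^ ℓ := pow_le_pow_right₀ (by norm_num) hm
    have h2 : (100 : ℝ) ^ m * η ≤ 100 ^ ℓ * η := mul_le_mul_of_nonneg_right h1 hη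
    linarith
  have h10 : 10 * η ≤ η' := by
    have := hle 0 (Nat.zero_le _)
    rw [pow_zero, one_mul] at this
    exact this
  have h01 : η ≤ η' := by linarith
  have hη0 : 0 ≤ η' := by linarith
  have hη2 : η ≤ 1 := by linarith
  refine ⟨⟨hL, fun a => hV.deg _ a.2, fun a => (hV.idem a.1 a.2).mono hL (by omega) h01, ?_, ?_,
    hk, by omega, hη0, hη1⟩, ?_⟩
  · rintro a (ha | ⟨ψ, hψ, σ, hσ⟩)
    · exact hΓ _ ha a.2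
    · obtain ⟨g1, g2⟩ := hS _ hψ
      have h3 : 2 * ψ.len * W ≤ 2 * ℓ * W := Nat.mul_le_mul_right W (by omega)
      have h4 : (100 : ℝ) ^ ψ.len * η ≤ η' := by
        have h5 := hle _ g1
        have h6 : 0 ≤ (100 : ℝ) ^ ψ.len * η := by positivity
        linarith
      show Sml cl dg k' η' (1 - V a.1)
      rw [hσ]
      exact (inst_sml hL hV hη hη2 hK ψ σ g2 (by rw [← hσ]; exact a.2) (k' := k')
        (by omega)).mono hL le_rfl h4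
  · intro a b c hr
    have hb2 : (a.1.imp c.1).leaves ≤ s := by
      have := b.2
      rw [hr] at this
      exact this
    show Sml cl dg k' η' (V a.1 * V b.1 * (1 - V c.1))
    rw [hr]
    exact (mp_sml hL hV hη hη2 hK hb2 (k' := k') (by omega)).mono hL le_rfl h10
  · intro A hA
    exact (neg_sml hL hV hη hη2 hK hA (k' := k') (by
      have : W ≤ 2 * W := by omega
      omega)).mono hL le_rfl h10

theorem fin_tree2 (hL : Liar cl dg K) {V : Fm ι → R} {y : ι → R} {W s k ℓ r : ℕ} {η : ℝ}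
    (hW : 1 ≤ W) (hV : VI cl dg V y W s k η) (hη : 0 ≤ η) (hK : k + 2 * W ≤ K)
    {Sch : Set (Fm ℕ)} {Γ : Set (Fm ι)} (hS : ∀ ψ ∈ Sch, ψ.len ≤ ℓ ∧ ∀ x, ψ.eval x = true)
    {k' : ℕ} {η' : ℝ} (hkl : k' + (2 * ℓ + 2) * W ≤ k) (hη' : 10 * 100 ^ ℓ * η ≤ η')
    (hΓ : ∀ A ∈ Γ, A.leaves ≤ s → Sml cl dg k' η' (1 - V A)) (hk : 6 * W ≤ k')
    (hη1 : η' ≤ 1 / 1000) (hη2 : 12 * 8 ^ r * η' ^ 2 < 1) {A : Fm ι} {N N' : ℕ}
    (hA : TD Sch Γ s N A) (hA' : TD Sch Γ s N' (.neg A)) (hN : N < 2 ^ r) (hN' : N' < 2 ^ r) :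
    False := by
  obtain ⟨hF, hneg⟩ := fnb_fr hL hV hη hK hS hkl hη' hΓ hk hη1
  obtain ⟨n, hn, tn⟩ := td_tt hA
  obtain ⟨n', hn', tn'⟩ := td_tt hA'
  have h1 := fr_tt hF r tn (by omega)
  have h2 := fr_tt hF r tn' (by omega)
  exact fr_fin hF (a := ⟨A, hA.leaves⟩) (b := ⟨.neg A, hA'.leaves⟩) (hneg A hA.leaves) h1 h2
    (by linarith)

theorem fin_height2 (hL : Liar cl dg K) {V : Fm ι → R} {y : ι → R} {W s k ℓ h : ℕ} {η : ℝ}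
    (hW : 1 ≤ W) (hV : VI cl dg V y W s k η) (hη : 0 ≤ η) (hK : k + 2 * W ≤ K)
    {Sch : Set (Fm ℕ)} {Γ : Set (Fm ι)} (hS : ∀ ψ ∈ Sch, ψ.len ≤ ℓ ∧ ∀ x, ψ.eval x = true)
    {k' : ℕ} {η' : ℝ} (hkl : k' + (2 * ℓ + 2) * W ≤ k) (hη' : 10 * 100 ^ ℓ * η ≤ η')
    (hΓ : ∀ A ∈ Γ, A.leaves ≤ s → Sml cl dg k' η' (1 - V A)) (hk : 6 * W ≤ k')
    (hη1 : η' ≤ 1 / 1000) (hη2 : 3 ^ (h + 2) * η' ^ 2 < 1) {A : Fm ι}
    (hA : HD Sch Γ s h A) (hA' : HD Sch Γ s h (.neg A)) : False := by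
  obtain ⟨hF, hneg⟩ := fnb_fr hL hV hη hK hS hkl hη' hΓ hk hη1
  have h1 := fr_ht hF (hd_ht hA)
  have h2 := fr_ht hF (hd_ht hA')
  refine fr_fin hF (a := ⟨A, hA.leaves⟩) (b := ⟨.neg A, hA'.leaves⟩) (hneg A hA.leaves) h1 h2 ?_
  have e : (3 : ℝ) ^ (h + 2) = 3 * 3 ^ (h + 1) := by ring
  rw [e] at hη2
  linarith

end Pool.H6.QR
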