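import Mathlib

set_option autoImplicit false

/-!
# [H6 QR AMP] Amplification polynomials (identities in a commutative ring)

`gm M b = ∑_{i ≤ M} C(M+i, i) b^i`, `tj 0 a = a`, `tj j a = C(2j-1, j) (2a - 1)(a - a²)^j`, `wm M a = ∑_{j ≤ M} tj j a`.
* `wm_compl`: termwise (`(1-a) - (1-a)² = a - a²`, `2(1-a) - 1 = -(2a-1)`).
* `wm_fac`: `wm M a = a^(M+1) gm M (1-a)`. Induction on `M`; `M = 0`: `a = a * 1`. Let `b = 1 - a`, `S_M = gm M b`. Then
  `a S_M = S_M - b S_M = ∑_{i ≤ M} (C(M+i,i) - C(M+i-1,i-1)) b^i - C(2M,M) b^(M+1) = ∑_{i ≤ M} C(M-1+i,i) b^i - C(2M,M) b^(M+1)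
  = S_{M-1} + C(2M-1,M) b^M - C(2M,M) b^(M+1)` (Pascal; `Finset.sum_range_succ'`, for `M ≥ 1`), so with `C(2M,M) = 2 C(2M-1,M)`
  (`Nat.succ_mul_centralBinom_succ` or Pascal and `Nat.choose_symm`): `a^(M+1) S_M = a^M S_{M-1} + a^M b^M C(2M-1,M)(1 - 2b)`,
  `1 - 2b = 2a - 1`, `a b = a - a²`.
* `wm_and`: with `x = wm M a`, `y = wm M b`, `t = wm M c`: `t - x y = t (1-x) + t x (1-y) - x y (1-t)` (ring), `wm_fac` for
  `t, x, y` and `wm_fac'` for `1-x, 1-y, 1-t`, `mul_pow`.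
* `wm_idem`: `x² - x = - x (1 - x)`.
-/

namespace Pool.H6.QR

open Finset

variable {R : Type} [CommRing R]

/-- `∑_{i ≤ M} C(M+i, i) b^i` -/
def gm (M : ℕ) (b : R) : R := ∑ i ∈ range (M + 1), (((M + i).choose i : ℕ) : R) * b ^ i

/-- The terms of the amplification polynomial. -/
def tj (j : ℕ) (a : R) : R :=
  if j = 0 then a else (((2 * j - 1).choose j : ℕ) : R) * (2 * a - 1) * (a - a * a) ^ j

/-- The amplification polynomial of degree `2 M + 1`. -/
def wm (M : ℕ) (a : R) : R := ∑ j ∈ range (M + 1), tj j a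

private theorem tj_compl (j : ℕ) (a : R) : tj (j + 1) (1 - a) = - tj (j + 1) a := by
  unfold tj
  have h : (1 - a) - (1 - a) * (1 - a) = a - a * a := by ring
  rw [if_neg (Nat.succ_ne_zero j), if_neg (Nat.succ_ne_zero j), h]
  ring

theorem wm_compl (M : ℕ) (a : R) : wm M (1 - a) = 1 - wm M a := by
  unfold wm
  rw [Finset.sum_range_succ', Finset.sum_range_succ',
    Finset.sum_congr rfl (fun j _ => tj_compl j a), Finset.sum_neg_distrib]
  have h0 : ∀ x : R, tj 0 x = x := fun x => by unfold tj; rw [if_pos rfl]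
  rw [h0, h0]
  ring

private theorem gm_step (M : ℕ) (b : R) : (1 - b) * gm (M + 1) b =
    gm M b + (((2 * M + 1).choose (M + 1) : ℕ) : R) * b ^ (M + 1)
      - 2 * (((2 * M + 1).choose (M + 1) : ℕ) : R) * b ^ (M + 2) := by
  have h1 : gm (M + 1) b = 1 + ∑ i ∈ range (M + 1),
      (((M + 1 + (i + 1)).choose (i + 1) : ℕ) : R) * b ^ (i + 1) := by
    unfold gm
    rw [Finset.sum_range_succ' _ (M + 1)]
    simp [add_comm]
  have h2 : gm (M + 1) b = ∑ i ∈ range (M + 1), (((M + 1 + i).choose i : ℕ) : R) * b ^ i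
      + (((M + 1 + (M + 1)).choose (M + 1) : ℕ) : R) * b ^ (M + 1) := by
    unfold gm
    rw [Finset.sum_range_succ _ (M + 1)]
  have h3 : gm M b + (((2 * M + 1).choose (M + 1) : ℕ) : R) * b ^ (M + 1) = 1 +
      ∑ i ∈ range (M + 1), (((M + (i + 1)).choose (i + 1) : ℕ) : R) * b ^ (i + 1) := by
    have h4 : gm M b + (((2 * M + 1).choose (M + 1) : ℕ) : R) * b ^ (M + 1) =
        ∑ i ∈ range (M + 2), (((M + i).choose i : ℕ) : R) * b ^ i := by
      rw [Finset.sum_range_succ _ (M + 1)]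
      unfold gm
      have h5 : 2 * M + 1 = M + (M + 1) := by ring
      rw [h5]
    rw [h4, Finset.sum_range_succ' _ (M + 1)]
    simp [add_comm]
  have h6 : ∑ i ∈ range (M + 1), (((M + 1 + (i + 1)).choose (i + 1) : ℕ) : R) * b ^ (i + 1) =
      ∑ i ∈ range (M + 1), (((M + (i + 1)).choose (i + 1) : ℕ) : R) * b ^ (i + 1) +
      b * ∑ i ∈ range (M + 1), (((M + 1 + i).choose i : ℕ) : R) * b ^ i := by
    rw [Finset.mul_sum, ← Finset.sum_add_distrib]
    refine Finset.sum_congr rfl (fun i _ => ?_)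
    have h7 : (M + 1 + (i + 1)).choose (i + 1) = (M + 1 + i).choose i + (M + (i + 1)).choose (i + 1) := by
      have h8 : M + 1 + (i + 1) = (M + 1 + i) + 1 := by ring
      have h9 : M + (i + 1) = M + 1 + i := by ring
      rw [h8, Nat.choose_succ_succ, h9]
    rw [h7, Nat.cast_add]
    ring
  have h10 : (((M + 1 + (M + 1)).choose (M + 1) : ℕ) : R) = 2 * (((2 * M + 1).choose (M + 1) : ℕ) : R) := by
    have h11 : M + 1 + (M + 1) = (2 * M + 1) + 1 := by ring
    rw [h11, Nat.choose_succ_succ, Nat.choose_symm_half, Nat.cast_add]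
    ring
  have h12 : (1 - b) * gm (M + 1) b = gm (M + 1) b - b * gm (M + 1) b := by ring
  rw [h12]
  nth_rewrite 2 [h2]
  rw [h1, h6, h10]
  rw [h3]
  ring


theorem wm_fac (M : ℕ) (a : R) : wm M a = a ^ (M + 1) * gm M (1 - a) := by
  induction M with
  | zero =>
    unfold wm gm tj
    simp
  | succ M ih =>
    have h1 : wm (M + 1) a = wm M a + tj (M + 1) a := by
      unfold wm
      rw [Finset.sum_range_succ _ (M + 1)]
    have h2 : tj (M + 1) a = (((2 * M + 1).choose (M + 1) : ℕ) : R) * (2 * a - 1) * (a - a * a) ^ (M + 1) := by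
      unfold tj
      rw [if_neg (Nat.succ_ne_zero M)]
      have h3 : 2 * (M + 1) - 1 = 2 * M + 1 := by omega
      rw [h3]
    have h4 := gm_step M (1 - a)
    have h5 : a ^ (M + 1 + 1) * gm (M + 1) (1 - a) = a ^ (M + 1) * ((1 - (1 - a)) * gm (M + 1) (1 - a)) := by
      ring
    have h6 : a - a * a = a * (1 - a) := by ring
    rw [h1, h2, ih, h5, h4, h6, mul_pow]
    ring

theorem wm_fac' (M : ℕ) (a : R) : 1 - wm M a = (1 - a) ^ (M + 1) * gm M a := by
  have h := wm_fac M (1 - a)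
  rw [wm_compl, sub_sub_cancel] at h
  exact h

theorem tj_idem (j : ℕ) {a : R} (h : a * a = a) : tj j a = if j = 0 then a else 0 := by
  unfold tj
  by_cases hj : j = 0
  · rw [if_pos hj, if_pos hj]
  · rw [if_neg hj, if_neg hj, h, sub_self, zero_pow hj, mul_zero]

theorem wm_and (M : ℕ) (a b c : R) : wm M c - wm M a * wm M b =
    (c * (1 - a)) ^ (M + 1) * (gm M (1 - c) * gm M a) +
    (c * (1 - b)) ^ (M + 1) * (gm M (1 - c) * gm M b * wm M a) -
    (a * b * (1 - c)) ^ (M + 1) * (gm M (1 - a) * gm M (1 - b) * gm M c) := by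
  have h0 : wm M c - wm M a * wm M b = wm M c * (1 - wm M a) + wm M c * (1 - wm M b) * wm M a
      - wm M a * wm M b * (1 - wm M c) := by ring
  have h1 : (c * (1 - a)) ^ (M + 1) * (gm M (1 - c) * gm M a) = wm M c * (1 - wm M a) := by
    rw [wm_fac' M a, wm_fac M c, mul_pow]
    ring
  have h2 : (c * (1 - b)) ^ (M + 1) * (gm M (1 - c) * gm M b * wm M a) =
      wm M c * (1 - wm M b) * wm M a := by
    rw [wm_fac' M b, wm_fac M c, mul_pow]
    ring
  have h3 : (a * b * (1 - c)) ^ (M + 1) * (gm M (1 - a) * gm M (1 - b) * gm M c) =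
      wm M a * wm M b * (1 - wm M c) := by
    rw [wm_fac' M c, wm_fac M a, wm_fac M b, mul_pow, mul_pow]
    ring
  rw [h0, h1, h2, h3]

theorem wm_idem (M : ℕ) (a : R) : wm M a * wm M a - wm M a =
    -((a - a * a) ^ (M + 1) * (gm M (1 - a) * gm M a)) := by
  have h0 : wm M a * wm M a - wm M a = -(wm M a * (1 - wm M a)) := by ring
  have h1 : (a - a * a) ^ (M + 1) * (gm M (1 - a) * gm M a) = wm M a * (1 - wm M a) := by
    have h2 : a - a * a = a * (1 - a) := by ring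
    rw [wm_fac' M a, wm_fac M a, h2, mul_pow]
    ring
  rw [h0, h1]

end Pool.H6.QR
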