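import Mathlib
import Pool.Agent.H81.QG.Nrm

set_option autoImplicit false

/-!
# [H6 QR SD] Elements with degree and norm

`Sd cl dg K c0 D n r`: `r` has degree `D`, and multiplication by `r` has norm at most `n` on the degree `b` if
`b + D + c0 ≤ K`. All lemmas are two lines from the definition (`Sml`, `Liar.mono`, `Liar.mul`):
`mul`: for `p ∈ dg b`, `b + (D + D') + c0 ≤ K`: `r' p ∈ dg (D' + b)`, `‖cl (r (r' p))‖ ≤ n ‖cl (r' p)‖ ≤ n n' ‖cl p‖`.
-/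

namespace Pool.H6.QR

open Finset Pool.Agent.H81.QG

variable {R H : Type} [CommRing R] [Algebra ℝ R] [NormedAddCommGroup H] [InnerProductSpace ℝ H]

/-- Degree at most `D` and norm at most `n`. -/
def Sd (cl : R →ₗ[ℝ] H) (dg : ℕ → Submodule ℝ R) (K c0 D : ℕ) (n : ℝ) (r : R) : Prop :=
  r ∈ dg D ∧ ∀ b, b + D + c0 ≤ K → Sml cl dg b n r

variable {cl : R →ₗ[ℝ] H} {dg : ℕ → Submodule ℝ R} {K c0 : ℕ}

theorem Sd.mono (hL : Liar cl dg K) {D D' : ℕ} {n n' : ℝ} {r : R} (h : Sd cl dg K c0 D n r)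
    (hD : D ≤ D') (hn : n ≤ n') : Sd cl dg K c0 D' n' r := by
  refine ⟨hL.mono hD h.1, fun b hb => (h.2 b (by omega)).mono hL le_rfl hn⟩

theorem Sd.zero (D : ℕ) {n : ℝ} (hn : 0 ≤ n) : Sd cl dg K c0 D n (0 : R) := by
  exact ⟨zero_mem _, fun b _ => Sml.zero hn⟩

theorem Sd.one (hL : Liar cl dg K) : Sd cl dg K c0 0 1 (1 : R) := by
  exact ⟨hL.one, fun b _ => Sml.one' le_rfl⟩

theorem Sd.neg {D : ℕ} {n : ℝ} {r : R} (h : Sd cl dg K c0 D n r) : Sd cl dg K c0 D n (-r) := by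
  exact ⟨neg_mem h.1, fun b hb => (h.2 b hb).neg⟩

theorem Sd.add (hL : Liar cl dg K) {D D' : ℕ} {n n' : ℝ} {r r' : R} (h : Sd cl dg K c0 D n r)
    (h' : Sd cl dg K c0 D' n' r') : Sd cl dg K c0 (max D D') (n + n') (r + r') := by
  refine ⟨add_mem (hL.mono (le_max_left _ _) h.1) (hL.mono (le_max_right _ _) h'.1), fun b hb => ?_⟩
  have h1 := le_max_left D D'
  have h2 := le_max_right D D'
  exact (h.2 b (by omega)).add (h'.2 b (by omega))

theorem Sd.sub (hL : Liar cl dg K) {D D' : ℕ} {n n' : ℝ} {r r' : R} (h : Sd cl dg K c0 D n r)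
    (h' : Sd cl dg K c0 D' n' r') : Sd cl dg K c0 (max D D') (n + n') (r - r') := by
  rw [sub_eq_add_neg]
  exact h.add hL h'.neg

theorem Sd.mul (hL : Liar cl dg K) {D D' : ℕ} {n n' : ℝ} {r r' : R} (hn : 0 ≤ n)
    (h : Sd cl dg K c0 D n r) (h' : Sd cl dg K c0 D' n' r') :
    Sd cl dg K c0 (D + D') (n * n') (r * r') := by
  refine ⟨hL.mul D D' _ _ h.1 h'.1, fun b hb p hp => ?_⟩
  have h1 : r' * p ∈ dg (D' + b) := hL.mul D' b _ _ h'.1 hp
  rw [mul_assoc, mul_assoc]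
  exact (h.2 (D' + b) (by omega) _ h1).trans
    (mul_le_mul_of_nonneg_left (h'.2 b (by omega) p hp) hn)

theorem Sd.natmul {D : ℕ} {n : ℝ} {r : R} (m : ℕ) (h : Sd cl dg K c0 D n r) :
    Sd cl dg K c0 D (m * n) ((m : R) * r) := by
  have e : ∀ x : R, (m : R) * x = (m : ℝ) • x := fun x => by
    rw [Algebra.smul_def, map_natCast]
  refine ⟨?_, fun b hb p hp => ?_⟩
  · rw [e]
    exact Submodule.smul_mem _ _ h.1
  · rw [mul_assoc, e, map_smul, norm_smul, Real.norm_natCast, mul_assoc]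
    exact mul_le_mul_of_nonneg_left (h.2 b hb p hp) (Nat.cast_nonneg m)

theorem Sd.pow (hL : Liar cl dg K) {D : ℕ} {n : ℝ} {r : R} (hn : 0 ≤ n)
    (h : Sd cl dg K c0 D n r) (m : ℕ) : Sd cl dg K c0 (m * D) (n ^ m) (r ^ m) := by
  induction m with
  | zero =>
    rw [pow_zero, pow_zero, zero_mul]
    exact Sd.one hL
  | succ m ih =>
    rw [pow_succ, pow_succ, Nat.succ_mul]
    exact ih.mul hL (pow_nonneg hn m) h

theorem Sd.sum (hL : Liar cl dg K) {β : Type} (s : Finset β) {D : ℕ} {n : β → ℝ} {r : β → R}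
    (h : ∀ i ∈ s, Sd cl dg K c0 D (n i) (r i)) :
    Sd cl dg K c0 D (∑ i ∈ s, n i) (∑ i ∈ s, r i) := by
  exact ⟨sum_mem fun i hi => (h i hi).1, fun b hb => Sml.sum s fun i hi => (h i hi).2 b hb⟩

end Pool.H6.QR
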