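import Mathlib
import Pool.Agent.H6.QR.Amp
import Pool.Agent.H6.QR.Sd

set_option autoImplicit false

/-!
# [H6 QR BAS] Amplification of approximate relations

All elements `a, b, c` have degree `D` and norm `2` (also `1 - a`, ...); `a - a²`, `b - b²`, `c - c²` and `c - a b` have
degree `2 D` and norm `E ≤ 1`.
* `gm_sd`: `Sd (M D) (4 * 8^M) (gm M b)` if `Sd D 2 b`: terms `C(M+i,i) 2^i`, `C(M+i,i) ≤ 4^M` (`Nat.choose_le_two_pow`-like:
  `C(M+i, i) ≤ 2^(M+i) ≤ 4^M`), `∑_{i ≤ M} 4^M 2^i ≤ 4^M 2^(M+1) = 2 * 8^M`.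
* `wm_sd`: `Sd ((2M+1) D) (2 * 16 ^ (M+1)) (wm M a)`: `wm_fac`, `2^(M+1) * 4 * 8^M = 8 * 16^M`.
* `cc1`: `c (1 - a) = (c - a b)(1 - a) + b (a - a²)`: `Sd (3 D) (4 E)`; same for `b`;
  `cc2`: `a b (1 - c) = (1 - c) ... `: `a b (1-c) = b (a - a²) + a² (b - b²) - a b (c - a b)`
  [`a b - (a b)² = b(a - a²) + a²(b - b²)`]: `Sd (4 D) (2E + 4E + 4E = 10 E)`.
* `amp_and`: `wm_and` and the bounds: `(4E)^(M+1) (4·8^M)² + (4E)^(M+1) (4·8^M)² (8·16^M) + (10E)^(M+1) (4·8^M)³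
  ≤ (2^20 E)^(M+1)`; degree of the three terms: `3D(M+1) + 2MD`, `3D(M+1) + 2MD + (2M+1)D`, `4D(M+1) + 3MD`, all `≤ (8M+4) D`.
* `amp_or`: apply `amp_and` to `1 - a, 1 - b, 1 - c` (`wm_compl`; `(1-c) - (1-a)(1-b) = -(c - (a + b - a b))`).
* `amp_idem`: `wm_idem`: `E^(M+1) (4·8^M)²`.
-/

namespace Pool.H6.QR

open Finset Pool.Agent.H81.QG

variable {R H : Type} [CommRing R] [Algebra ℝ R] [NormedAddCommGroup H] [InnerProductSpace ℝ H]
variable {cl : R →ₗ[ℝ] H} {dg : ℕ → Submodule ℝ R} {K c0 : ℕ}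

private theorem nrm_gm (M : ℕ) : (∑ i ∈ range (M + 1), (4 : ℝ) ^ M * 2 ^ i) ≤ 4 * 8 ^ M := by
  have h2 : (∑ i ∈ range (M + 1), (2 : ℝ) ^ i) ≤ 2 ^ (M + 1) := by
    have h := geom_sum_eq (x := (2 : ℝ)) (by norm_num) (M + 1)
    rw [h]
    have : (0 : ℝ) < 2 ^ (M + 1) := by positivity
    have h3 : ((2 : ℝ) ^ (M + 1) - 1) / (2 - 1) = 2 ^ (M + 1) - 1 := by norm_num
    rw [h3]; linarith
  rw [← Finset.mul_sum]
  have h4 : (4 : ℝ) ^ M * 2 ^ (M + 1) = 2 * 8 ^ M := by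
    rw [pow_succ, show (8 : ℝ) = 4 * 2 by norm_num, mul_pow]; ring
  have h5 : (0 : ℝ) < 8 ^ M := by positivity
  calc (4 : ℝ) ^ M * ∑ i ∈ range (M + 1), (2 : ℝ) ^ i ≤ 4 ^ M * 2 ^ (M + 1) :=
        mul_le_mul_of_nonneg_left h2 (by positivity)
    _ = 2 * 8 ^ M := h4
    _ ≤ 4 * 8 ^ M := by nlinarith

theorem gm_sd (hL : Liar cl dg K) {D : ℕ} {b : R} (h : Sd cl dg K c0 D 2 b) (M : ℕ) :
    Sd cl dg K c0 (M * D) (4 * 8 ^ M) (gm M b) := by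
  unfold gm
  have key : Sd cl dg K c0 (M * D) (∑ i ∈ range (M + 1), (4 : ℝ) ^ M * 2 ^ i)
      (∑ i ∈ range (M + 1), (((M + i).choose i : ℕ) : R) * b ^ i) := by
    refine Sd.sum hL _ (fun i hi => ?_)
    have hi' : i ≤ M := Nat.lt_succ_iff.1 (Finset.mem_range.1 hi)
    have h1 := (Sd.pow hL (by norm_num : (0 : ℝ) ≤ 2) h i).natmul ((M + i).choose i)
    refine Sd.mono hL h1 (Nat.mul_le_mul_right D hi') ?_
    refine mul_le_mul_of_nonneg_right ?_ (by positivity)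
    have h2 : (M + i).choose i ≤ 2 ^ (M + i) := Nat.choose_le_two_pow _ _
    have h3 : 2 ^ (M + i) ≤ 4 ^ M := by
      calc 2 ^ (M + i) ≤ 2 ^ (M + M) := Nat.pow_le_pow_right (by norm_num) (by omega)
        _ = 4 ^ M := by rw [← two_mul, pow_mul]; norm_num
    exact_mod_cast h2.trans h3
  exact Sd.mono hL key le_rfl (nrm_gm M)

theorem wm_sd (hL : Liar cl dg K) {D : ℕ} {a : R} (h : Sd cl dg K c0 D 2 a)
    (h' : Sd cl dg K c0 D 2 (1 - a)) (M : ℕ) :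
    Sd cl dg K c0 ((2 * M + 1) * D) (8 * 16 ^ M) (wm M a) := by
  rw [wm_fac]
  have h1 := Sd.pow hL (by norm_num : (0 : ℝ) ≤ 2) h (M + 1)
  have h2 := gm_sd hL h' M
  have h3 := Sd.mul hL (by positivity) h1 h2
  refine Sd.mono hL h3 (le_of_eq (by ring)) (le_of_eq ?_)
  rw [pow_succ, show (16 : ℝ) = 2 * 8 by norm_num, mul_pow]; ring

/-- The terms of the amplification polynomial. -/
theorem tj_sd (hL : Liar cl dg K) {D : ℕ} {E : ℝ} (hE : 0 ≤ E) {a : R} (h : Sd cl dg K c0 D 2 a)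
    (h' : Sd cl dg K c0 D 2 (1 - a)) (ha : Sd cl dg K c0 (2 * D) E (a - a * a)) (j : ℕ) :
    Sd cl dg K c0 ((1 + 2 * j) * D) (4 * (4 * E) ^ j) (tj j a) := by
  unfold tj
  split_ifs with hj
  · subst hj
    exact Sd.mono hL h (by simp) (by norm_num)
  · have h1 : Sd cl dg K c0 (max D D) (2 + 2) (2 * a - 1) := by
      have := Sd.sub hL h h'
      rwa [show a - (1 - a) = 2 * a - 1 by ring] at this
    have h2 := (h1.natmul ((2 * j - 1).choose j))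
    have h3 := Sd.pow hL hE ha j
    have h4 := Sd.mul hL (by positivity) h2 h3
    refine Sd.mono hL h4 ?_ ?_
    · rw [max_self]; exact le_of_eq (by ring)
    · have h5 : (2 * j - 1).choose j ≤ 4 ^ j := by
        calc (2 * j - 1).choose j ≤ 2 ^ (2 * j - 1) := Nat.choose_le_two_pow _ _
          _ ≤ 2 ^ (2 * j) := Nat.pow_le_pow_right (by norm_num) (by omega)
          _ = 4 ^ j := by rw [pow_mul]; norm_num
      have h6 : (((2 * j - 1).choose j : ℕ) : ℝ) ≤ 4 ^ j := by exact_mod_cast h5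
      have h7 : (0 : ℝ) ≤ E ^ j := by positivity
      calc (((2 * j - 1).choose j : ℕ) : ℝ) * (2 + 2) * E ^ j ≤ 4 ^ j * (2 + 2) * E ^ j := by
            refine mul_le_mul_of_nonneg_right ?_ h7
            exact mul_le_mul_of_nonneg_right h6 (by norm_num)
        _ = 4 * (4 * E) ^ j := by rw [mul_pow]; ring

private theorem c1_sd (hL : Liar cl dg K) {D : ℕ} {E : ℝ} (hE : 0 ≤ E) {a b c : R}
    (h2 : Sd cl dg K c0 D 2 (1 - a)) (h3 : Sd cl dg K c0 D 2 b)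
    (h7 : Sd cl dg K c0 (2 * D) E (a - a * a)) (h9 : Sd cl dg K c0 (2 * D) E (c - a * b)) :
    Sd cl dg K c0 (3 * D) (4 * E) (c * (1 - a)) := by
  have k1 := Sd.mul hL hE h9 h2
  have k2 := Sd.mul hL (by norm_num : (0 : ℝ) ≤ 2) h3 h7
  have k3 := Sd.add hL k1 k2
  rw [show (c - a * b) * (1 - a) + b * (a - a * a) = c * (1 - a) by ring] at k3
  refine Sd.mono hL k3 ?_ (le_of_eq (by ring))
  exact max_le (le_of_eq (by ring)) (le_of_eq (by ring))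

private theorem c3_sd (hL : Liar cl dg K) {D : ℕ} {E : ℝ} (hE : 0 ≤ E) {a b c : R}
    (h1 : Sd cl dg K c0 D 2 a) (h3 : Sd cl dg K c0 D 2 b)
    (h7 : Sd cl dg K c0 (2 * D) E (a - a * a)) (h8 : Sd cl dg K c0 (2 * D) E (b - b * b))
    (h9 : Sd cl dg K c0 (2 * D) E (c - a * b)) :
    Sd cl dg K c0 (4 * D) (10 * E) (a * b * (1 - c)) := by
  have k1 := Sd.mul hL (by norm_num : (0 : ℝ) ≤ 2) h3 h7
  have ka := Sd.mul hL (by norm_num : (0 : ℝ) ≤ 2) h1 h1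
  have kb := Sd.mul hL (by norm_num : (0 : ℝ) ≤ 2) h1 h3
  have k2 := Sd.mul hL (by norm_num : (0 : ℝ) ≤ 2 * 2) ka h8
  have k3 := Sd.mul hL (by norm_num : (0 : ℝ) ≤ 2 * 2) kb h9
  have k4 := Sd.sub hL (Sd.add hL k1 k2) k3
  rw [show b * (a - a * a) + a * a * (b - b * b) - a * b * (c - a * b) = a * b * (1 - c) by ring] at k4
  refine Sd.mono hL k4 ?_ (le_of_eq (by ring))
  refine max_le (max_le ?_ ?_) ?_ <;> nlinarith [Nat.zero_le D]

private theorem nrm_fin (M : ℕ) {E : ℝ} (hE : 0 ≤ E) :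
    (4 * E) ^ (M + 1) * ((4 * 8 ^ M) * (4 * 8 ^ M)) +
      (4 * E) ^ (M + 1) * ((4 * 8 ^ M) * (4 * 8 ^ M) * (8 * 16 ^ M)) +
      (10 * E) ^ (M + 1) * ((4 * 8 ^ M) * (4 * 8 ^ M) * (4 * 8 ^ M)) ≤ (2 ^ 20 * E) ^ (M + 1) := by
  have e1 : (4 * E) ^ (M + 1) * ((4 * 8 ^ M) * (4 * 8 ^ M)) = E ^ (M + 1) * (64 * 256 ^ M) := by
    rw [mul_pow, show (256 : ℝ) = 4 * 8 * 8 by norm_num, mul_pow, mul_pow, pow_succ (4 : ℝ)]; ring
  have e2 : (4 * E) ^ (M + 1) * ((4 * 8 ^ M) * (4 * 8 ^ M) * (8 * 16 ^ M)) =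
      E ^ (M + 1) * (512 * 4096 ^ M) := by
    rw [mul_pow, show (4096 : ℝ) = 4 * 8 * 8 * 16 by norm_num, mul_pow, mul_pow, mul_pow,
      pow_succ (4 : ℝ)]; ring
  have e3 : (10 * E) ^ (M + 1) * ((4 * 8 ^ M) * (4 * 8 ^ M) * (4 * 8 ^ M)) =
      E ^ (M + 1) * (640 * 5120 ^ M) := by
    rw [mul_pow, show (5120 : ℝ) = 10 * 8 * 8 * 8 by norm_num, mul_pow, mul_pow, mul_pow,
      pow_succ (10 : ℝ)]; ring
  have e4 : (2 ^ 20 * E) ^ (M + 1) = E ^ (M + 1) * (1048576 * 1048576 ^ M) := by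
    rw [mul_pow, show ((2 : ℝ) ^ 20) = 1048576 by norm_num, pow_succ (1048576 : ℝ)]; ring
  have g1 : (256 : ℝ) ^ M ≤ 1048576 ^ M := pow_le_pow_left₀ (by norm_num) (by norm_num) M
  have g2 : (4096 : ℝ) ^ M ≤ 1048576 ^ M := pow_le_pow_left₀ (by norm_num) (by norm_num) M
  have g3 : (5120 : ℝ) ^ M ≤ 1048576 ^ M := pow_le_pow_left₀ (by norm_num) (by norm_num) M
  have g4 : (0 : ℝ) ≤ 1048576 ^ M := by positivity
  rw [e1, e2, e3, e4, ← mul_add, ← mul_add]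
  refine mul_le_mul_of_nonneg_left ?_ (by positivity)
  linarith

theorem amp_and (hL : Liar cl dg K) {D : ℕ} {E : ℝ} (hE : 0 ≤ E) (hE1 : E ≤ 1) {a b c : R}
    (h1 : Sd cl dg K c0 D 2 a) (h2 : Sd cl dg K c0 D 2 (1 - a)) (h3 : Sd cl dg K c0 D 2 b)
    (h4 : Sd cl dg K c0 D 2 (1 - b)) (h5 : Sd cl dg K c0 D 2 c) (h6 : Sd cl dg K c0 D 2 (1 - c))
    (h7 : Sd cl dg K c0 (2 * D) E (a - a * a)) (h8 : Sd cl dg K c0 (2 * D) E (b - b * b))
    (h9 : Sd cl dg K c0 (2 * D) E (c - a * b)) (M : ℕ) :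
    Sd cl dg K c0 ((8 * M + 4) * D) ((2 ^ 20 * E) ^ (M + 1)) (wm M c - wm M a * wm M b) := by
  rw [wm_and]
  have h9' : Sd cl dg K c0 (2 * D) E (c - b * a) := by rwa [mul_comm b a]
  have p1 := Sd.pow hL (by positivity) (c1_sd hL hE h2 h3 h7 h9) (M + 1)
  have p2 := Sd.pow hL (by positivity) (c1_sd hL hE h4 h1 h8 h9') (M + 1)
  have p3 := Sd.pow hL (by positivity) (c3_sd hL hE h1 h3 h7 h8 h9) (M + 1)
  have q1 := Sd.mul hL (by positivity) p1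
    (Sd.mul hL (by positivity) (gm_sd hL h6 M) (gm_sd hL h1 M))
  have q2 := Sd.mul hL (by positivity) p2
    (Sd.mul hL (by positivity) (Sd.mul hL (by positivity) (gm_sd hL h6 M) (gm_sd hL h3 M))
      (wm_sd hL h1 h2 M))
  have q3 := Sd.mul hL (by positivity) p3
    (Sd.mul hL (by positivity) (Sd.mul hL (by positivity) (gm_sd hL h2 M) (gm_sd hL h4 M))
      (gm_sd hL h5 M))
  have q4 := Sd.sub hL (Sd.add hL q1 q2) q3
  refine Sd.mono hL q4 ?_ (nrm_fin M hE)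
  refine max_le (max_le ?_ ?_) ?_
  · calc (M + 1) * (3 * D) + (M * D + M * D) = (5 * M + 3) * D := by ring
      _ ≤ (8 * M + 4) * D := Nat.mul_le_mul_right D (by omega)
  · calc (M + 1) * (3 * D) + (M * D + M * D + (2 * M + 1) * D) = (7 * M + 4) * D := by ring
      _ ≤ (8 * M + 4) * D := Nat.mul_le_mul_right D (by omega)
  · calc (M + 1) * (4 * D) + (M * D + M * D + M * D) = (7 * M + 4) * D := by ring
      _ ≤ (8 * M + 4) * D := Nat.mul_le_mul_right D (by omega)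

theorem amp_or (hL : Liar cl dg K) {D : ℕ} {E : ℝ} (hE : 0 ≤ E) (hE1 : E ≤ 1) {a b c : R}
    (h1 : Sd cl dg K c0 D 2 a) (h2 : Sd cl dg K c0 D 2 (1 - a)) (h3 : Sd cl dg K c0 D 2 b)
    (h4 : Sd cl dg K c0 D 2 (1 - b)) (h5 : Sd cl dg K c0 D 2 c) (h6 : Sd cl dg K c0 D 2 (1 - c))
    (h7 : Sd cl dg K c0 (2 * D) E (a - a * a)) (h8 : Sd cl dg K c0 (2 * D) E (b - b * b))
    (h9 : Sd cl dg K c0 (2 * D) E (c - (a + b - a * b))) (M : ℕ) :
    Sd cl dg K c0 ((8 * M + 4) * D) ((2 ^ 20 * E) ^ (M + 1))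
      (wm M c - (wm M a + wm M b - wm M a * wm M b)) := by
  have k1 : Sd cl dg K c0 D 2 (1 - (1 - a)) := by rwa [sub_sub_cancel]
  have k3 : Sd cl dg K c0 D 2 (1 - (1 - b)) := by rwa [sub_sub_cancel]
  have k5 : Sd cl dg K c0 D 2 (1 - (1 - c)) := by rwa [sub_sub_cancel]
  have k7 : Sd cl dg K c0 (2 * D) E ((1 - a) - (1 - a) * (1 - a)) := by
    rwa [show (1 - a) - (1 - a) * (1 - a) = a - a * a by ring]
  have k8 : Sd cl dg K c0 (2 * D) E ((1 - b) - (1 - b) * (1 - b)) := by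
    rwa [show (1 - b) - (1 - b) * (1 - b) = b - b * b by ring]
  have k9 : Sd cl dg K c0 (2 * D) E ((1 - c) - (1 - a) * (1 - b)) := by
    have := h9.neg
    rwa [show -(c - (a + b - a * b)) = (1 - c) - (1 - a) * (1 - b) by ring] at this
  have k := (amp_and hL hE hE1 h2 k1 h4 k3 h6 k5 k7 k8 k9 M).neg
  rw [wm_compl, wm_compl, wm_compl] at k
  rwa [show -(1 - wm M c - (1 - wm M a) * (1 - wm M b)) =
    wm M c - (wm M a + wm M b - wm M a * wm M b) by ring] at k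

theorem amp_idem (hL : Liar cl dg K) {D : ℕ} {E : ℝ} (hE : 0 ≤ E) (hE1 : E ≤ 1) {a : R}
    (h1 : Sd cl dg K c0 D 2 a) (h2 : Sd cl dg K c0 D 2 (1 - a))
    (h7 : Sd cl dg K c0 (2 * D) E (a - a * a)) (M : ℕ) :
    Sd cl dg K c0 ((8 * M + 4) * D) ((2 ^ 20 * E) ^ (M + 1)) (wm M a * wm M a - wm M a) := by
  rw [wm_idem]
  have p1 := Sd.pow hL hE h7 (M + 1)
  have q1 := (Sd.mul hL (by positivity) p1
    (Sd.mul hL (by positivity) (gm_sd hL h2 M) (gm_sd hL h1 M))).neg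
  refine Sd.mono hL q1 ?_ ?_
  · calc (M + 1) * (2 * D) + (M * D + M * D) = (4 * M + 2) * D := by ring
      _ ≤ (8 * M + 4) * D := Nat.mul_le_mul_right D (by omega)
  · have e1 : E ^ (M + 1) * ((4 * 8 ^ M) * (4 * 8 ^ M)) = E ^ (M + 1) * (16 * 64 ^ M) := by
      rw [show (64 : ℝ) = 8 * 8 by norm_num, mul_pow]; ring
    have e4 : (2 ^ 20 * E) ^ (M + 1) = E ^ (M + 1) * (1048576 * 1048576 ^ M) := by
      rw [mul_pow, show ((2 : ℝ) ^ 20) = 1048576 by norm_num, pow_succ (1048576 : ℝ)]; ring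
    have g1 : (64 : ℝ) ^ M ≤ 1048576 ^ M := pow_le_pow_left₀ (by norm_num) (by norm_num) M
    have g4 : (0 : ℝ) ≤ 1048576 ^ M := by positivity
    rw [e1, e4]
    refine mul_le_mul_of_nonneg_left ?_ (by positivity)
    linarith

end Pool.H6.QR
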