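import Mathlib
import Pool.Agent.H6.QR.Sd

set_option autoImplicit false

/-!
# [H6 QR SEQ] Sequences of elements with geometric decay

`BdS .. R1 θ κ β p`: `p m` has degree `(κ + 2m) R1` and norm `n m` with `∑ n m θ^(-m) ≤ β`.
`cv p q`: convolution. `tr M p = ∑_{m ≤ M} p m`.
* `bd_cv`: `n'' m = ∑_{i+j=m} n i n' j`; `Sd.mul`, `Sd.sum`, `Sd.mono` (`(κ+2i) R1 + (κ'+2j) R1 = (κ+κ'+2m) R1`);
  `∑_{m<N} ∑_{i+j=m} (n i θ^(-i)) (n' j θ^(-j)) ≤ (∑_{i<N} ..)(∑_{j<N} ..)` (`Finset.sum_mul_sum`, the pairs `(i, j)` with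
  `i + j < N` are contained in `range N ×ˢ range N`; `Finset.sum_sigma'` / `Finset.sum_biUnion` with the antidiagonals).
* `bd_or`: sum of the sequences, `β + β' + β β'`.
* `tr_sd`: `Sd ((κ + 2M) R1) β (tr M p)`: `n m ≤ n m θ^(-m)` as `θ ≤ 1`.
* `tr_cv`: `tr M (cv p q) - tr M p * tr M q = - ∑_{i, j ≤ M, i + j > M} p i q j`; norm `≤ ∑ n i n' j ≤ θ^(M+1) β β'`
  (`n i n' j = θ^(i+j) (n i θ^(-i)) (n' j θ^(-j))`, `θ^(i+j) ≤ θ^(M+1)`), degree `(κ + κ' + 4M) R1`.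
-/

namespace Pool.H6.QR

open Finset Pool.Agent.H81.QG

variable {R H : Type} [CommRing R] [Algebra ℝ R] [NormedAddCommGroup H] [InnerProductSpace ℝ H]

/-- Bounded sequences. -/
def BdS (cl : R →ₗ[ℝ] H) (dg : ℕ → Submodule ℝ R) (K c0 R1 : ℕ) (θ : ℝ) (κ : ℕ) (β : ℝ)
    (p : ℕ → R) : Prop :=
  ∃ n : ℕ → ℝ, (∀ m, 0 ≤ n m) ∧ (∀ m, Sd cl dg K c0 ((κ + 2 * m) * R1) (n m) (p m)) ∧
    ∀ N, ∑ m ∈ range N, n m / θ ^ m ≤ β

/-- Convolution. -/
def cv (p q : ℕ → R) (m : ℕ) : R := ∑ ij ∈ antidiagonal m, p ij.1 * q ij.2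

/-- Truncated sum. -/
def tr (M : ℕ) (p : ℕ → R) : R := ∑ m ∈ range (M + 1), p m

variable {cl : R →ₗ[ℝ] H} {dg : ℕ → Submodule ℝ R} {K c0 R1 κ κ' : ℕ} {θ β β' : ℝ} {p q : ℕ → R}

private lemma sum_anti_le (N : ℕ) {f g : ℕ → ℝ} (hf : ∀ i, 0 ≤ f i) (hg : ∀ i, 0 ≤ g i) :
    ∑ m ∈ range N, ∑ ij ∈ antidiagonal m, f ij.1 * g ij.2
      ≤ (∑ i ∈ range N, f i) * ∑ j ∈ range N, g j := by
  classical
  have h1 : ∑ m ∈ range N, ∑ ij ∈ antidiagonal m, f ij.1 * g ij.2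
      = ∑ x ∈ (range N ×ˢ range N).filter (fun x => x.1 + x.2 < N), f x.1 * g x.2 := by
    rw [← Finset.sum_fiberwise_of_maps_to (s := (range N ×ˢ range N).filter
      (fun x => x.1 + x.2 < N)) (t := range N) (g := fun x => x.1 + x.2)]
    · refine Finset.sum_congr rfl (fun m hm => ?_)
      have hm' := Finset.mem_range.1 hm
      refine Finset.sum_congr ?_ (fun _ _ => rfl)
      ext x
      simp only [Finset.mem_filter, Finset.mem_product, Finset.mem_range]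
      constructor
      · intro h0
        have h : x.1 + x.2 = m := Finset.HasAntidiagonal.mem_antidiagonal.1 h0
        exact ⟨⟨⟨by omega, by omega⟩, by omega⟩, h⟩
      · intro h
        exact Finset.HasAntidiagonal.mem_antidiagonal.2 h.2
    · intro x hx
      exact Finset.mem_range.2 (Finset.mem_filter.1 hx).2
  rw [h1, Finset.sum_mul_sum, ← Finset.sum_product']
  exact Finset.sum_le_sum_of_subset_of_nonneg (Finset.filter_subset _ _)
    (fun x _ _ => mul_nonneg (hf _) (hg _))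

private lemma nonneg_of_bd {n : ℕ → ℝ} {θ β : ℝ} (h : ∀ N, ∑ m ∈ range N, n m / θ ^ m ≤ β) :
    0 ≤ β := by
  simpa using h 0

theorem bd_cv (hL : Liar cl dg K) (hθ : 0 < θ) (hp : BdS cl dg K c0 R1 θ κ β p)
    (hq : BdS cl dg K c0 R1 θ κ' β' q) : BdS cl dg K c0 R1 θ (κ + κ') (β * β') (cv p q) := by
  obtain ⟨n, hn0, hn1, hn2⟩ := hp
  obtain ⟨n', hn0', hn1', hn2'⟩ := hq
  refine ⟨fun m => ∑ ij ∈ antidiagonal m, n ij.1 * n' ij.2, fun m => ?_, fun m => ?_, fun N => ?_⟩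
  · exact Finset.sum_nonneg (fun ij _ => mul_nonneg (hn0 _) (hn0' _))
  · unfold cv
    refine Sd.sum hL _ (fun ij hij => ?_)
    have h := Sd.mul hL (hn0 ij.1) (hn1 ij.1) (hn1' ij.2)
    have hm : ij.1 + ij.2 = m := Finset.HasAntidiagonal.mem_antidiagonal.1 hij
    refine h.mono hL (le_of_eq ?_) le_rfl
    rw [← hm]
    ring
  · have h1 : ∀ m ∈ range N, (∑ ij ∈ antidiagonal m, n ij.1 * n' ij.2) / θ ^ m
        = ∑ ij ∈ antidiagonal m, (n ij.1 / θ ^ ij.1) * (n' ij.2 / θ ^ ij.2) := by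
      intro m _
      rw [Finset.sum_div]
      refine Finset.sum_congr rfl (fun ij hij => ?_)
      have hm : ij.1 + ij.2 = m := Finset.HasAntidiagonal.mem_antidiagonal.1 hij
      rw [← hm, pow_add]
      field_simp
    rw [Finset.sum_congr rfl h1]
    refine le_trans (sum_anti_le N (f := fun i => n i / θ ^ i) (g := fun i => n' i / θ ^ i)
      (fun i => div_nonneg (hn0 i) (pow_pos hθ i).le)
      (fun i => div_nonneg (hn0' i) (pow_pos hθ i).le)) ?_
    exact mul_le_mul (hn2 N) (hn2' N)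
      (Finset.sum_nonneg (fun i _ => div_nonneg (hn0' i) (pow_pos hθ i).le)) (nonneg_of_bd hn2)

theorem bd_or (hL : Liar cl dg K) (hθ : 0 < θ) (hp : BdS cl dg K c0 R1 θ κ β p)
    (hq : BdS cl dg K c0 R1 θ κ' β' q) :
    BdS cl dg K c0 R1 θ (κ + κ') (β + β' + β * β') (fun m => p m + q m - cv p q m) := by
  have hc := bd_cv hL hθ hp hq
  obtain ⟨n, hn0, hn1, hn2⟩ := hp
  obtain ⟨n', hn0', hn1', hn2'⟩ := hq
  obtain ⟨n2, hm0, hm1, hm2⟩ := hc
  refine ⟨fun m => n m + n' m + n2 m, fun m => ?_, fun m => ?_, fun N => ?_⟩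
  · exact add_nonneg (add_nonneg (hn0 m) (hn0' m)) (hm0 m)
  · have a := (hn1 m).mono hL (D' := (κ + κ' + 2 * m) * R1)
      (Nat.mul_le_mul_right _ (by omega)) le_rfl
    have b := (hn1' m).mono hL (D' := (κ + κ' + 2 * m) * R1)
      (Nat.mul_le_mul_right _ (by omega)) le_rfl
    have h := Sd.sub hL (Sd.add hL a b) (hm1 m)
    simpa using h
  · have h : ∑ m ∈ range N, (n m + n' m + n2 m) / θ ^ m
        = ∑ m ∈ range N, n m / θ ^ m + ∑ m ∈ range N, n' m / θ ^ m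
          + ∑ m ∈ range N, n2 m / θ ^ m := by
      rw [← Finset.sum_add_distrib, ← Finset.sum_add_distrib]
      exact Finset.sum_congr rfl (fun m _ => by rw [add_div, add_div])
    rw [h]
    exact add_le_add (add_le_add (hn2 N) (hn2' N)) (hm2 N)

theorem bd_mono (hp : BdS cl dg K c0 R1 θ κ β p) (h : β ≤ β') : BdS cl dg K c0 R1 θ κ β' p := by
  obtain ⟨n, hn0, hn1, hn2⟩ := hp
  exact ⟨n, hn0, hn1, fun N => (hn2 N).trans h⟩

theorem tr_sd (hL : Liar cl dg K) (hθ : 0 < θ) (hθ1 : θ ≤ 1) (hp : BdS cl dg K c0 R1 θ κ β p)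
    (M : ℕ) : Sd cl dg K c0 ((κ + 2 * M) * R1) β (tr M p) := by
  obtain ⟨n, hn0, hn1, hn2⟩ := hp
  unfold tr
  have h := Sd.sum (K := K) (c0 := c0) hL (range (M + 1)) (D := (κ + 2 * M) * R1) (n := n) (r := p)
    (fun m hm => (hn1 m).mono hL (Nat.mul_le_mul_right _ (by
      have := Finset.mem_range.1 hm; omega)) le_rfl)
  refine h.mono hL le_rfl ((Finset.sum_le_sum (fun m _ => ?_)).trans (hn2 (M + 1)))
  rw [le_div_iff₀ (pow_pos hθ m)]
  exact mul_le_of_le_one_right (hn0 m) (pow_le_one₀ hθ.le hθ1)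

private lemma tr_cv_eq (M : ℕ) (p q : ℕ → R) :
    tr M (cv p q) - tr M p * tr M q
      = -∑ x ∈ (range (M + 1) ×ˢ range (M + 1)).filter (fun x => ¬ x.1 + x.2 < M + 1),
          p x.1 * q x.2 := by
  classical
  have h1 : tr M (cv p q) = ∑ x ∈ (range (M + 1) ×ˢ range (M + 1)).filter
      (fun x => x.1 + x.2 < M + 1), p x.1 * q x.2 := by
    unfold tr cv
    rw [← Finset.sum_fiberwise_of_maps_to (s := (range (M + 1) ×ˢ range (M + 1)).filter
      (fun x => x.1 + x.2 < M + 1)) (t := range (M + 1)) (g := fun x => x.1 + x.2)]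
    · refine Finset.sum_congr rfl (fun m hm => ?_)
      have hm' := Finset.mem_range.1 hm
      refine Finset.sum_congr ?_ (fun _ _ => rfl)
      ext x
      simp only [Finset.mem_filter, Finset.mem_product, Finset.mem_range]
      constructor
      · intro h0
        have h : x.1 + x.2 = m := Finset.HasAntidiagonal.mem_antidiagonal.1 h0
        exact ⟨⟨⟨by omega, by omega⟩, by omega⟩, h⟩
      · intro h
        exact Finset.HasAntidiagonal.mem_antidiagonal.2 h.2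
    · intro x hx
      exact Finset.mem_range.2 (Finset.mem_filter.1 hx).2
  have h2 : tr M p * tr M q = ∑ x ∈ range (M + 1) ×ˢ range (M + 1), p x.1 * q x.2 := by
    unfold tr
    rw [Finset.sum_mul_sum, ← Finset.sum_product']
  have h3 := Finset.sum_filter_add_sum_filter_not (range (M + 1) ×ˢ range (M + 1))
    (fun x => x.1 + x.2 < M + 1) (fun x => p x.1 * q x.2)
  rw [h1, h2, ← h3]
  ring

theorem tr_cv (hL : Liar cl dg K) (hθ : 0 < θ) (hθ1 : θ ≤ 1) (hp : BdS cl dg K c0 R1 θ κ β p)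
    (hq : BdS cl dg K c0 R1 θ κ' β' q) (M : ℕ) :
    Sd cl dg K c0 ((κ + κ' + 4 * M) * R1) (θ ^ (M + 1) * (β * β'))
      (tr M (cv p q) - tr M p * tr M q) := by
  obtain ⟨n, hn0, hn1, hn2⟩ := hp
  obtain ⟨n', hn0', hn1', hn2'⟩ := hq
  rw [tr_cv_eq]
  refine Sd.neg ?_
  have h := Sd.sum (K := K) (c0 := c0) hL ((range (M + 1) ×ˢ range (M + 1)).filter
    (fun x => ¬ x.1 + x.2 < M + 1)) (D := (κ + κ' + 4 * M) * R1)
    (n := fun x => n x.1 * n' x.2) (r := fun x => p x.1 * q x.2) (fun x hx => by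
      have hx1 := Finset.mem_product.1 (Finset.mem_filter.1 hx).1
      have h1 := Finset.mem_range.1 hx1.1
      have h2 := Finset.mem_range.1 hx1.2
      refine (Sd.mul hL (hn0 x.1) (hn1 x.1) (hn1' x.2)).mono hL ?_ le_rfl
      rw [← Nat.add_mul]
      exact Nat.mul_le_mul_right _ (by omega))
  refine h.mono hL le_rfl ?_
  have h4 : ∀ x ∈ (range (M + 1) ×ˢ range (M + 1)).filter (fun x => ¬ x.1 + x.2 < M + 1),
      n x.1 * n' x.2 ≤ θ ^ (M + 1) * ((n x.1 / θ ^ x.1) * (n' x.2 / θ ^ x.2)) := by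
    intro x hx
    have hx2 := (Finset.mem_filter.1 hx).2
    have e : n x.1 * n' x.2 = θ ^ (x.1 + x.2) * ((n x.1 / θ ^ x.1) * (n' x.2 / θ ^ x.2)) := by
      rw [pow_add]
      field_simp
    rw [e]
    refine mul_le_mul_of_nonneg_right ?_ (mul_nonneg (div_nonneg (hn0 _) (pow_pos hθ _).le)
      (div_nonneg (hn0' _) (pow_pos hθ _).le))
    exact pow_le_pow_of_le_one hθ.le hθ1 (by omega)
  refine (Finset.sum_le_sum h4).trans ?_
  rw [← Finset.mul_sum]
  refine mul_le_mul_of_nonneg_left ?_ (pow_pos hθ _).le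
  refine (Finset.sum_le_sum_of_subset_of_nonneg (Finset.filter_subset _ _)
    (fun x _ _ => mul_nonneg (div_nonneg (hn0 _) (pow_pos hθ _).le)
      (div_nonneg (hn0' _) (pow_pos hθ _).le))).trans ?_
  rw [Finset.sum_product' (f := fun i j => (n i / θ ^ i) * (n' j / θ ^ j)), ← Finset.sum_mul_sum]
  exact mul_le_mul (hn2 _) (hn2' _)
    (Finset.sum_nonneg (fun i _ => div_nonneg (hn0' i) (pow_pos hθ i).le)) (nonneg_of_bd hn2)

end Pool.H6.QR
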