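import Mathlib
import Pool.Agent.H6.QR.Bas
import Pool.Agent.H6.QR.Seq
import Pool.Agent.H24.QL.Star

set_option autoImplicit false

/-!
# [H6 QR TRE] Robust composition of a tree from small pieces

`b`: the values of the small trees (pieces: `lv ≤ s0`). `sq s0 b F`: the sequence of the tree `F`: for a piece the terms
`tj j (b F)` of the amplification; for a large tree the product (for `o = true`) resp. `p + q - p q` (for `o = false`) of the
sequences of the two subtrees. `kp s0 F`: the number of pieces.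
* `kp_le`: induction; if `s0 < lv F`, `F = op o F1 F2`: `kp F = kp F1 + kp F2`, so `kp F * s0 ≤ (s0 + 2 dp F1 lv F1) + (s0 + 2 dp F2 lv F2)
  ≤ 2 s0 + 2 (dp F - 1) lv F ≤ s0 + 2 dp F lv F` (`s0 ≤ lv F ≤ 2 lv F`).
* `bd_piece`: `n j = 4 (4E)^j` (`tj_sd`), `∑ 4 (4E/θ)^j ≤ 4 ∑ 2^(-j) ≤ 8 - 1`: use `n j ≤ 4 (4E)^j` but for `j = 0` `n 0 = 2`
  (`tj 0 a = a`, norm 2): `2 + 4 (1/2 + 1/4 + ..) ≤ 6 ≤ 7`. So `β = 7 = 8^1 - 1`.
* `bd_sq`: induction on `F` (`dp`, no bound on `lv`): `β β' ≤ 8^(κ+κ') - 1`, `β + β' + β β' = (1+β)(1+β') - 1` with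
  `β = 8^κ - 1`, `β' = 8^κ' - 1` (`bd_mono`).
-/

namespace Pool.H6.QR

open Finset Pool.Agent.H81.QG Pool.Agent.H24.QL

variable {R H : Type} [CommRing R] [Algebra ℝ R] [NormedAddCommGroup H] [InnerProductSpace ℝ H]
variable {L : Type}

/-- The sequence of a tree. -/
def sq (s0 : ℕ) (b : Tr L → R) : Tr L → ℕ → R
  | .lit a => fun j => tj j (b (.lit a))
  | .cst c => fun j => tj j (b (.cst c))
  | .op o F G => fun m =>
      if (Tr.op o F G).lv ≤ s0 then tj m (b (.op o F G)) else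
      if o = true then cv (sq s0 b F) (sq s0 b G) m
      else sq s0 b F m + sq s0 b G m - cv (sq s0 b F) (sq s0 b G) m

/-- The number of pieces. -/
def kp (s0 : ℕ) : Tr L → ℕ
  | .lit _ => 1
  | .cst _ => 1
  | .op o F G => if (Tr.op o F G).lv ≤ s0 then 1 else kp s0 F + kp s0 G

/-- The hypotheses on the values of the pieces. -/
structure Bs (cl : R →ₗ[ℝ] H) (dg : ℕ → Submodule ℝ R) (K c0 R1 : ℕ) (E : ℝ) (d s0 : ℕ)
    (ng : L → L) (b : Tr L → R) : Prop where
  bd : ∀ F, F.dp ≤ d → F.lv ≤ s0 → Sd cl dg K c0 R1 2 (b F) ∧ Sd cl dg K c0 R1 2 (1 - b F)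
  idem : ∀ F, F.dp ≤ d → F.lv ≤ s0 → Sd cl dg K c0 (2 * R1) E (b F - b F * b F)
  hom : ∀ o F G, (Tr.op o F G).dp ≤ d → (Tr.op o F G).lv ≤ s0 →
    Sd cl dg K c0 (2 * R1) E (b (.op o F G) - opv o (b F) (b G))
  lit : ∀ a, b (.lit a) * b (.lit a) = b (.lit a)
  neg : ∀ a, b (.lit (ng a)) = 1 - b (.lit a)
  cf : b (.cst false) = 0
  ct : b (.cst true) = 1

theorem kp_pos (s0 : ℕ) (F : Tr L) : 1 ≤ kp s0 F := by
  induction F with
  | lit a => simp only [kp]; exact le_rfl
  | cst c => simp only [kp]; exact le_rfl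
  | op o F G ihF ihG =>
    simp only [kp]
    split_ifs with h
    · exact le_rfl
    · omega

theorem kp_le (s0 : ℕ) (F : Tr L) (hs : 1 ≤ s0) : kp s0 F * s0 ≤ s0 + 2 * F.dp * F.lv := by
  induction F with
  | lit a => simp only [kp, one_mul]; exact Nat.le_add_right _ _
  | cst c => simp only [kp, one_mul]; exact Nat.le_add_right _ _
  | op o F G ihF ihG =>
    simp only [kp]
    split_ifs with h
    · rw [one_mul]; exact Nat.le_add_right _ _
    · have h' : s0 < F.lv + G.lv := Nat.lt_of_not_le h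
      have e1 : (Tr.op o F G).dp = max F.dp G.dp + 1 := rfl
      have e2 : (Tr.op o F G).lv = F.lv + G.lv := rfl
      rw [e1, e2, Nat.add_mul]
      have g1 : 2 * F.dp * F.lv ≤ 2 * max F.dp G.dp * F.lv :=
        Nat.mul_le_mul_right _ (Nat.mul_le_mul_left _ (le_max_left _ _))
      have g2 : 2 * G.dp * G.lv ≤ 2 * max F.dp G.dp * G.lv :=
        Nat.mul_le_mul_right _ (Nat.mul_le_mul_left _ (le_max_right _ _))
      have g3 : 2 * (max F.dp G.dp + 1) * (F.lv + G.lv) =
          2 * max F.dp G.dp * F.lv + 2 * max F.dp G.dp * G.lv + 2 * (F.lv + G.lv) := by ring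
      omega

variable {cl : R →ₗ[ℝ] H} {dg : ℕ → Submodule ℝ R} {K c0 R1 : ℕ} {E θ : ℝ} {d s0 : ℕ}
  {ng : L → L} {b : Tr L → R}

theorem sq_piece (s0 : ℕ) (b : Tr L → R) (F : Tr L) (hs : 1 ≤ s0) (h : F.lv ≤ s0) :
    sq s0 b F = fun j => tj j (b F) := by
  cases F with
  | lit a => rfl
  | cst c => rfl
  | op o F G =>
    funext m
    simp only [sq]
    rw [if_pos h]

theorem bd_piece (hL : Liar cl dg K) (hb : Bs cl dg K c0 R1 E d s0 ng b) (hE : 0 ≤ E)
    (hθ : 0 < θ) (hEθ : 8 * E ≤ θ) {F : Tr L} (h1 : F.dp ≤ d) (h2 : F.lv ≤ s0) :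
    BdS cl dg K c0 R1 θ 1 7 (fun j => tj j (b F)) := by
  obtain ⟨ha, ha'⟩ := hb.bd F h1 h2
  have hi := hb.idem F h1 h2
  refine ⟨fun j => if j = 0 then 2 else 4 * (4 * E) ^ j, fun m => ?_, fun m => ?_, fun N => ?_⟩
  · show (0 : ℝ) ≤ if m = 0 then 2 else 4 * (4 * E) ^ m
    split_ifs with hm
    · norm_num
    · positivity
  · show Sd cl dg K c0 ((1 + 2 * m) * R1) (if m = 0 then 2 else 4 * (4 * E) ^ m) (tj m (b F))
    split_ifs with hm
    · subst hm
      have e : tj 0 (b F) = b F := by unfold tj; rw [if_pos rfl]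
      rw [e]
      exact Sd.mono hL ha (by simp) le_rfl
    · exact tj_sd hL hE ha ha' hi m
  · have key : ∀ n : ℕ, ∑ m ∈ range (n + 1), (if m = 0 then (2 : ℝ) else 4 * (4 * E) ^ m) / θ ^ m
        ≤ 6 - 4 * (1 / 2) ^ n := by
      intro n
      induction n with
      | zero => simp; norm_num
      | succ n ih =>
        rw [Finset.sum_range_succ, if_neg (Nat.succ_ne_zero n)]
        have h3 : 4 * (4 * E) ^ (n + 1) / θ ^ (n + 1) ≤ 4 * (1 / 2) ^ (n + 1) := by
          rw [mul_div_assoc, ← div_pow]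
          refine mul_le_mul_of_nonneg_left ?_ (by norm_num)
          refine pow_le_pow_left₀ (by positivity) ?_ _
          rw [div_le_div_iff₀ hθ (by norm_num)]
          linarith
        have h4 : (1 / 2 : ℝ) ^ n = 2 * (1 / 2) ^ (n + 1) := by rw [pow_succ]; ring
        rw [h4] at ih
        linarith
    cases N with
    | zero => simp
    | succ n =>
      refine (key n).trans ?_
      have h5 : (0 : ℝ) ≤ (1 / 2) ^ n := by positivity
      linarith

theorem bd_sq (hL : Liar cl dg K) (hb : Bs cl dg K c0 R1 E d s0 ng b) (hs : 1 ≤ s0) (hE : 0 ≤ E)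
    (hθ : 0 < θ) (hEθ : 8 * E ≤ θ) (F : Tr L) (h1 : F.dp ≤ d) :
    BdS cl dg K c0 R1 θ (kp s0 F) (8 ^ kp s0 F - 1) (sq s0 b F) := by
  have piece : ∀ F : Tr L, F.dp ≤ d → F.lv ≤ s0 → kp s0 F = 1 →
      BdS cl dg K c0 R1 θ (kp s0 F) (8 ^ kp s0 F - 1) (sq s0 b F) := by
    intro F g1 g2 g3
    rw [g3, sq_piece s0 b F hs g2]
    exact bd_mono (bd_piece hL hb hE hθ hEθ g1 g2) (by norm_num)
  induction F with
  | lit a => exact piece _ h1 hs rfl
  | cst c => exact piece _ h1 hs rfl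
  | op o F G ihF ihG =>
    have hF : F.dp ≤ d := le_trans (le_trans (le_max_left _ _) (Nat.le_succ _)) h1
    have hG : G.dp ≤ d := le_trans (le_trans (le_max_right _ _) (Nat.le_succ _)) h1
    by_cases h : (Tr.op o F G).lv ≤ s0
    · refine piece _ h1 h ?_
      simp only [kp]
      rw [if_pos h]
    · have e1 : kp s0 (Tr.op o F G) = kp s0 F + kp s0 G := by
        simp only [kp]
        rw [if_neg h]
      have p1 := ihF hF
      have p2 := ihG hG
      have x1 : (1 : ℝ) ≤ 8 ^ kp s0 F := one_le_pow₀ (by norm_num)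
      have x2 : (1 : ℝ) ≤ 8 ^ kp s0 G := one_le_pow₀ (by norm_num)
      rw [e1, pow_add]
      cases o with
      | true =>
        have e2 : sq s0 b (Tr.op true F G) = cv (sq s0 b F) (sq s0 b G) := by
          funext m
          simp only [sq]
          rw [if_neg h, if_pos trivial]
        rw [e2]
        refine bd_mono (bd_cv hL hθ p1 p2) ?_
        nlinarith
      | false =>
        have e2 : sq s0 b (Tr.op false F G) =
            fun m => sq s0 b F m + sq s0 b G m - cv (sq s0 b F) (sq s0 b G) m := by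
          funext m
          simp only [sq]
          rw [if_neg h, if_neg (by decide)]
        rw [e2]
        refine bd_mono (bd_or hL hθ p1 p2) (le_of_eq ?_)
        ring

end Pool.H6.QR
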