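import Mathlib
import Pool.Agent.H6.QR.Tre
import Pool.Agent.H24.QL.Vi

set_option autoImplicit false

/-!
# [H6 QR BSX] The values of the pieces: exact on literals and constants

`b (lit (i, true)) = yy i`, `b (lit (i, false)) = 1 - yy i`, `b (cst true) = 1`, `b (cst false) = 0`, `b (op o F G) = T0 (op o F G)`.
`R1 = R0 + 1`, `c0 = 8 (R0 + 1)`. For an atom `A` the difference `T0 A - b A` is `2 E`-small on every degree `e` with
`e + 8 (R0 + 1) ≤ K` (`hvar`, `HT.ng` for `(i, true)`, `HT.c0`, `HT.c1`); `r ∈ SmR .. 0` means `Sml e E r` for these `e`.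
* `idem`: exact `0` for atoms (`yy i * yy i = yy i`), `HT.idem` for `op`.
* `bd`: `vbd` (`hv : b F ∈ dg (R0 + 1)`, idempotency with `E ≤ 1`): norm `≤ 1 + E ≤ 2` on the degree `e`, `e + (R0+1) + 8 (R0+1) ≤ K`.
* `hom`: `HT.hom` and `T0 F T0 G - b F b G = T0 G (T0 F - b F) + b F (T0 G - b G)`: `2 · 2E + 2 · 2E` (`Sml.mulb`/`mula` on the
  degree `e`, `e + 2 (R0+1) + 8 (R0+1) ≤ K`); `E + 8 E ≤ 16 E`, for `o = false` `E + 2E + 2E + 8E ≤ 16 E`.
* `lit`, `neg`, `cf`, `ct`: by cases (`ngl (i, c) = (i, !c)`).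
-/

namespace Pool.H6.QR

open Finset Pool.Agent.H81.QG Pool.Agent.H24.QL Pool.H6.QL

variable {H : Type} [NormedAddCommGroup H] [InnerProductSpace ℝ H] {n K : ℕ}
  {Gam : Set (List (Fin n × Bool))} {X : Option (Fin n) → Op H} {L : ℕ → Submodule ℝ H}
  {cl : Rn n →ₗ[ℝ] H} {dg : ℕ → Submodule ℝ (Rn n)}

/-- The values of the pieces. -/
private def bb (T0 : Tr (Fin n × Bool) → Rn n) : Tr (Fin n × Bool) → Rn n
  | .lit a => if a.2 = true then yy a.1 else 1 - yy a.1
  | .cst c => if c = true then 1 else 0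
  | .op o F G => T0 (.op o F G)

private theorem yy_idem (i : Fin n) : (yy i : Rn n) * yy i = yy i := by
  funext a
  show (if a i = true then (1 : ℝ) else 0) * (if a i = true then (1 : ℝ) else 0) = if a i = true then (1 : ℝ) else 0
  split_ifs <;> norm_num

private theorem bb_lit (T0 : Tr (Fin n × Bool) → Rn n) (a : Fin n × Bool) :
    bb T0 (.lit a) * bb T0 (.lit a) = bb T0 (.lit a) := by
  obtain ⟨i, c⟩ := a
  have h := yy_idem i
  cases c
  · show (1 - yy i) * (1 - yy i) = (1 - yy i : Rn n)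
    calc (1 - yy i) * (1 - yy i) = (1 - 2 * yy i + yy i * yy i : Rn n) := by ring
      _ = 1 - yy i := by rw [h]; ring
  · exact h

private theorem bb_deg (hL : Liar cl dg K) (hy : ∀ i : Fin n, yy i ∈ dg 1) {R0 : ℕ}
    {T0 : Tr (Fin n × Bool) → Rn n} (hdeg : ∀ F, T0 F ∈ dg R0) (F : Tr (Fin n × Bool)) :
    bb T0 F ∈ dg (R0 + 1) := by
  have h1 : (1 : Rn n) ∈ dg (R0 + 1) := hL.mono (Nat.zero_le _) hL.one
  cases F with
  | lit a =>
    obtain ⟨i, c⟩ := a
    have h2 : yy i ∈ dg (R0 + 1) := hL.mono (by omega) (hy i)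
    cases c
    · exact sub_mem h1 h2
    · exact h2
  | cst c =>
    cases c
    · exact zero_mem _
    · exact h1
  | op o F G => exact hL.mono (Nat.le_succ _) (hdeg _)

private theorem sm0 {R0 : ℕ} {E : ℝ} {r : Rn n} (h : r ∈ SmR cl dg K R0 E 0) (e : ℕ)
    (he : e + 8 * (R0 + 1) ≤ K) : Sml cl dg e E r := by
  have h1 := h e (by simpa using he)
  simpa using h1

private theorem bb_diff {R0 d s0 : ℕ} {E : ℝ}
    (hE : 0 ≤ E) {T0 : Tr (Fin n × Bool) → Rn n}
    (hT : HT (SmR cl dg K R0 E) ngl d s0 T0)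
    (hvar : ∀ (i : Fin n) (e : ℕ), e + 8 * (R0 + 1) ≤ K →
      Sml cl dg e E (T0 (.lit (i, true)) - yy i)) (F : Tr (Fin n × Bool)) (e : ℕ)
    (he : e + 8 * (R0 + 1) ≤ K) : Sml cl dg e (2 * E) (T0 F - bb T0 F) := by
  have hm : ∀ (r : Rn n), Sml cl dg e E r → Sml cl dg e (2 * E) r := fun r hr p hp =>
    (hr p hp).trans (mul_le_mul_of_nonneg_right (by linarith) (norm_nonneg _))
  cases F with
  | lit a =>
    obtain ⟨i, c⟩ := a
    cases c
    · have h1 := sm0 (hT.ng (i, true)) e he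
      have h2 := (h1.sub (hvar i e he))
      have e1 : (T0 (.lit (ngl (i, true))) - (1 - T0 (.lit (i, true)))) - (T0 (.lit (i, true)) - yy i) =
          T0 (.lit (i, false)) - bb T0 (.lit (i, false)) := by
        show (T0 (.lit (i, false)) - (1 - T0 (.lit (i, true)))) - (T0 (.lit (i, true)) - yy i) =
          T0 (.lit (i, false)) - (1 - yy i)
        ring
      rw [e1] at h2
      rw [two_mul]
      exact h2
    · exact hm _ (hvar i e he)
  | cst c =>
    cases c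
    · have h1 := sm0 hT.c0 e he
      refine hm _ ?_
      show Sml cl dg e E (T0 (.cst false) - 0)
      rw [sub_zero]
      exact h1
    · exact hm _ (sm0 hT.c1 e he)
  | op o F G =>
    show Sml cl dg e (2 * E) (T0 (.op o F G) - T0 (.op o F G))
    rw [sub_self]
    exact Sml.zero (by linarith)

private theorem bb_idem {R0 d s0 : ℕ} {E : ℝ}
    (hE : 0 ≤ E) {T0 : Tr (Fin n × Bool) → Rn n}
    (hT : HT (SmR cl dg K R0 E) ngl d s0 T0) (F : Tr (Fin n × Bool)) (h1 : F.dp ≤ d)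
    (h2 : F.lv ≤ s0) (e : ℕ)
    (he : e + 8 * (R0 + 1) ≤ K) : Sml cl dg e E (bb T0 F * bb T0 F - bb T0 F) := by
  cases F with
  | lit a =>
    rw [bb_lit, sub_self]
    exact Sml.zero hE
  | cst c =>
    have h3 : bb T0 (.cst c) * bb T0 (.cst c) - bb T0 (.cst c) = 0 := by
      cases c
      · show (0 : Rn n) * 0 - 0 = 0
        ring
      · show (1 : Rn n) * 1 - 1 = 0
        ring
    rw [h3]
    exact Sml.zero hE
  | op o F G => exact sm0 (hT.idem _ h1 h2) e he

private theorem opv_sub (o : Bool) (x y x' y' : Rn n) :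
    opv o x y - opv o x' y' = (if o = true then 0 else (x - x') + (y - y')) +
      (if o = true then (y * (x - x') + x' * (y - y')) else -(y * (x - x') + x' * (y - y'))) := by
  cases o
  · show (x + y - x * y) - (x' + y' - x' * y') = ((x - x') + (y - y')) + -(y * (x - x') + x' * (y - y'))
    ring
  · show x * y - x' * y' = 0 + (y * (x - x') + x' * (y - y'))
    ring

theorem bs_of_ht (hL : Liar cl dg K) (hy : ∀ i : Fin n, yy i ∈ dg 1) {R0 d s0 : ℕ} {E : ℝ}
    (hE : 0 ≤ E) (hE1 : E ≤ 1) (hs0 : 1 ≤ s0) {T0 : Tr (Fin n × Bool) → Rn n}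
    (hT : HT (SmR cl dg K R0 E) ngl d s0 T0) (hdeg : ∀ F, T0 F ∈ dg R0)
    (hvar : ∀ (i : Fin n) (e : ℕ), e + 8 * (R0 + 1) ≤ K →
      Sml cl dg e E (T0 (.lit (i, true)) - yy i)) :
    ∃ b : Tr (Fin n × Bool) → Rn n,
      Bs cl dg K (8 * (R0 + 1)) (R0 + 1) (16 * E) d s0 ngl b ∧ ∀ i, b (.lit (i, true)) = yy i := by
  have hdegb := bb_deg hL hy hdeg
  have hone : (1 : Rn n) ∈ dg (R0 + 1) := hL.mono (Nat.zero_le _) hL.one
  have hid := bb_idem hE hT
  have hdf := bb_diff hE hT hvar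
  have hmm : ∀ (r : Rn n) (e : ℕ) (x y : ℝ), x ≤ y → Sml cl dg e x r → Sml cl dg e y r :=
    fun r e x y hxy hr p hp => (hr p hp).trans (mul_le_mul_of_nonneg_right hxy (norm_nonneg _))
  have hbd : ∀ F : Tr (Fin n × Bool), F.dp ≤ d → F.lv ≤ s0 → ∀ e, e + 8 * (R0 + 1) ≤ K →
      Sml cl dg e 2 (bb T0 F) ∧ Sml cl dg e 2 (1 - bb T0 F) := by
    intro F h1 h2 e he
    have h3 := vbd hL (hdegb F) hE (hid F h1 h2 e he) (by omega)
    exact ⟨hmm _ _ _ _ (by linarith) h3.1, hmm _ _ _ _ (by linarith) h3.2⟩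
  have hbT : ∀ F : Tr (Fin n × Bool), F.dp ≤ d → F.lv ≤ s0 → ∀ e, e + 8 * (R0 + 1) ≤ K →
      Sml cl dg e 2 (T0 F) := by
    intro F h1 h2 e he
    have h3 := vbd hL (hdeg F) hE (sm0 (hT.idem F h1 h2) e he) (by omega)
    exact hmm _ _ _ _ (by linarith) h3.1
  refine ⟨bb T0, ⟨?_, ?_, ?_, ?_, ?_, ?_, ?_⟩, fun i => rfl⟩
  · -- bd
    intro F h1 h2
    refine ⟨⟨hdegb F, fun e he => (hbd F h1 h2 e (by omega)).1⟩,
      ⟨sub_mem hone (hdegb F), fun e he => (hbd F h1 h2 e (by omega)).2⟩⟩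
  · -- idem
    intro F h1 h2
    refine ⟨sub_mem (hL.mono (by omega) (hdegb F)) ?_, fun e he => ?_⟩
    · rw [two_mul]
      exact hL.mul _ _ _ _ (hdegb F) (hdegb F)
    · have h3 := (hid F h1 h2 e (by omega)).neg
      rw [neg_sub] at h3
      exact hmm _ _ _ _ (by linarith) h3
  · -- hom
    intro o F G h1 h2
    have hF1 : F.dp ≤ d := by
      simp only [Tr.dp] at h1
      omega
    have hF2 : F.lv ≤ s0 := by
      simp only [Tr.lv] at h2
      omega
    have hG1 : G.dp ≤ d := by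
      simp only [Tr.dp] at h1
      omega
    have hG2 : G.lv ≤ s0 := by
      simp only [Tr.lv] at h2
      omega
    refine ⟨?_, fun e he => ?_⟩
    · have hm1 : bb T0 F * bb T0 G ∈ dg (2 * (R0 + 1)) := by
        rw [two_mul]
        exact hL.mul _ _ _ _ (hdegb F) (hdegb G)
      have hm2 : bb T0 (.op o F G) ∈ dg (2 * (R0 + 1)) := hL.mono (by omega) (hdegb _)
      have hm3 : bb T0 F ∈ dg (2 * (R0 + 1)) := hL.mono (by omega) (hdegb _)
      have hm4 : bb T0 G ∈ dg (2 * (R0 + 1)) := hL.mono (by omega) (hdegb _)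
      cases o
      · exact sub_mem hm2 (sub_mem (add_mem hm3 hm4) hm1)
      · exact sub_mem hm2 hm1
    · have k0 : Sml cl dg e E (T0 (.op o F G) - opv o (T0 F) (T0 G)) :=
        sm0 (hT.hom o F G h1 h2) e (by omega)
      have kF := hdf F (e + (R0 + 1)) (by omega)
      have kG := hdf G (e + (R0 + 1)) (by omega)
      have kF0 := hdf F e (by omega)
      have kG0 := hdf G e (by omega)
      have m1 : Sml cl dg e (2 * E * 2) (T0 G * (T0 F - bb T0 F)) :=
        Sml.mulb hL kF (by linarith) (hdeg G) (hbT G hG1 hG2 e (by omega)) (by omega)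
      have m2 : Sml cl dg e (2 * E * 2) (bb T0 F * (T0 G - bb T0 G)) :=
        Sml.mulb hL kG (by linarith) (hdegb F) (hbd F hF1 hF2 e (by omega)).1 (by omega)
      have m3 := m1.add m2
      have e1 : bb T0 (.op o F G) - opv o (bb T0 F) (bb T0 G) =
          (T0 (.op o F G) - opv o (T0 F) (T0 G)) + (opv o (T0 F) (T0 G) - opv o (bb T0 F) (bb T0 G)) := by
        show T0 (.op o F G) - opv o (bb T0 F) (bb T0 G) = _
        ring
      rw [e1, opv_sub]
      cases o
      · have m4 := k0.add ((kF0.add kG0).add m3.neg)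
        exact hmm _ _ _ _ (by linarith) m4
      · have m4 := k0.add ((Sml.zero (le_refl (0 : ℝ))).add m3)
        exact hmm _ _ _ _ (by linarith) m4
  · exact bb_lit T0
  · rintro ⟨i, c⟩
    cases c
    · show yy i = (1 - (1 - yy i) : Rn n)
      ring
    · rfl
  · rfl
  · rfl

/-- The pieces from `BHom`. -/
theorem bs_of_bhom (h : RW n K Gam X L cl dg) {R d S : ℕ} {E : ℝ} (hE : 0 ≤ E) (hE1 : 8 * E ≤ 1)
    {T : Bf (Option (Fin n)) → Op H}
    (hB : BHom X L K R E (fun F => F.sz ≤ S ∧ F.dp ≤ d) T) (hS : 1 ≤ S) :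
    ∃ b : Tr (Fin n × Bool) → Rn n,
      Bs cl dg K (8 * (R + 1)) (R + 1) (128 * E) d S ngl b ∧ ∀ i, b (.lit (i, true)) = yy i := by
  obtain ⟨T', hT', hdeg, hv⟩ := ht_of_bhom h hE (by linarith) hB (S := S) (d := d) hS
    (fun F h1 h2 => ⟨h1, h2⟩)
  have e1 : 128 * E = 16 * (8 * E) := by ring
  rw [e1]
  refine bs_of_ht h.liar h.ymem (by linarith) hE1 hS hT' hdeg ?_
  intro i e he p hp
  have h1 := hv i e (by omega) p hp
  have h2 := h.yval i e (by omega) p hp
  rw [sub_mul, map_sub, h1, h2]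
  have h3 : ‖T (.var (some i)) (cl p) - (1 / 2 : ℝ) • (cl p + X (some i) (cl p))‖ ≤ E * ‖cl p‖ :=
    (T (.var (some i)) - (1 / 2 : ℝ) • (1 + X (some i))).le_of_opNorm_le (hB.var (some i)) (cl p)
  exact h3.trans (mul_le_mul_of_nonneg_right (by linarith) (norm_nonneg _))

end Pool.H6.QR
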