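import Mathlib
import Pool.Agent.H6.QR.Tre

set_option autoImplicit false

/-!
# [H6 QR TRH] The robust composition is a homomorphism

* `hom_big`: `s0 < lv (op o F G)`: `tr M (sq (op o F G)) - opv o (tr M (sq F)) (tr M (sq G)) = ± (tr M (cv ..) - tr M .. * tr M ..)`:
  `tr_cv`; `β β' ≤ 8^(κ + κ')`. (`tr` of a sum of sequences: `Finset.sum_add_distrib`, `sum_sub_distrib`.)
* `hom_small`: `lv (op o F G) ≤ s0`: then `F, G` are pieces and `tr M (sq _) = wm M (b _)`: `amp_and`, `amp_or`.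
-/

namespace Pool.H6.QR

open Finset Pool.Agent.H81.QG Pool.Agent.H24.QL

variable {R H : Type} [CommRing R] [Algebra ℝ R] [NormedAddCommGroup H] [InnerProductSpace ℝ H]
variable {L : Type}
variable {cl : R →ₗ[ℝ] H} {dg : ℕ → Submodule ℝ R} {K c0 R1 : ℕ} {E θ : ℝ} {d s0 : ℕ}
  {ng : L → L} {b : Tr L → R}

theorem hom_big (hL : Liar cl dg K) (hb : Bs cl dg K c0 R1 E d s0 ng b) (hs : 1 ≤ s0)
    (hE : 0 ≤ E) (hθ : 0 < θ) (hθ1 : θ ≤ 1) (hEθ : 8 * E ≤ θ) (M : ℕ) (o : Bool) (F G : Tr L)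
    (h1 : (Tr.op o F G).dp ≤ d) (h2 : s0 < (Tr.op o F G).lv) :
    Sd cl dg K c0 ((kp s0 (.op o F G) + 4 * M) * R1) (θ ^ (M + 1) * 8 ^ kp s0 (.op o F G))
      (tr M (sq s0 b (.op o F G)) - opv o (tr M (sq s0 b F)) (tr M (sq s0 b G))) := by
  have hn : ¬ (Tr.op o F G).lv ≤ s0 := Nat.not_le_of_lt h2
  have hF : F.dp ≤ d := le_trans (le_trans (le_max_left _ _) (Nat.le_succ _)) h1
  have hG : G.dp ≤ d := le_trans (le_trans (le_max_right _ _) (Nat.le_succ _)) h1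
  have e1 : kp s0 (Tr.op o F G) = kp s0 F + kp s0 G := by
    simp only [kp]
    rw [if_neg hn]
  have p1 := bd_sq hL hb hs hE hθ hEθ F hF
  have p2 := bd_sq hL hb hs hE hθ hEθ G hG
  have x1 : (1 : ℝ) ≤ 8 ^ kp s0 F := one_le_pow₀ (by norm_num)
  have x2 : (1 : ℝ) ≤ 8 ^ kp s0 G := one_le_pow₀ (by norm_num)
  have p3 := tr_cv hL hθ hθ1 p1 p2 M
  have p4 : Sd cl dg K c0 ((kp s0 F + kp s0 G + 4 * M) * R1) (θ ^ (M + 1) * 8 ^ (kp s0 F + kp s0 G))
      (tr M (cv (sq s0 b F) (sq s0 b G)) - tr M (sq s0 b F) * tr M (sq s0 b G)) := by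
    refine Sd.mono hL p3 le_rfl (mul_le_mul_of_nonneg_left ?_ (pow_pos hθ _).le)
    rw [pow_add]
    nlinarith
  rw [e1]
  cases o with
  | true =>
    have e2 : sq s0 b (Tr.op true F G) = cv (sq s0 b F) (sq s0 b G) := by
      funext m
      simp only [sq]
      rw [if_neg hn, if_pos trivial]
    have e3 : opv true (tr M (sq s0 b F)) (tr M (sq s0 b G)) =
        tr M (sq s0 b F) * tr M (sq s0 b G) := by unfold opv; rw [if_pos rfl]
    rw [e2, e3]
    exact p4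
  | false =>
    have e2 : sq s0 b (Tr.op false F G) =
        fun m => sq s0 b F m + sq s0 b G m - cv (sq s0 b F) (sq s0 b G) m := by
      funext m
      simp only [sq]
      rw [if_neg hn, if_neg (by decide)]
    have e3 : opv false (tr M (sq s0 b F)) (tr M (sq s0 b G)) =
        tr M (sq s0 b F) + tr M (sq s0 b G) - tr M (sq s0 b F) * tr M (sq s0 b G) := by
      unfold opv; rw [if_neg (by decide)]
    have e4 : tr M (fun m => sq s0 b F m + sq s0 b G m - cv (sq s0 b F) (sq s0 b G) m) =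
        tr M (sq s0 b F) + tr M (sq s0 b G) - tr M (cv (sq s0 b F) (sq s0 b G)) := by
      unfold tr
      rw [Finset.sum_sub_distrib, Finset.sum_add_distrib]
    rw [e2, e3, e4]
    have p5 := p4.neg
    rwa [show -(tr M (cv (sq s0 b F) (sq s0 b G)) - tr M (sq s0 b F) * tr M (sq s0 b G)) =
      tr M (sq s0 b F) + tr M (sq s0 b G) - tr M (cv (sq s0 b F) (sq s0 b G)) -
        (tr M (sq s0 b F) + tr M (sq s0 b G) - tr M (sq s0 b F) * tr M (sq s0 b G)) by ring] at p5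

theorem hom_small (hL : Liar cl dg K) (hb : Bs cl dg K c0 R1 E d s0 ng b) (hs : 1 ≤ s0)
    (hE : 0 ≤ E) (hE1 : E ≤ 1) (M : ℕ) (o : Bool) (F G : Tr L)
    (h1 : (Tr.op o F G).dp ≤ d) (h2 : (Tr.op o F G).lv ≤ s0) :
    Sd cl dg K c0 ((8 * M + 4) * R1) ((2 ^ 20 * E) ^ (M + 1))
      (tr M (sq s0 b (.op o F G)) - opv o (tr M (sq s0 b F)) (tr M (sq s0 b G))) := by
  have hF : F.dp ≤ d := le_trans (le_trans (le_max_left _ _) (Nat.le_succ _)) h1
  have hG : G.dp ≤ d := le_trans (le_trans (le_max_right _ _) (Nat.le_succ _)) h1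
  have lF : F.lv ≤ s0 := le_trans (Nat.le_add_right _ _) h2
  have lG : G.lv ≤ s0 := le_trans (Nat.le_add_left _ _) h2
  rw [sq_piece s0 b _ hs h2, sq_piece s0 b F hs lF, sq_piece s0 b G hs lG]
  have e0 : ∀ T : Tr L, tr M (fun j => tj j (b T)) = wm M (b T) := fun T => rfl
  rw [e0, e0, e0]
  obtain ⟨a1, a2⟩ := hb.bd F hF lF
  obtain ⟨b1, b2⟩ := hb.bd G hG lG
  obtain ⟨c1, c2⟩ := hb.bd _ h1 h2
  have a3 := hb.idem F hF lF
  have b3 := hb.idem G hG lG
  have c3 := hb.hom o F G h1 h2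
  cases o with
  | true =>
    have e3 : ∀ x y : R, opv true x y = x * y := fun x y => by unfold opv; rw [if_pos rfl]
    rw [e3] at c3 ⊢
    exact amp_and hL hE hE1 a1 a2 b1 b2 c1 c2 a3 b3 c3 M
  | false =>
    have e3 : ∀ x y : R, opv false x y = x + y - x * y := fun x y => by
      unfold opv; rw [if_neg (by decide)]
    rw [e3] at c3 ⊢
    exact amp_or hL hE hE1 a1 a2 b1 b2 c1 c2 a3 b3 c3 M

end Pool.H6.QR
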