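import Mathlib
import Pool.Agent.H6.QR.TreH

set_option autoImplicit false

/-!
# [H6 QR TRI] The values of the robust composition are idempotent

* `idem_tr`: on the degree `e` with `e + 4 R' + c0 ≤ K`, where `(kp F + 2 M) R1 ≤ R'`, `(8 M + 4) R1 ≤ 4 R'`; error
  `ε F := 20 (2 kp F - 1) 8^(2 kp F) h`, `h` the error of the homomorphism for all subtrees. Pieces: `amp_idem`. Otherwise
  with `x, y` the values of the subtrees, `c` the value of `F`, `r := c - opv o x y` (`Sml e h r`):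
  `o = true`: `c² - c = y² (x² - x) + x (y² - y) + 2 x y r + r² - r`. Here `y²` has norm `8^(2 κ2)` on the degree `e + 2 R'`
  (`tr_sd`) and `(x² - x) p` has degree `e + 2 R'` (the element `x` has degree `R'`): `Sml.mula`, NO loss of degree in the
  induction. `ε ≤ 8^(2κ2) ε1 + 8^κ1 ε2 + 2 8^κ h + h² + h ≤ 20 (2κ - 2) 8^(2κ) h + 4 · 8^κ h`. (`r` is small on all degrees
  `e + 2R'` too, or use `r² p = r (r p)`: multiply by the bounded element `r = c - xy` of norm `8^κ + 8^κ`.)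
  `o = false`: the same for `1 - x, 1 - y, 1 - c` (`(1-c)² - (1-c) = c² - c`, `(1 - c) - (1-x)(1-y) = -r`; norms of `1 - x`: `1 + β ≤ 8^κ`).
-/

namespace Pool.H6.QR

open Finset Pool.Agent.H81.QG Pool.Agent.H24.QL

variable {R H : Type} [CommRing R] [Algebra ℝ R] [NormedAddCommGroup H] [InnerProductSpace ℝ H]
variable {L : Type}
variable {cl : R →ₗ[ℝ] H} {dg : ℕ → Submodule ℝ R} {K c0 R1 : ℕ} {E θ : ℝ} {d s0 : ℕ}
  {ng : L → L} {b : Tr L → R}

private theorem mulA (hL : Liar cl dg K) {k k' j : ℕ} {η M : ℝ} {r m : R} (h : Sml cl dg k' η r)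
    (hr : r ∈ dg j) (hM : 0 ≤ M) (hb : Sml cl dg k M m) (hk : k' + j ≤ k) :
    Sml cl dg k' (M * η) (m * r) := by
  intro p hp
  have h1 : r * p ∈ dg k := hL.mono (by omega) (hL.mul j k' r p hr hp)
  have e : m * r * p = m * (r * p) := by ring
  rw [e]
  calc ‖cl (m * (r * p))‖ ≤ M * ‖cl (r * p)‖ := hb _ h1
    _ ≤ M * (η * ‖cl p‖) := mul_le_mul_of_nonneg_left (h p hp) hM
    _ = M * η * ‖cl p‖ := by ring

private theorem step (hL : Liar cl dg K) {R' e Du Dv Dr : ℕ} {A B h ε1 ε2 : ℝ} {u v r X Y : R}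
    (hA : 0 ≤ A) (hB : 0 ≤ B) (h0 : 0 ≤ h) (hu : Sd cl dg K c0 Du A u) (hv : Sd cl dg K c0 Dv B v)
    (hr : Sd cl dg K c0 Dr h r) (du : Du ≤ R') (dv : Dv ≤ R') (dr : Dr ≤ 2 * R')
    (hX : Sml cl dg e ε1 X) (hXd : X ∈ dg (2 * R')) (hY : Sml cl dg e ε2 Y)
    (hYd : Y ∈ dg (2 * R')) (he : e + 4 * R' + c0 ≤ K) :
    Sml cl dg e (B * B * ε1 + A * ε2 + (A * B * h + A * B * h) + h * h + h)
      (v * v * X + u * Y + (u * v * r + u * v * r) + r * r - r) := by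
  have m1 : Sml cl dg (e + 2 * R') (B * B) (v * v) :=
    (Sd.mul hL hB hv hv).2 (e + 2 * R') (by omega)
  have m2 : Sml cl dg (e + 2 * R') A u := hu.2 (e + 2 * R') (by omega)
  have m3 : Sml cl dg (e + 2 * R') (A * B) (u * v) :=
    (Sd.mul hL hA hu hv).2 (e + 2 * R') (by omega)
  have m4 : Sml cl dg (e + 2 * R') h r := hr.2 (e + 2 * R') (by omega)
  have m5 : Sml cl dg e h r := hr.2 e (by omega)
  have hrd : r ∈ dg (2 * R') := hL.mono dr hr.1
  have t1 := mulA hL hX hXd (mul_nonneg hB hB) m1 le_rfl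
  have t2 := mulA hL hY hYd hA m2 le_rfl
  have t3 := mulA hL m5 hrd (mul_nonneg hA hB) m3 le_rfl
  have t4 := mulA hL m5 hrd h0 m4 le_rfl
  exact (((t1.add t2).add (t3.add t3)).add t4).sub m5

private theorem sq_mem (hL : Liar cl dg K) {D R' : ℕ} {x : R} (hx : x ∈ dg D) (hD : D ≤ R') :
    x * x - x ∈ dg (2 * R') :=
  sub_mem (hL.mono (by omega) (hL.mul D D x x hx hx)) (hL.mono (by omega) hx)

private theorem num {κ1 κ2 : ℕ} {h : ℝ} (h0 : 0 ≤ h) (h1 : h ≤ 1) (k1 : 1 ≤ κ1) (k2 : 1 ≤ κ2) :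
    (8 : ℝ) ^ κ2 * 8 ^ κ2 * (20 * (2 * κ1 - 1) * 8 ^ (2 * κ1) * h) +
      8 ^ κ1 * (20 * (2 * κ2 - 1) * 8 ^ (2 * κ2) * h) +
      (8 ^ κ1 * 8 ^ κ2 * h + 8 ^ κ1 * 8 ^ κ2 * h) + h * h + h ≤
    20 * (2 * ((κ1 + κ2 : ℕ) : ℝ) - 1) * 8 ^ (2 * (κ1 + κ2)) * h := by
  obtain ⟨a, ha⟩ : ∃ a : ℝ, a = 8 ^ κ1 := ⟨_, rfl⟩
  obtain ⟨b, hb⟩ : ∃ b : ℝ, b = 8 ^ κ2 := ⟨_, rfl⟩
  have e1 : (8 : ℝ) ^ (2 * κ1) = a * a := by rw [ha, two_mul, pow_add]
  have e2 : (8 : ℝ) ^ (2 * κ2) = b * b := by rw [hb, two_mul, pow_add]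
  have e3 : (8 : ℝ) ^ (2 * (κ1 + κ2)) = a * a * (b * b) := by rw [mul_add, pow_add, e1, e2]
  have a1 : 1 ≤ a := by rw [ha]; exact one_le_pow₀ (by norm_num)
  have b1 : 1 ≤ b := by rw [hb]; exact one_le_pow₀ (by norm_num)
  have c1 : (1 : ℝ) ≤ κ1 := by exact_mod_cast k1
  have c2 : (1 : ℝ) ≤ κ2 := by exact_mod_cast k2
  rw [e1, e2, e3, ← ha, ← hb]
  push_cast
  have hab : 1 ≤ a * b := by nlinarith
  have hab2 : a * b ≤ a * a * (b * b) := by nlinarith
  have f1 : a * (20 * (2 * κ2 - 1) * (b * b) * h) ≤ 20 * (2 * κ2 - 1) * (a * a * (b * b)) * h := by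
    have g1 : a ≤ a * a := by nlinarith
    have g2 : 0 ≤ 20 * (2 * (κ2 : ℝ) - 1) * (b * b) * h := by
      refine mul_nonneg (mul_nonneg (mul_nonneg (by norm_num) (by linarith)) (by positivity)) h0
    calc a * (20 * (2 * κ2 - 1) * (b * b) * h) ≤ a * a * (20 * (2 * κ2 - 1) * (b * b) * h) :=
          mul_le_mul_of_nonneg_right g1 g2
      _ = 20 * (2 * κ2 - 1) * (a * a * (b * b)) * h := by ring
  have f2 : a * b * h ≤ a * a * (b * b) * h := mul_le_mul_of_nonneg_right hab2 h0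
  have f3 : h * h ≤ a * a * (b * b) * h := by
    have : h ≤ a * a * (b * b) := h1.trans (hab.trans hab2)
    exact mul_le_mul_of_nonneg_right this h0
  have f4 : h ≤ a * a * (b * b) * h := le_mul_of_one_le_left h0 (hab.trans hab2)
  have f5 : b * b * (20 * (2 * κ1 - 1) * (a * a) * h) = 20 * (2 * κ1 - 1) * (a * a * (b * b)) * h := by
    ring
  have f6 : 0 ≤ a * a * (b * b) * h := le_trans h0 f4
  rw [f5]
  have f7 : 20 * (2 * ((κ1 : ℝ) + κ2) - 1) * (a * a * (b * b)) * h =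
      20 * (2 * κ1 - 1) * (a * a * (b * b)) * h + 20 * (2 * κ2 - 1) * (a * a * (b * b)) * h +
      20 * (a * a * (b * b) * h) := by ring
  rw [f7]
  linarith

private theorem piece (hL : Liar cl dg K) (hb : Bs cl dg K c0 R1 E d s0 ng b) (hs : 1 ≤ s0)
    (hE : 0 ≤ E) (hE1 : E ≤ 1) (hθ : 0 < θ) (hEθ : 2 ^ 20 * E ≤ θ) (M R' : ℕ)
    {h : ℝ} (h0 : 0 ≤ h) (κm : ℕ) (hh : θ ^ (M + 1) * 8 ^ κm ≤ h)
    (hR2 : (8 * M + 4) * R1 ≤ 4 * R') (F : Tr L) (hd : F.dp ≤ d)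
    (hlv : F.lv ≤ s0) (e : ℕ) (he : e + 4 * R' + c0 ≤ K) :
    Sml cl dg e (20 * (2 * kp s0 F - 1) * 8 ^ (2 * kp s0 F) * h)
      (tr M (sq s0 b F) * tr M (sq s0 b F) - tr M (sq s0 b F)) := by
  have e1 : tr M (sq s0 b F) = wm M (b F) := by
    rw [sq_piece s0 b F hs hlv]
    rfl
  rw [e1]
  have h2 := (amp_idem hL hE hE1 (hb.bd F hd hlv).1 (hb.bd F hd hlv).2 (hb.idem F hd hlv) M).2 e
    (by omega)
  refine h2.mono hL le_rfl ?_
  have h3 : (2 ^ 20 * E) ^ (M + 1) ≤ θ ^ (M + 1) := pow_le_pow_left₀ (by positivity) hEθ _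
  have h4 : θ ^ (M + 1) ≤ θ ^ (M + 1) * 8 ^ κm :=
    le_mul_of_one_le_right (by positivity) (one_le_pow₀ (by norm_num))
  have h5 : (1 : ℝ) ≤ kp s0 F := by exact_mod_cast kp_pos s0 F
  have h6 : (1 : ℝ) ≤ 8 ^ (2 * kp s0 F) := one_le_pow₀ (by norm_num)
  have h7 : (1 : ℝ) ≤ 20 * (2 * kp s0 F - 1) * 8 ^ (2 * kp s0 F) := by nlinarith
  exact ((h3.trans h4).trans hh).trans (le_mul_of_one_le_left h0 h7)

theorem idem_tr (hL : Liar cl dg K) (hb : Bs cl dg K c0 R1 E d s0 ng b) (hs : 1 ≤ s0)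
    (hE : 0 ≤ E) (hE1 : E ≤ 1) (hθ : 0 < θ) (hθ1 : θ ≤ 1) (hEθ : 2 ^ 20 * E ≤ θ) (M R' : ℕ)
    {h : ℝ} (h0 : 0 ≤ h) (h1 : h ≤ 1) (κm : ℕ) (hh : θ ^ (M + 1) * 8 ^ κm ≤ h)
    (hR : (κm + 2 * M) * R1 ≤ R') (hR2 : (8 * M + 4) * R1 ≤ 4 * R') (F : Tr L) (hd : F.dp ≤ d)
    (hF : kp s0 F ≤ κm) (e : ℕ) (he : e + 4 * R' + c0 ≤ K) :
    Sml cl dg e (20 * (2 * kp s0 F - 1) * 8 ^ (2 * kp s0 F) * h)
      (tr M (sq s0 b F) * tr M (sq s0 b F) - tr M (sq s0 b F)) := by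
  induction F with
  | lit a =>
    exact piece hL hb hs hE hE1 hθ hEθ M R' h0 κm hh hR2 _ hd (by simp only [Tr.lv]; exact hs) e he
  | cst c =>
    exact piece hL hb hs hE hE1 hθ hEθ M R' h0 κm hh hR2 _ hd (by simp only [Tr.lv]; exact hs) e he
  | op o F G ihF ihG =>
    by_cases hlv : (Tr.op o F G).lv ≤ s0
    · exact piece hL hb hs hE hE1 hθ hEθ M R' h0 κm hh hR2 _ hd hlv e he
    · have hk : kp s0 (Tr.op o F G) = kp s0 F + kp s0 G := by
        rw [kp, if_neg hlv]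
      have hdF : F.dp ≤ d := by simp only [Tr.dp] at hd; omega
      have hdG : G.dp ≤ d := by simp only [Tr.dp] at hd; omega
      have hkF : kp s0 F ≤ κm := by omega
      have hkG : kp s0 G ≤ κm := by omega
      have i1 := ihF hdF hkF
      have i2 := ihG hdG hkG
      have k1 := kp_pos s0 F
      have k2 := kp_pos s0 G
      have hE8 : 8 * E ≤ θ := by
        have : 8 * E ≤ 2 ^ 20 * E := by nlinarith
        linarith
      have sx := tr_sd hL hθ hθ1 (bd_sq hL hb hs hE hθ hE8 F hdF) M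
      have sy := tr_sd hL hθ hθ1 (bd_sq hL hb hs hE hθ hE8 G hdG) M
      have sr := hom_big hL hb hs hE hθ hθ1 hE8 M o F G hd (not_le.1 hlv)
      obtain ⟨x, hx⟩ : ∃ x, x = tr M (sq s0 b F) := ⟨_, rfl⟩
      obtain ⟨y, hy⟩ : ∃ y, y = tr M (sq s0 b G) := ⟨_, rfl⟩
      obtain ⟨c, hc⟩ : ∃ c, c = tr M (sq s0 b (Tr.op o F G)) := ⟨_, rfl⟩
      rw [← hx] at i1 sx sr
      rw [← hy] at i2 sy sr
      rw [← hc] at sr
      rw [← hc, hk]
      have dx : (kp s0 F + 2 * M) * R1 ≤ R' :=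
        (Nat.mul_le_mul_right R1 (by omega)).trans hR
      have dy : (kp s0 G + 2 * M) * R1 ≤ R' :=
        (Nat.mul_le_mul_right R1 (by omega)).trans hR
      have dr : (kp s0 (Tr.op o F G) + 4 * M) * R1 ≤ 2 * R' := by
        have h3 : (kp s0 (Tr.op o F G) + 4 * M) * R1 ≤ (2 * (κm + 2 * M)) * R1 :=
          Nat.mul_le_mul_right R1 (by omega)
        have h4 : (2 * (κm + 2 * M)) * R1 = 2 * ((κm + 2 * M) * R1) := by ring
        omega
      have hρ : θ ^ (M + 1) * 8 ^ kp s0 (Tr.op o F G) ≤ h := by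
        refine le_trans ?_ hh
        exact mul_le_mul_of_nonneg_left (pow_le_pow_right₀ (by norm_num) hF) (by positivity)
      have sr' := Sd.mono hL sr le_rfl hρ
      have A0 : (0 : ℝ) ≤ 8 ^ kp s0 F := by positivity
      have B0 : (0 : ℝ) ≤ 8 ^ kp s0 G := by positivity
      have mx := sq_mem hL sx.1 dx
      have my := sq_mem hL sy.1 dy
      cases o with
      | true =>
        have sx' : Sd cl dg K c0 ((kp s0 F + 2 * M) * R1) (8 ^ kp s0 F) x :=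
          Sd.mono hL sx le_rfl (by linarith)
        have sy' : Sd cl dg K c0 ((kp s0 G + 2 * M) * R1) (8 ^ kp s0 G) y :=
          Sd.mono hL sy le_rfl (by linarith)
        have key := step hL A0 B0 h0 sx' sy' sr' dx dy dr i1 mx i2 my he
        have e1 : y * y * (x * x - x) + x * (y * y - y) +
            (x * y * (c - opv true x y) + x * y * (c - opv true x y)) +
            (c - opv true x y) * (c - opv true x y) - (c - opv true x y) = c * c - c := by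
          have e2 : opv true x y = x * y := by simp [opv]
          rw [e2]
          ring
        rw [e1] at key
        exact key.mono hL le_rfl (num h0 h1 k1 k2)
      | false =>
        have sx' : Sd cl dg K c0 ((kp s0 F + 2 * M) * R1) (8 ^ kp s0 F) (1 - x) :=
          Sd.mono hL (Sd.sub hL (Sd.one hL) sx) (by simp) (by linarith)
        have sy' : Sd cl dg K c0 ((kp s0 G + 2 * M) * R1) (8 ^ kp s0 G) (1 - y) :=
          Sd.mono hL (Sd.sub hL (Sd.one hL) sy) (by simp) (by linarith)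
        have key := step hL A0 B0 h0 sx' sy' sr'.neg dx dy dr i1 mx i2 my he
        have e1 : (1 - y) * (1 - y) * (x * x - x) + (1 - x) * (y * y - y) +
            ((1 - x) * (1 - y) * -(c - opv false x y) + (1 - x) * (1 - y) * -(c - opv false x y)) +
            -(c - opv false x y) * -(c - opv false x y) - -(c - opv false x y) = c * c - c := by
          have e2 : opv false x y = x + y - x * y := by simp [opv]
          rw [e2]
          ring
        rw [e1] at key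
        exact key.mono hL le_rfl (num h0 h1 k1 k2)

end Pool.H6.QR
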