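import Mathlib
import Pool.Agent.H6.QR.TreI
import Pool.Agent.H24.QL.Vi

set_option autoImplicit false

/-!
# [H6 QR TOP] The hypotheses `HT` for the robust composition

`TT s0 b M d S F = tr M (sq s0 b F)` if `dp F ≤ d` and `lv F ≤ S`, else `0`. `θ = 1/512`, `E ≤ 2^(-32)`: `8 E ≤ θ`,
`2^20 E ≤ θ`, `h := θ^(M+1) 8^κm = 8^(κm - 3(M+1))`. All trees with `dp ≤ d`, `lv ≤ S` have `kp ≤ κm` (`kp_le` and `hκ`:
`kp F * s0 ≤ s0 + 2 d S ≤ κm * s0`). Errors: homomorphism `≤ h` (`hom_big`, `hom_small`: `(2^20 E)^(M+1) ≤ θ^(M+1)`),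
idempotency `≤ 40 κm 8^(2κm) h ≤ (8 · 8^κm) 8^(2κm) 8^κm 8^(-3(M+1)) ≤ (1/2)^lam` as `2 κm + lam ≤ M`.
Degrees: `SmR .. 0`: `e + 8 (R' + 1) ≤ K`, so `e + 4 R' + c0 ≤ K` (`c0 = 8 (R0 + 1) ≤ 8 R1 ≤ 4 R'`), and `Sd` elements of degree
`≤ 4 R'` are small on the degree `e`. `mu`: for `r ∈ SmR .. j`: `T' r p = r (T' p)`, `T' p ∈ dg (R' + e)`, norm of `T'` at most `2`
by `vbd` (`hv.2`: `T' ∈ dg R'`) and idempotency. `c0, c1, ng`: exact (`tj_idem`: for an idempotent `a` `tr M (tj · a) = a`;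
`b (cst false) = 0`, `b (cst true) = 1`, `b (lit (ngl a)) = 1 - b (lit a)` are idempotent). `lev`: `lev_SmR`.
-/

namespace Pool.H6.QR

open Finset Pool.Agent.H81.QG Pool.Agent.H24.QL Pool.H6.QL

variable {H : Type} [NormedAddCommGroup H] [InnerProductSpace ℝ H] {n K : ℕ}
  {cl : Rn n →ₗ[ℝ] H} {dg : ℕ → Submodule ℝ (Rn n)}

open Classical in
/-- The values of the trees. -/
noncomputable def TT (s0 : ℕ) (b : Tr (Fin n × Bool) → Rn n) (M d S : ℕ) (F : Tr (Fin n × Bool)) :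
    Rn n :=
  if F.dp ≤ d ∧ F.lv ≤ S then tr M (sq s0 b F) else 0

private theorem tr_of_idem {R : Type} [CommRing R] (M : ℕ) {a : R} (h : a * a = a) :
    tr M (fun j => tj j a) = a := by
  unfold tr
  rw [Finset.sum_eq_single 0]
  · rw [tj_idem 0 h, if_pos rfl]
  · intro j _ hj
    rw [tj_idem j h, if_neg hj]
  · intro h0
    exact absurd (Finset.mem_range.2 (Nat.succ_pos M)) h0

private theorem h_bd (M κm lam : ℕ) (hM : 2 * κm + lam ≤ M) :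
    40 * (κm : ℝ) * 8 ^ (2 * κm) * ((1 / 512 : ℝ) ^ (M + 1) * 8 ^ κm) ≤ (1 / 2 : ℝ) ^ lam ∧
    (1 / 512 : ℝ) ^ (M + 1) * 8 ^ κm ≤ (1 / 2 : ℝ) ^ lam := by
  have h1 : (1 / 512 : ℝ) ^ (M + 1) ≤ (1 / 512) * ((1 / 512) ^ (2 * κm) * (1 / 512) ^ lam) := by
    rw [← pow_add, pow_succ']
    exact mul_le_mul_of_nonneg_left (pow_le_pow_of_le_one (by norm_num) (by norm_num) hM) (by norm_num)
  have h2 : (1 / 512 : ℝ) ^ lam ≤ (1 / 2 : ℝ) ^ lam :=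
    pow_le_pow_left₀ (by norm_num) (by norm_num) _
  have h3 : (1 / 512 : ℝ) ^ (2 * κm) * 8 ^ κm * 8 ^ (2 * κm) * 8 ^ (2 * κm) * 8 ^ κm = 1 := by
    have e : (1 / 512 : ℝ) ^ (2 * κm) = (1 / 8 : ℝ) ^ (6 * κm) := by
      rw [show (1 / 512 : ℝ) = (1 / 8) ^ 3 by norm_num, ← pow_mul]
      congr 1
      ring
    rw [e, mul_assoc, mul_assoc, mul_assoc, ← pow_add, ← pow_add, ← pow_add,
      show κm + (2 * κm + (2 * κm + κm)) = 6 * κm by ring, ← mul_pow]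
    norm_num
  have h8 : (1 : ℝ) ≤ 8 ^ κm := one_le_pow₀ (by norm_num)
  have h8' : (1 : ℝ) ≤ 8 ^ (2 * κm) := one_le_pow₀ (by norm_num)
  have hk : (κm : ℝ) ≤ 8 ^ κm := by
    have : κm ≤ 8 ^ κm := (Nat.lt_pow_self (by norm_num)).le
    exact_mod_cast this
  have hl0 : (0 : ℝ) ≤ (1 / 2 : ℝ) ^ lam := by positivity
  have hx0 : (0 : ℝ) ≤ (1 / 512 : ℝ) ^ (2 * κm) := by positivity
  have h4 : (1 / 512 : ℝ) ^ (M + 1) * 8 ^ κm ≤
      (1 / 512) * ((1 / 512) ^ (2 * κm) * 8 ^ κm) * (1 / 2) ^ lam := by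
    calc (1 / 512 : ℝ) ^ (M + 1) * 8 ^ κm
        ≤ ((1 / 512) * ((1 / 512) ^ (2 * κm) * (1 / 512) ^ lam)) * 8 ^ κm :=
          mul_le_mul_of_nonneg_right h1 (by positivity)
      _ ≤ ((1 / 512) * ((1 / 512) ^ (2 * κm) * (1 / 2) ^ lam)) * 8 ^ κm := by gcongr
      _ = (1 / 512) * ((1 / 512) ^ (2 * κm) * 8 ^ κm) * (1 / 2) ^ lam := by ring
  have h5 : (1 / 512 : ℝ) ^ (2 * κm) * 8 ^ κm ≤ 1 := by
    have : (1 / 512 : ℝ) ^ (2 * κm) * 8 ^ κm ≤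
        (1 / 512 : ℝ) ^ (2 * κm) * 8 ^ κm * 8 ^ (2 * κm) * 8 ^ (2 * κm) * 8 ^ κm := by
      have g1 : (0 : ℝ) ≤ (1 / 512 : ℝ) ^ (2 * κm) * 8 ^ κm := by positivity
      have g2 : (1 : ℝ) ≤ 8 ^ (2 * κm) * 8 ^ (2 * κm) * 8 ^ κm := by
        have := one_le_mul_of_one_le_of_one_le (one_le_mul_of_one_le_of_one_le h8' h8') h8
        exact this
      calc (1 / 512 : ℝ) ^ (2 * κm) * 8 ^ κm ≤
          ((1 / 512 : ℝ) ^ (2 * κm) * 8 ^ κm) * (8 ^ (2 * κm) * 8 ^ (2 * κm) * 8 ^ κm) :=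
            le_mul_of_one_le_right g1 g2
        _ = _ := by ring
    rwa [h3] at this
  have h6 : (κm : ℝ) * 8 ^ (2 * κm) * ((1 / 512 : ℝ) ^ (2 * κm) * 8 ^ κm) ≤ 1 := by
    calc (κm : ℝ) * 8 ^ (2 * κm) * ((1 / 512 : ℝ) ^ (2 * κm) * 8 ^ κm)
        ≤ 8 ^ κm * 8 ^ (2 * κm) * ((1 / 512 : ℝ) ^ (2 * κm) * 8 ^ κm) := by gcongr
      _ ≤ (8 ^ κm * 8 ^ (2 * κm) * ((1 / 512 : ℝ) ^ (2 * κm) * 8 ^ κm)) * 8 ^ (2 * κm) :=
            le_mul_of_one_le_right (by positivity) h8'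
      _ = (1 / 512 : ℝ) ^ (2 * κm) * 8 ^ κm * 8 ^ (2 * κm) * 8 ^ (2 * κm) * 8 ^ κm := by ring
      _ = 1 := h3
  constructor
  · calc 40 * (κm : ℝ) * 8 ^ (2 * κm) * ((1 / 512 : ℝ) ^ (M + 1) * 8 ^ κm)
        ≤ 40 * (κm : ℝ) * 8 ^ (2 * κm) * ((1 / 512) * ((1 / 512) ^ (2 * κm) * 8 ^ κm) * (1 / 2) ^ lam) := by
          gcongr
      _ = (40 / 512) * ((κm : ℝ) * 8 ^ (2 * κm) * ((1 / 512 : ℝ) ^ (2 * κm) * 8 ^ κm)) * (1 / 2) ^ lam := by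
          ring
      _ ≤ (40 / 512) * 1 * (1 / 2) ^ lam := by gcongr
      _ ≤ (1 / 2 : ℝ) ^ lam := by linarith
  · refine h4.trans ?_
    calc (1 / 512) * ((1 / 512) ^ (2 * κm) * 8 ^ κm) * (1 / 2 : ℝ) ^ lam
        ≤ (1 / 512) * 1 * (1 / 2) ^ lam := by gcongr
      _ ≤ (1 / 2 : ℝ) ^ lam := by linarith

theorem top_ht (hL : Liar cl dg K) {R0 R1 R' M κm d s0 S lam : ℕ} {E : ℝ}
    {b : Tr (Fin n × Bool) → Rn n} (hb : Bs cl dg K (8 * (R0 + 1)) R1 E d s0 ngl b)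
    (hs0 : 1 ≤ s0) (hS : s0 ≤ S) (hR0 : R0 + 1 ≤ R1) (hE : 0 ≤ E) (hE1 : 2 ^ 32 * E ≤ 1)
    (hκ : s0 + 2 * d * S ≤ κm * s0) (hM : 2 * κm + lam ≤ M)
    (hR' : (κm + 2 * M + 8) * R1 ≤ R') :
    HT (SmR cl dg K R' ((1 / 2 : ℝ) ^ lam)) ngl d S (TT s0 b M d S) ∧
      (∀ F, TT s0 b M d S F ∈ dg R') ∧ ∀ a, TT s0 b M d S (.lit a) = b (.lit a) := by
  classical
  obtain ⟨hb1, hb2⟩ := h_bd M κm lam hM
  set h : ℝ := (1 / 512 : ℝ) ^ (M + 1) * 8 ^ κm with hh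
  have hh0 : 0 ≤ h := by positivity
  have hl1 : (1 / 2 : ℝ) ^ lam ≤ 1 := pow_le_one₀ (by norm_num) (by norm_num)
  have hl0 : (0 : ℝ) ≤ (1 / 2 : ℝ) ^ lam := by positivity
  have hh1 : h ≤ 1 := hb2.trans hl1
  have hEθ : 8 * E ≤ 1 / 512 := by nlinarith
  have hEθ2 : 2 ^ 20 * E ≤ 1 / 512 := by nlinarith
  have hE2 : E ≤ 1 := by nlinarith
  have hθ : (0 : ℝ) < 1 / 512 := by norm_num
  have hθ1 : (1 / 512 : ℝ) ≤ 1 := by norm_num
  -- arithmetic of degrees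
  have e0 : (κm + 2 * M + 8) * R1 = κm * R1 + 2 * (M * R1) + 8 * R1 := by ring
  have e1 : κm * R1 + 2 * (M * R1) + 8 * R1 ≤ R' := by rw [← e0]; exact hR'
  have hR : (κm + 2 * M) * R1 ≤ R' := by
    have : (κm + 2 * M) * R1 = κm * R1 + 2 * (M * R1) := by ring
    omega
  have hR2 : (8 * M + 4) * R1 ≤ 4 * R' := by
    have : (8 * M + 4) * R1 = 8 * (M * R1) + 4 * R1 := by ring
    omega
  -- number of pieces
  have hkp : ∀ F : Tr (Fin n × Bool), F.dp ≤ d → F.lv ≤ S → kp s0 F ≤ κm := by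
    intro F h1 h2
    have h3 := kp_le s0 F hs0
    have h4 : 2 * F.dp * F.lv ≤ 2 * d * S := Nat.mul_le_mul (Nat.mul_le_mul_left _ h1) h2
    have h5 : kp s0 F * s0 ≤ κm * s0 := by omega
    exact Nat.le_of_mul_le_mul_right h5 (by omega)
  have hTT : ∀ F : Tr (Fin n × Bool), F.dp ≤ d → F.lv ≤ S →
      TT s0 b M d S F = tr M (sq s0 b F) := by
    intro F h1 h2
    unfold TT
    rw [if_pos ⟨h1, h2⟩]
  have hTT0 : ∀ F : Tr (Fin n × Bool), ¬ (F.dp ≤ d ∧ F.lv ≤ S) → TT s0 b M d S F = 0 := by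
    intro F h1
    unfold TT
    rw [if_neg h1]
  have hdeg : ∀ F, TT s0 b M d S F ∈ dg R' := by
    intro F
    by_cases hF : F.dp ≤ d ∧ F.lv ≤ S
    · rw [hTT F hF.1 hF.2]
      have h1 := (tr_sd hL hθ hθ1 (bd_sq hL hb hs0 hE hθ hEθ F hF.1) M).1
      refine hL.mono ?_ h1
      refine le_trans (Nat.mul_le_mul_right _ ?_) hR
      have := hkp F hF.1 hF.2
      omega
    · rw [hTT0 F hF]
      exact zero_mem _
  have hlev : Lev (SmR cl dg K R' ((1 / 2 : ℝ) ^ lam)) := lev_SmR hl0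
  -- membership in the level zero
  have hmem0 : ∀ r : Rn n, (∀ e, e + 8 * (R' + 1) ≤ K → Sml cl dg e ((1 / 2 : ℝ) ^ lam) r) →
      r ∈ SmR cl dg K R' ((1 / 2 : ℝ) ^ lam) 0 := by
    intro r hr e he
    rw [pow_zero, one_mul]
    exact hr e (by simpa using he)
  have hidem : ∀ F : Tr (Fin n × Bool), F.dp ≤ d → F.lv ≤ S → ∀ e, e + 8 * (R' + 1) ≤ K →
      Sml cl dg e ((1 / 2 : ℝ) ^ lam) (TT s0 b M d S F * TT s0 b M d S F - TT s0 b M d S F) := by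
    intro F h1 h2 e he
    have h3 := idem_tr hL hb hs0 hE hE2 hθ hθ1 hEθ2 M R' hh0 hh1 κm le_rfl hR hR2 F h1
      (hkp F h1 h2) e (by omega)
    rw [hTT F h1 h2]
    refine h3.mono hL le_rfl (le_trans ?_ hb1)
    have h4 := hkp F h1 h2
    have h5 : (1 : ℝ) ≤ kp s0 F := by exact_mod_cast kp_pos s0 F
    have h6 : (kp s0 F : ℝ) ≤ κm := by exact_mod_cast h4
    have h7 : (8 : ℝ) ^ (2 * kp s0 F) ≤ 8 ^ (2 * κm) :=
      pow_le_pow_right₀ (by norm_num) (by omega)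
    have h8 : 20 * (2 * (kp s0 F : ℝ) - 1) ≤ 40 * κm := by linarith
    have h9 : (0 : ℝ) ≤ 20 * (2 * (kp s0 F : ℝ) - 1) := by linarith
    exact mul_le_mul_of_nonneg_right (mul_le_mul h8 h7 (by positivity) (by positivity)) hh0
  have hlit : ∀ a, TT s0 b M d S (.lit a) = b (.lit a) := by
    intro a
    rw [hTT (.lit a) (Nat.zero_le _) (hs0.trans hS)]
    exact tr_of_idem M (hb.lit a)
  refine ⟨⟨hlev, ?_, ?_, ?_, ?_, ?_, ?_⟩, hdeg, hlit⟩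
  · -- mu
    intro F j x hx
    by_cases hF : F.dp ≤ d ∧ F.lv ≤ S
    · intro e he p hp
      have e2 : TT s0 b M d S F * x * p = x * (TT s0 b M d S F * p) := by ring
      have e3 : (8 + (j + 1)) * (R' + 1) = (8 + j) * (R' + 1) + (R' + 1) := by ring
      have e4 : 8 * (R' + 1) ≤ (8 + j) * (R' + 1) := Nat.mul_le_mul_right _ (by omega)
      have h1 := hx (R' + e) (by omega) (TT s0 b M d S F * p) (hL.mul _ _ _ _ (hdeg F) hp)
      have h2 := (vbd hL (hdeg F) hl0 (hidem F hF.1 hF.2 e (by omega)) (by omega)).1 p hp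
      have h3 : (0 : ℝ) ≤ 4 ^ j * (1 / 2 : ℝ) ^ lam := by positivity
      have h4 : ‖cl (TT s0 b M d S F * p)‖ ≤ 2 * ‖cl p‖ :=
        h2.trans (mul_le_mul_of_nonneg_right (by linarith) (norm_nonneg _))
      rw [e2]
      refine h1.trans ?_
      calc 4 ^ j * (1 / 2 : ℝ) ^ lam * ‖cl (TT s0 b M d S F * p)‖
          ≤ 4 ^ j * (1 / 2 : ℝ) ^ lam * (2 * ‖cl p‖) := mul_le_mul_of_nonneg_left h4 h3
        _ ≤ 4 ^ (j + 1) * (1 / 2 : ℝ) ^ lam * ‖cl p‖ := by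
          have h5 : 0 ≤ 4 ^ j * (1 / 2 : ℝ) ^ lam * ‖cl p‖ := mul_nonneg h3 (norm_nonneg _)
          rw [pow_succ]
          nlinarith
    · rw [hTT0 F hF, zero_mul]
      exact hlev.zero' _
  · -- idem
    intro F h1 h2
    exact hmem0 _ (hidem F h1 h2)
  · -- hom
    intro o F G h1 h2
    have hdF : F.dp ≤ d ∧ F.lv ≤ S := by
      simp only [Tr.dp, Tr.lv] at h1 h2
      exact ⟨by omega, by omega⟩
    have hdG : G.dp ≤ d ∧ G.lv ≤ S := by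
      simp only [Tr.dp, Tr.lv] at h1 h2
      exact ⟨by omega, by omega⟩
    rw [hTT _ h1 h2, hTT F hdF.1 hdF.2, hTT G hdG.1 hdG.2]
    refine hmem0 _ fun e he => ?_
    have hk := hkp _ h1 h2
    rcases Nat.lt_or_ge s0 (Tr.op o F G).lv with h3 | h3
    · have h4 := hom_big hL hb hs0 hE hθ hθ1 hEθ M o F G h1 h3
      have h5 : (kp s0 (.op o F G) + 4 * M) * R1 ≤ κm * R1 + 4 * (M * R1) := by
        rw [add_mul, mul_assoc]
        exact Nat.add_le_add_right (Nat.mul_le_mul_right _ hk) _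
      refine (h4.2 e (by omega)).mono hL le_rfl (le_trans ?_ hb2)
      exact mul_le_mul_of_nonneg_left (pow_le_pow_right₀ (by norm_num) hk) (by positivity)
    · have h4 := hom_small hL hb hs0 hE hE2 M o F G h1 h3
      refine (h4.2 e (by omega)).mono hL le_rfl (le_trans ?_ hb2)
      calc (2 ^ 20 * E) ^ (M + 1) ≤ (1 / 512 : ℝ) ^ (M + 1) :=
            pow_le_pow_left₀ (by positivity) hEθ2 _
        _ ≤ h := le_mul_of_one_le_right (by positivity) (one_le_pow₀ (by norm_num))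
  · -- c0
    rw [hTT (.cst false) (Nat.zero_le _) (hs0.trans hS)]
    have h1 : tr M (sq s0 b (.cst false)) = b (.cst false) :=
      tr_of_idem M (by rw [hb.cf, zero_mul])
    rw [h1, hb.cf]
    exact hlev.zero
  · -- c1
    rw [hTT (.cst true) (Nat.zero_le _) (hs0.trans hS)]
    have h1 : tr M (sq s0 b (.cst true)) = b (.cst true) :=
      tr_of_idem M (by rw [hb.ct, one_mul])
    rw [h1, hb.ct, sub_self]
    exact hlev.zero
  · -- ng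
    intro a
    rw [hlit, hlit, hb.neg, sub_self]
    exact hlev.zero

end Pool.H6.QR
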