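import Mathlib
import Pool.Agent.H24.QL.Vi

set_option autoImplicit false

/-!
# [H6 QR VIH] From `HT` to the valuation of the Frege formulas

The second half of the proof of `Pool.Agent.H24.QL.vi_exists` (file `H24/QL/Vi.lean`), with `HT` as hypothesis instead of `BHom`:
`rebalance eps` gives `C₀`; `C := 8 * 4 ^ C₀ + 2 * C₀ + 16`; `V` from `rebalance`; the relations of `V` at the levels `0` and
`C₀ (log₂ s + 1)`; `SmR .. j` is `Sml` with `4^j E` on the degree `k`, `k + (8 + j)(R + 1) ≤ K`; `4^(C₀ (log₂ s + 1)) ≤ 4^C₀ s^(2 C₀)`.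
`var`: `V (var i) = T' (lit (i, true)) = yy i` exactly. Copy the proof.
-/

namespace Pool.H6.QR

open Finset Pool.Agent.H3.Frg Pool.Agent.H81.QG Pool.Agent.H24.QL Pool.H6.QL

theorem vi_of_ht (eps : ℝ) (heps : 0 < eps) : ∃ C : ℕ, ∀ (H : Type) [NormedAddCommGroup H]
    [InnerProductSpace ℝ H] (n K : ℕ) (cl : Rn n →ₗ[ℝ] H) (dg : ℕ → Submodule ℝ (Rn n)),
    Liar cl dg K → (∀ i : Fin n, yy i ∈ dg 1) →
    ∀ (s S d R : ℕ) (E : ℝ) (T' : Tr (Fin n × Bool) → Rn n), 1 ≤ s → 0 ≤ E →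
    HT (SmR cl dg K R E) ngl d S T' → (∀ F, T' F ∈ dg R) → (∀ i, T' (.lit (i, true)) = yy i) →
    C * (Nat.log 2 s + 1) ≤ d → (C : ℝ) * (s : ℝ) ^ (1 + eps) ≤ S →
    ∃ V : Fm (Fin n) → Rn n, ∀ k, k + C * (Nat.log 2 s + 1) * (R + 1) ≤ K →
      VI cl dg V yy (C * (Nat.log 2 s + 1) * (R + 1)) s k ((C : ℝ) * (s : ℝ) ^ C * E) := by
  obtain ⟨C₀, hC₀⟩ := rebalance eps heps
  refine ⟨8 * 4 ^ C₀ + 2 * C₀ + 16, ?_⟩
  obtain ⟨C, hC⟩ : ∃ C, C = 8 * 4 ^ C₀ + 2 * C₀ + 16 := ⟨_, rfl⟩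
  rw [← hC]
  intro H _ _ n K cl dg hL hy s S d R E T' hs hE hT' hdeg hvar hd' hS'
  have hs1 : (1 : ℝ) ≤ s := by exact_mod_cast hs
  have hC0 : C₀ ≤ C := by omega
  have hse : 1 ≤ (s : ℝ) ^ (1 + eps) := Real.one_le_rpow hs1 (by linarith)
  have hS1 : (C₀ : ℝ) * (s : ℝ) ^ (1 + eps) ≤ S := by
    have h2 : (C₀ : ℝ) ≤ C := by exact_mod_cast hC0
    have h3 : (C₀ : ℝ) * (s : ℝ) ^ (1 + eps) ≤ C * (s : ℝ) ^ (1 + eps) :=
      mul_le_mul_of_nonneg_right h2 (by linarith)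
    linarith
  obtain ⟨l, hl⟩ : ∃ l, l = Nat.log 2 s + 1 := ⟨_, rfl⟩
  have hl1 : 1 ≤ l := by omega
  rw [← hl] at hd' ⊢
  have hd : C₀ * l ≤ d := (Nat.mul_le_mul_right l hC0).trans hd'
  obtain ⟨V, hV1, hV2, hV3, hV4, hV5, hV6⟩ := hC₀ (Fin n) (Rn n) _ _ _ s T' hs hT' (by rw [← hl]; exact hd) hS1
  rw [← hl] at hV5 hV6
  refine ⟨V, fun k hk => ?_⟩
  have hCl : (8 + C₀ * l) * (R + 1) ≤ C * l * (R + 1) := by
    refine Nat.mul_le_mul_right _ ?_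
    have h1 : 8 * 1 ≤ 8 * l := Nat.mul_le_mul_left _ hl1
    have h2 : (8 + C₀) * l ≤ C * l := Nat.mul_le_mul_right _ (by omega)
    have h3 : (8 + C₀) * l = 8 * l + C₀ * l := by ring
    omega
  have hR : R + 1 ≤ C * l * (R + 1) := by
    have h1 : 1 ≤ C * l := Nat.mul_pos (by omega) hl1
    exact Nat.le_mul_of_pos_left _ h1
  have hη : (4 : ℝ) ^ (C₀ * l) * E ≤ C * (s : ℝ) ^ C * E := by
    refine mul_le_mul_of_nonneg_right ?_ hE
    have h1 : (2 : ℝ) ^ Nat.log 2 s ≤ s := by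
      have := Nat.pow_log_le_self 2 (x := s) (by omega)
      exact_mod_cast this
    have h2 : (4 : ℝ) ^ (C₀ * l) = 4 ^ C₀ * ((2 : ℝ) ^ Nat.log 2 s) ^ (2 * C₀) := by
      have h4 : (4 : ℝ) = 2 ^ 2 := by norm_num
      rw [hl, h4, ← pow_mul, ← pow_mul, ← pow_mul, ← pow_add]
      congr 1
      ring
    have h3 : ((2 : ℝ) ^ Nat.log 2 s) ^ (2 * C₀) ≤ (s : ℝ) ^ C :=
      (pow_le_pow_left₀ (by positivity) h1 _).trans (pow_le_pow_right₀ hs1 (by omega))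
    have h5 : (4 : ℝ) ^ C₀ ≤ C := by
      have : 4 ^ C₀ ≤ C := by omega
      exact_mod_cast this
    rw [h2]
    exact mul_le_mul h5 h3 (by positivity) (by positivity)
  have hsm : ∀ (r : Rn n) (j : ℕ), j ≤ C₀ * l → r ∈ SmR cl dg K R E j →
      Sml cl dg k (C * (s : ℝ) ^ C * E) r := by
    intro r j hj hr p hp
    have h1 := (lev_SmR hE).mono hj hr k (by omega) p hp
    exact h1.trans (mul_le_mul_of_nonneg_right hη (norm_nonneg _))
  refine ⟨?_, hy, ?_, ?_, ?_, ?_, ?_⟩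
  · intro F _
    obtain ⟨G, hG⟩ := hV2 F
    rw [hG]
    exact hL.mono (by omega) (hdeg G)
  · intro i
    funext a
    show (if a i = true then (1 : ℝ) else 0) * (if a i = true then (1 : ℝ) else 0) = if a i = true then (1 : ℝ) else 0
    split_ifs <;> norm_num
  · intro F hF
    exact hsm _ 0 (Nat.zero_le _) (hV4 F hF)
  · intro i p hp
    rw [hV3, hvar, sub_self, zero_mul, map_zero, norm_zero]
    have h1 : (0 : ℝ) ≤ C * (s : ℝ) ^ C * E := by positivity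
    exact mul_nonneg h1 (norm_nonneg _)
  · intro F hF
    exact hsm _ _ le_rfl (hV5 F hF)
  · intro A B hAB
    exact hsm _ _ le_rfl (hV6 A B hAB)

end Pool.H6.QR
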