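import Mathlib
import Pool.Agent.H6.QR.Top
import Pool.Agent.H6.QR.Bsx
import Pool.Agent.H6.QR.Vih

set_option autoImplicit false

/-!
# [H6 QR MX2] The valuation with error `2 ^ (- lam)` and degree `(κ + lam) R0`

`C` from `vi_of_ht`. `bs_of_bhom` with `E = 2^(-40)` (`128 E · 2^32 ≤ 1`), `top_ht` with `M := 2 κ + lam`,
`R1 = R0 + 1`, `R' := (5 κ + 2 lam + 8) (R0 + 1)` (`κ + 2 M + 8 = 5 κ + 2 lam + 8`), then `vi_of_ht`.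
-/

namespace Pool.H6.QR

open Finset Pool.Agent.H3.Frg Pool.Agent.H81.QG Pool.Agent.H24.QL Pool.H6.QL

theorem vi2 (eps : ℝ) (heps : 0 < eps) : ∃ C : ℕ, ∀ (H : Type) [NormedAddCommGroup H]
    [InnerProductSpace ℝ H] (n K : ℕ) (Gam : Set (List (Fin n × Bool)))
    (X : Option (Fin n) → Op H) (L : ℕ → Submodule ℝ H)
    (cl : Rn n →ₗ[ℝ] H) (dg : ℕ → Submodule ℝ (Rn n)), RW n K Gam X L cl dg →
    ∀ (s lam S d s0 κ R0 : ℕ) (T : Bf (Option (Fin n)) → Op H), 1 ≤ s → 1 ≤ s0 → s0 ≤ S →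
    C * (Nat.log 2 s + 1) ≤ d → (C : ℝ) * (s : ℝ) ^ (1 + eps) ≤ S → s0 + 2 * d * S ≤ κ * s0 →
    BHom X L K R0 ((1 / 2 : ℝ) ^ 40) (fun F => F.sz ≤ s0 ∧ F.dp ≤ d) T →
    ∃ V : Fm (Fin n) → Rn n,
      ∀ k, k + C * (Nat.log 2 s + 1) * ((5 * κ + 2 * lam + 8) * (R0 + 1) + 1) ≤ K →
        VI cl dg V yy (C * (Nat.log 2 s + 1) * ((5 * κ + 2 * lam + 8) * (R0 + 1) + 1)) s k
          ((C : ℝ) * (s : ℝ) ^ C * (1 / 2 : ℝ) ^ lam) := by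
  obtain ⟨C, hC⟩ := vi_of_ht eps heps
  refine ⟨C, ?_⟩
  intro H _ _ n K Gam X L cl dg hRW s lam S d s0 κ R0 T hs hs0 hS hd hSr hκ hT
  obtain ⟨b, hb, hby⟩ := bs_of_bhom hRW (by positivity) (by norm_num) hT hs0
  obtain ⟨hHT, hdeg, hlit⟩ := top_ht hRW.liar (R1 := R0 + 1)
    (R' := (5 * κ + 2 * lam + 8) * (R0 + 1)) (M := 2 * κ + lam) (κm := κ) (lam := lam) (S := S) hb hs0 hS
    le_rfl (by positivity) (by norm_num) hκ le_rfl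
    (Nat.mul_le_mul_right _ (by omega))
  refine hC H n K cl dg hRW.liar hRW.ymem s S d _ _ _ hs (by positivity) hHT hdeg ?_ hd hSr
  intro i
  rw [hlit, hby]

end Pool.H6.QR
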