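import Mathlib

set_option autoImplicit false

/-!
# [H6 QR NM4] Choice of the parameters (pure real analysis; compare the proof of `num2` in H6/QL/Nm2.lean)

`eps = e / 2`, `l = log₂ s + 1`. Choose `lam2 := lam + C2 l + C2` (`s < 2^l`, `C2 ≤ 2^C2`), `S := ⌈(C2 + 1) s^(1+eps)⌉₊` (so `s ≤ S`, `lam ≤ S`),
`d := C2 l + 1`, `s0 := max 1 (S / lam)` (natural division; `s0 ≤ S`, `S ≤ 2 lam s0`), `κ := 1 + 4 d lam`
(`s0 + 2 d S ≤ s0 + 4 d lam s0`).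
BOUND. `del := e / 200`, `x := K ^ del`; for `K ≥ K0` and `s ≤ K²`: `100 ≤ x`, `C1 ≤ x`, `C2 + 1 ≤ x`, `l ≤ x`, `log s0 ≤ log S ≤ x`,
`log (2^40) ≤ x` (Tendsto, as in `num2`). `d ≤ x²  (C2 l + 1 ≤ (C2 + 1) l)`, `κ ≤ 5 x² lam ≤ x³ lam`, `lam2 ≤ lam + x² ≤ x³ lam`,
`5 κ + 2 lam2 + 8 ≤ 15 x³ lam ≤ x⁴ lam`; `R0 + 1 ≤ 2 C1 sqrt s0 d⁴ (4 x²)² .. ≤ x^16 sqrt s0` (`1 ≤ x sqrt s0`);
`lam sqrt s0 ≤ sqrt (lam² (1 + S / lam)) ≤ sqrt (2 lam S)` (`lam ≤ S`, `s0 ≤ 1 + S/lam`),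
`S ≤ 2 (C2 + 1) s^(1+eps)`, `s^eps ≤ (K²)^eps = K^e`, so `sqrt (2 lam S) ≤ 2 x sqrt (lam s) K^(e/2)`. Total `≤ x · x · (x⁴ · x^16 · 2 x K^(e/2) sqrt (s lam) + 1) ≤ x^24 K^(e/2) sqrt (s lam) ≤ K^e sqrt (s lam)`
as `24 del ≤ e / 2`.
-/

namespace Pool.H6.QR

private theorem ev_bd (A B del : ℝ) (hdel : 0 < del) :
    ∃ K0 : ℕ, ∀ K : ℕ, K0 ≤ K → A + B * Real.log (K : ℝ) ≤ (K : ℝ) ^ del := by
  have h1 : ∀ᶠ t : ℝ in Filter.atTop, A ≤ t ^ del / 2 :=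
    ((tendsto_rpow_atTop hdel).atTop_div_const (by norm_num)).eventually_ge_atTop A
  have h2 : ∀ᶠ t : ℝ in Filter.atTop, B * Real.log t ≤ t ^ del / 2 := by
    have h3 : (fun t => B * Real.log t) =o[Filter.atTop] fun t : ℝ => t ^ del :=
      (isLittleO_log_rpow_atTop hdel).const_mul_left B
    filter_upwards [h3.def (show (0 : ℝ) < 1 / 2 by norm_num), Filter.eventually_gt_atTop 0] with t ht ht0
    have h4 := le_abs_self (B * Real.log t)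
    rw [Real.norm_eq_abs, Real.norm_eq_abs, abs_of_pos (Real.rpow_pos_of_pos ht0 del)] at ht
    linarith
  have h3 := tendsto_natCast_atTop_atTop (R := ℝ) |>.eventually (h1.and h2)
  obtain ⟨K0, hK0⟩ := Filter.eventually_atTop.1 h3
  exact ⟨K0, fun K hK => by
    obtain ⟨h4, h5⟩ := hK0 K hK
    linarith⟩

theorem num4 (e : ℝ) (he : 0 < e) (C1 : ℝ) (C2 : ℕ) (hC1 : 0 < C1) :
    ∃ K0 : ℕ, ∀ K s lam : ℕ, K0 ≤ K → 1 ≤ lam → lam ≤ s → (s : ℝ) ≤ (K : ℝ) ^ 2 →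
    ∃ lam2 S d s0 κ : ℕ, 1 ≤ s0 ∧ s0 ≤ S ∧ 1 ≤ d ∧ C2 * (Nat.log 2 s + 1) ≤ d ∧
      (C2 : ℝ) * (s : ℝ) ^ (1 + e / 2) ≤ S ∧ s0 + 2 * d * S ≤ κ * s0 ∧
      (C2 : ℝ) * (s : ℝ) ^ C2 * (1 / 2 : ℝ) ^ lam2 ≤ (1 / 2 : ℝ) ^ lam ∧
      ∀ R0 : ℕ, (R0 : ℝ) ≤ C1 * Real.sqrt s0 * (d : ℝ) ^ 4 *
          (Real.log (1 / (1 / 2 : ℝ) ^ 40) + d + Real.log s0 + 1) ^ 2 →
        ((C2 * (Nat.log 2 s + 1) * ((5 * κ + 2 * lam2 + 8) * (R0 + 1) + 1) : ℕ) : ℝ) ≤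
          (K : ℝ) ^ e * Real.sqrt (s * lam) := by
  obtain ⟨K1, hK1⟩ := ev_bd (100 + C1 + (C2 + 2) + Real.log (C2 + 2)) (5 + e) (e / 200) (by positivity)
  refine ⟨max K1 1, fun K s lam hK hlam hls hsK => ?_⟩
  have hK' := hK1 K ((le_max_left _ _).trans hK)
  have hKn : 1 ≤ K := (le_max_right _ _).trans hK
  have hK1r : (1 : ℝ) ≤ K := by exact_mod_cast hKn
  have hK0r : (0 : ℝ) < K := by linarith
  have hs : 1 ≤ s := hlam.trans hls
  have hs1 : (1 : ℝ) ≤ s := by exact_mod_cast hs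
  have hs0 : (0 : ℝ) < s := by linarith
  have hlam1 : (1 : ℝ) ≤ lam := by exact_mod_cast hlam
  have hlam0 : (0 : ℝ) < lam := by linarith
  obtain ⟨x, hx⟩ : ∃ x : ℝ, x = (K : ℝ) ^ (e / 200) := ⟨_, rfl⟩
  obtain ⟨L, hL⟩ : ∃ L : ℝ, L = Real.log K := ⟨_, rfl⟩
  have hL0 : 0 ≤ L := by
    rw [hL]
    exact Real.log_nonneg hK1r
  have hC2 : (0 : ℝ) ≤ C2 := Nat.cast_nonneg C2
  have hlC2 : 0 ≤ Real.log (C2 + 2 : ℝ) := Real.log_nonneg (by linarith)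
  rw [← hx, ← hL] at hK'
  have heL : 0 ≤ (5 + e) * L := by positivity
  have hx100 : 100 ≤ x := by linarith
  have hxC1 : C1 ≤ x := by linarith
  have hxC2 : (C2 : ℝ) + 2 ≤ x := by linarith
  have heL1 : 0 ≤ e * L := by positivity
  have hexp : (5 + e) * L = 5 * L + e * L := by ring
  have hexp2 : (2 + e) * L = 2 * L + e * L := by ring
  rw [hexp] at hK' heL
  have hxL : 1 + 3 * L ≤ x := by linarith
  have hxL2 : Real.log (C2 + 2 : ℝ) + (2 + e) * L ≤ x := by rw [hexp2]; linarith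
  have hx0 : 0 < x := by linarith
  have hls' : Real.log s ≤ 2 * L := by
    have h1 := Real.log_le_log hs0 hsK
    rw [Real.log_pow, ← hL] at h1
    simpa using h1
  -- the logarithm to the base two
  have hl2 : ((Nat.log 2 s : ℕ) : ℝ) + 1 ≤ x := by
    have h1 : (2 : ℝ) ^ (Nat.log 2 s) ≤ s := by
      exact_mod_cast Nat.pow_log_le_self 2 (by omega)
    have h2 := Real.log_le_log (by positivity) h1
    rw [Real.log_pow] at h2
    have h3 := Real.log_two_gt_d9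
    have h4 : (0 : ℝ) ≤ (Nat.log 2 s : ℕ) := Nat.cast_nonneg _
    have h5 : ((Nat.log 2 s : ℕ) : ℝ) * 0.69 ≤ ((Nat.log 2 s : ℕ) : ℝ) * Real.log 2 :=
      mul_le_mul_of_nonneg_left (by linarith) h4
    linarith
  obtain ⟨l, hl⟩ : ∃ l : ℕ, l = Nat.log 2 s + 1 := ⟨_, rfl⟩
  rw [← hl]
  have hl2' : (l : ℝ) ≤ x := by
    rw [hl]
    push_cast
    exact hl2
  have hl1 : 1 ≤ l := by omega
  have hl1r : (1 : ℝ) ≤ l := by exact_mod_cast hl1
  have hsl : s < 2 ^ l := by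
    rw [hl]
    exact Nat.lt_pow_succ_log_self (by norm_num) s
  obtain ⟨S, hS⟩ : ∃ S : ℕ, S = ⌈((C2 : ℝ) + 1) * (s : ℝ) ^ (1 + e / 2)⌉₊ := ⟨_, rfl⟩
  have hsp : (s : ℝ) ≤ (s : ℝ) ^ (1 + e / 2) := by
    have h1 : (s : ℝ) ^ (1 : ℝ) ≤ (s : ℝ) ^ (1 + e / 2) :=
      Real.rpow_le_rpow_of_exponent_le hs1 (by linarith)
    rwa [Real.rpow_one] at h1
  have hsp0 : (0 : ℝ) < (s : ℝ) ^ (1 + e / 2) := by linarith
  have hS1 : ((C2 : ℝ) + 1) * (s : ℝ) ^ (1 + e / 2) ≤ S := by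
    rw [hS]
    exact Nat.le_ceil _
  have hS2 : (S : ℝ) ≤ ((C2 : ℝ) + 2) * (s : ℝ) ^ (1 + e / 2) := by
    have h1 : (S : ℝ) < ((C2 : ℝ) + 1) * (s : ℝ) ^ (1 + e / 2) + 1 := by
      rw [hS]
      exact Nat.ceil_lt_add_one (by positivity)
    have h2 : ((C2 : ℝ) + 2) * (s : ℝ) ^ (1 + e / 2) =
        ((C2 : ℝ) + 1) * (s : ℝ) ^ (1 + e / 2) + (s : ℝ) ^ (1 + e / 2) := by ring
    linarith
  have hSp : ((C2 : ℝ) + 1) * (s : ℝ) ^ (1 + e / 2) =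
      (C2 : ℝ) * (s : ℝ) ^ (1 + e / 2) + (s : ℝ) ^ (1 + e / 2) := by ring
  have hCp : 0 ≤ (C2 : ℝ) * (s : ℝ) ^ (1 + e / 2) := mul_nonneg hC2 hsp0.le
  have hsS : s ≤ S := by
    have h1 : (s : ℝ) ≤ S := by linarith
    exact_mod_cast h1
  have hlS : lam ≤ S := hls.trans hsS
  have hSpos : 1 ≤ S := hs.trans hsS
  obtain ⟨s0, hs0'⟩ : ∃ s0 : ℕ, s0 = S / lam := ⟨_, rfl⟩
  have hs01 : 1 ≤ s0 := by
    rw [hs0']
    exact Nat.div_pos hlS (by omega)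
  have hs0S : s0 ≤ S := by
    rw [hs0']
    exact Nat.div_le_self _ _
  have hlams0 : lam * s0 ≤ S := by
    rw [hs0']
    exact Nat.mul_div_le S lam
  have hSlam : S ≤ 2 * lam * s0 := by
    have h1 : S < lam * (s0 + 1) := by
      rw [hs0']
      exact Nat.lt_mul_div_succ S (by omega)
    have h2 : lam * (s0 + 1) = lam * s0 + lam := by ring
    have h3 : 2 * lam * s0 = 2 * (lam * s0) := by ring
    have h4 : lam * 1 ≤ lam * s0 := Nat.mul_le_mul_left _ hs01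
    omega
  obtain ⟨lam2, hlam2⟩ : ∃ lam2 : ℕ, lam2 = lam + C2 * l + C2 := ⟨_, rfl⟩
  obtain ⟨d, hd⟩ : ∃ d : ℕ, d = C2 * l + 1 := ⟨_, rfl⟩
  obtain ⟨κ, hκ⟩ : ∃ κ : ℕ, κ = 1 + 4 * d * lam := ⟨_, rfl⟩
  refine ⟨lam2, S, d, s0, κ, hs01, hs0S, by omega, by omega, ?_, ?_, ?_, ?_⟩
  · linarith
  · rw [hκ]
    have h1 : 2 * d * S ≤ 2 * d * (2 * lam * s0) := Nat.mul_le_mul_left _ hSlam
    calc s0 + 2 * d * S ≤ s0 + 2 * d * (2 * lam * s0) := Nat.add_le_add_left h1 _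
      _ = (1 + 4 * d * lam) * s0 := by ring
  · have h1 : (C2 : ℝ) ≤ 2 ^ C2 := by exact_mod_cast (Nat.lt_two_pow_self).le
    have h2 : (s : ℝ) ^ C2 ≤ 2 ^ (C2 * l) := by
      have h3 : (s : ℝ) ≤ 2 ^ l := by exact_mod_cast hsl.le
      calc (s : ℝ) ^ C2 ≤ (2 ^ l) ^ C2 := pow_le_pow_left₀ hs0.le h3 C2
        _ = 2 ^ (C2 * l) := by rw [← pow_mul, mul_comm]
    have h3 : (C2 : ℝ) * (s : ℝ) ^ C2 ≤ 2 ^ C2 * 2 ^ (C2 * l) :=
      mul_le_mul h1 h2 (by positivity) (by positivity)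
    calc (C2 : ℝ) * (s : ℝ) ^ C2 * (1 / 2 : ℝ) ^ lam2
        ≤ 2 ^ C2 * 2 ^ (C2 * l) * (1 / 2 : ℝ) ^ lam2 :=
          mul_le_mul_of_nonneg_right h3 (by positivity)
      _ = (1 / 2 : ℝ) ^ lam := by
          rw [hlam2, pow_add, pow_add]
          have e1 : (2 : ℝ) ^ C2 * (1 / 2) ^ C2 = 1 := by
            rw [← mul_pow]
            norm_num
          have e2 : (2 : ℝ) ^ (C2 * l) * (1 / 2) ^ (C2 * l) = 1 := by
            rw [← mul_pow]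
            norm_num
          calc (2 : ℝ) ^ C2 * 2 ^ (C2 * l) * ((1 / 2) ^ lam * (1 / 2) ^ (C2 * l) * (1 / 2) ^ C2)
              = (1 / 2) ^ lam * ((2 : ℝ) ^ C2 * (1 / 2) ^ C2) *
                ((2 : ℝ) ^ (C2 * l) * (1 / 2) ^ (C2 * l)) := by ring
            _ = (1 / 2) ^ lam := by rw [e1, e2, mul_one, mul_one]
  · intro R0 hR0
    have hs01r : (1 : ℝ) ≤ s0 := by exact_mod_cast hs01
    have hx1 : 1 ≤ x := by linarith
    have hxx : 1 ≤ x ^ 2 := one_le_pow₀ hx1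
    have hxx2 : x ≤ x ^ 2 := by
      have h1 : x * 1 ≤ x * x := mul_le_mul_of_nonneg_left hx1 hx0.le
      have h2 : x * x = x ^ 2 := by ring
      linarith
    -- the numbers
    have hdr : (d : ℝ) ≤ x ^ 2 := by
      rw [hd]
      push_cast
      have h1 : ((C2 : ℝ) + 2) * l = (C2 : ℝ) * l + 2 * l := by ring
      have h2 : ((C2 : ℝ) + 2) * l ≤ x * x := mul_le_mul hxC2 hl2' (by linarith) hx0.le
      have h3 : x * x = x ^ 2 := by ring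
      linarith
    have hd0 : (0 : ℝ) ≤ d := Nat.cast_nonneg d
    have hκr : (κ : ℝ) ≤ x ^ 3 * lam := by
      rw [hκ]
      push_cast
      have h1 : 4 * (d : ℝ) * lam ≤ 4 * x ^ 2 * lam := by
        apply mul_le_mul_of_nonneg_right _ hlam0.le
        linarith
      have h2 : 1 ≤ x ^ 2 * lam := one_le_mul_of_one_le_of_one_le hxx hlam1
      have h3 : 5 * (x ^ 2 * lam) ≤ x * (x ^ 2 * lam) :=
        mul_le_mul_of_nonneg_right (by linarith) (by linarith)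
      calc 1 + 4 * (d : ℝ) * lam ≤ 5 * (x ^ 2 * lam) := by linarith
        _ ≤ x * (x ^ 2 * lam) := h3
        _ = x ^ 3 * lam := by ring
    have hlam2r : (lam2 : ℝ) ≤ x ^ 3 * lam := by
      rw [hlam2]
      push_cast
      have h1 : (C2 : ℝ) * l ≤ x * x := mul_le_mul (by linarith) hl2' (by linarith) hx0.le
      have h2 : (C2 : ℝ) ≤ x ^ 2 := by linarith
      have h3 : (lam : ℝ) ≤ x ^ 2 * lam := le_mul_of_one_le_left hlam0.le hxx
      have h4 : x ^ 2 ≤ x ^ 2 * lam := le_mul_of_one_le_right (by linarith) hlam1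
      have h5 : 3 * (x ^ 2 * lam) ≤ x * (x ^ 2 * lam) :=
        mul_le_mul_of_nonneg_right (by linarith) (by positivity)
      have h6 : x * x = x ^ 2 := by ring
      calc (lam : ℝ) + C2 * l + C2 ≤ 3 * (x ^ 2 * lam) := by linarith
        _ ≤ x * (x ^ 2 * lam) := h5
        _ = x ^ 3 * lam := by ring
    have hA : 5 * (κ : ℝ) + 2 * lam2 + 8 ≤ x ^ 4 * lam := by
      have h2 : 1 ≤ x ^ 3 * lam := one_le_mul_of_one_le_of_one_le (one_le_pow₀ hx1) hlam1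
      have h5 : 15 * (x ^ 3 * lam) ≤ x * (x ^ 3 * lam) :=
        mul_le_mul_of_nonneg_right (by linarith) (by linarith)
      calc 5 * (κ : ℝ) + 2 * lam2 + 8 ≤ 15 * (x ^ 3 * lam) := by linarith
        _ ≤ x * (x ^ 3 * lam) := h5
        _ = x ^ 4 * lam := by ring
    -- the logarithms
    have hlog1 : Real.log (1 / (1 / 2 : ℝ) ^ 40) ≤ x := by
      have h1 : (1 / (1 / 2 : ℝ) ^ 40) = 2 ^ 40 := by norm_num
      rw [h1, Real.log_pow]
      have h2 := Real.log_two_lt_d9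
      push_cast
      linarith
    have hlog10 : 0 ≤ Real.log (1 / (1 / 2 : ℝ) ^ 40) := by
      have h1 : (1 / (1 / 2 : ℝ) ^ 40) = 2 ^ 40 := by norm_num
      rw [h1]
      exact Real.log_nonneg (by norm_num)
    have hlogs0 : Real.log s0 ≤ x := by
      have h1 : (s0 : ℝ) ≤ ((C2 : ℝ) + 2) * (s : ℝ) ^ (1 + e / 2) := by
        have h2 : (s0 : ℝ) ≤ S := by exact_mod_cast hs0S
        linarith
      have h2 := Real.log_le_log (by linarith) h1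
      rw [Real.log_mul (by linarith) hsp0.ne', Real.log_rpow hs0] at h2
      have h3 : (1 + e / 2) * Real.log s ≤ (1 + e / 2) * (2 * L) :=
        mul_le_mul_of_nonneg_left hls' (by linarith)
      have h4 : (1 + e / 2) * (2 * L) = (2 + e) * L := by ring
      rw [h4] at h3
      linarith
    have hlogs00 : 0 ≤ Real.log s0 := Real.log_nonneg hs01r
    obtain ⟨W, hW⟩ : ∃ W : ℝ, W = Real.log (1 / (1 / 2 : ℝ) ^ 40) + d + Real.log s0 + 1 := ⟨_, rfl⟩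
    rw [← hW] at hR0
    have hW0 : 0 ≤ W := by
      rw [hW]
      linarith
    have hW1 : W ≤ x ^ 3 := by
      rw [hW]
      have h5 : 4 * x ^ 2 ≤ x * x ^ 2 := mul_le_mul_of_nonneg_right (by linarith) (by positivity)
      have h6 : x * x ^ 2 = x ^ 3 := by ring
      linarith
    obtain ⟨q, hq⟩ : ∃ q : ℝ, q = Real.sqrt s0 := ⟨_, rfl⟩
    have hq1 : 1 ≤ q := by
      rw [hq]
      exact Real.one_le_sqrt.2 hs01r
    rw [← hq] at hR0
    have hR1 : (R0 : ℝ) ≤ x ^ 15 * q := by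
      refine hR0.trans ?_
      have h1 : (d : ℝ) ^ 4 ≤ (x ^ 2) ^ 4 := pow_le_pow_left₀ hd0 hdr 4
      have h2 : W ^ 2 ≤ (x ^ 3) ^ 2 := pow_le_pow_left₀ hW0 hW1 2
      calc C1 * q * (d : ℝ) ^ 4 * W ^ 2 ≤ x * q * (x ^ 2) ^ 4 * (x ^ 3) ^ 2 := by
            gcongr
        _ = x ^ 15 * q := by ring
    have hR2 : (R0 : ℝ) + 1 ≤ x ^ 16 * q := by
      have h1 : 1 ≤ x ^ 15 * q := one_le_mul_of_one_le_of_one_le (one_le_pow₀ hx1) hq1
      have h5 : 2 * (x ^ 15 * q) ≤ x * (x ^ 15 * q) :=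
        mul_le_mul_of_nonneg_right (by linarith) (by linarith)
      calc (R0 : ℝ) + 1 ≤ 2 * (x ^ 15 * q) := by linarith
        _ ≤ x * (x ^ 15 * q) := h5
        _ = x ^ 16 * q := by ring
    -- the product
    have hP : (C2 : ℝ) * l * ((5 * (κ : ℝ) + 2 * lam2 + 8) * (R0 + 1) + 1) ≤
        x ^ 23 * (lam * q) := by
      have h1 : (5 * (κ : ℝ) + 2 * lam2 + 8) * (R0 + 1) ≤ (x ^ 4 * lam) * (x ^ 16 * q) :=
        mul_le_mul hA hR2 (by positivity) (by positivity)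
      have h2 : (1 : ℝ) ≤ (x ^ 4 * lam) * (x ^ 16 * q) :=
        one_le_mul_of_one_le_of_one_le
          (one_le_mul_of_one_le_of_one_le (one_le_pow₀ hx1) hlam1)
          (one_le_mul_of_one_le_of_one_le (one_le_pow₀ hx1) hq1)
      have h3 : (5 * (κ : ℝ) + 2 * lam2 + 8) * (R0 + 1) + 1 ≤ x * ((x ^ 4 * lam) * (x ^ 16 * q)) := by
        have h4 : 2 * ((x ^ 4 * lam) * (x ^ 16 * q)) ≤ x * ((x ^ 4 * lam) * (x ^ 16 * q)) :=
          mul_le_mul_of_nonneg_right (by linarith) (by linarith)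
        linarith
      have h4 : (C2 : ℝ) * l ≤ x * x := mul_le_mul (by linarith) hl2' (by linarith) hx0.le
      have h5 : (C2 : ℝ) * l * ((5 * (κ : ℝ) + 2 * lam2 + 8) * (R0 + 1) + 1) ≤
          (x * x) * (x * ((x ^ 4 * lam) * (x ^ 16 * q))) :=
        mul_le_mul h4 h3 (by positivity) (by positivity)
      refine h5.trans (le_of_eq ?_)
      ring
    obtain ⟨w, hw⟩ : ∃ w : ℝ, w = (K : ℝ) ^ (e / 2) := ⟨_, rfl⟩
    have hw1 : 1 ≤ w := by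
      rw [hw]
      exact Real.one_le_rpow hK1r (by linarith)
    have hlq : (lam : ℝ) * q ≤ x * w * Real.sqrt (s * lam) := by
      have h1 : (lam : ℝ) * q = Real.sqrt (lam ^ 2 * s0) := by
        rw [Real.sqrt_mul (by positivity), Real.sqrt_sq hlam0.le, hq]
      have h2 : x * w * Real.sqrt (s * lam) = Real.sqrt ((x * w) ^ 2 * (s * lam)) := by
        rw [Real.sqrt_mul (sq_nonneg (x * w)) ((s : ℝ) * lam), Real.sqrt_sq (by positivity)]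
      rw [h1, h2]
      apply Real.sqrt_le_sqrt
      have h3 : (lam : ℝ) * s0 ≤ S := by exact_mod_cast hlams0
      have h4 : (s : ℝ) ^ (1 + e / 2) = s * (s : ℝ) ^ (e / 2) := by
        rw [Real.rpow_add hs0, Real.rpow_one]
      have h5 : (s : ℝ) ^ (e / 2) ≤ w ^ 2 := by
        calc (s : ℝ) ^ (e / 2) ≤ ((K : ℝ) ^ 2) ^ (e / 2) := Real.rpow_le_rpow hs0.le hsK (by linarith)
          _ = w ^ 2 := by
            rw [hw, ← Real.rpow_natCast, ← Real.rpow_mul hK0r.le, ← Real.rpow_natCast,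
              ← Real.rpow_mul hK0r.le]
            congr 1
            ring
      have h6 : (C2 : ℝ) + 2 ≤ x ^ 2 := by linarith
      have h7 : (S : ℝ) ≤ x ^ 2 * (s * w ^ 2) := by
        refine hS2.trans ?_
        rw [h4]
        exact mul_le_mul h6 (mul_le_mul_of_nonneg_left h5 hs0.le) (by positivity) (by positivity)
      calc (lam : ℝ) ^ 2 * s0 = lam * (lam * s0) := by ring
        _ ≤ lam * (x ^ 2 * (s * w ^ 2)) := mul_le_mul_of_nonneg_left (h3.trans h7) hlam0.le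
        _ = (x * w) ^ 2 * (s * lam) := by ring
    have hpow : x ^ 24 * w ≤ (K : ℝ) ^ e := by
      rw [hx, hw, ← Real.rpow_natCast, ← Real.rpow_mul hK0r.le, ← Real.rpow_add hK0r]
      apply Real.rpow_le_rpow_of_exponent_le hK1r
      push_cast
      linarith
    push_cast
    calc (C2 : ℝ) * l * ((5 * (κ : ℝ) + 2 * lam2 + 8) * (R0 + 1) + 1)
        ≤ x ^ 23 * (lam * q) := hP
      _ ≤ x ^ 23 * (x * w * Real.sqrt (s * lam)) := mul_le_mul_of_nonneg_left hlq (by positivity)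
      _ = (x ^ 24 * w) * Real.sqrt (s * lam) := by ring
      _ ≤ (K : ℝ) ^ e * Real.sqrt (s * lam) :=
        mul_le_mul_of_nonneg_right hpow (Real.sqrt_nonneg _)

end Pool.H6.QR
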