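import Mathlib
import Pool.Agent.H6.QR.Mx2
import Pool.Agent.H6.QR.Nm4
import Pool.Agent.H6.QL.HomZ

set_option autoImplicit false

/-!
# THEOREM QL: the approximate valuations with degree `sqrt (s lam)` and error `2 ^ (- lam)`
-/

namespace Pool.H6.QR

open Finset Pool.Agent.H3.Frg Pool.Agent.H81.QG Pool.Agent.H24.QL Pool.H6.QL

theorem master2 (e : ℝ) (he : 0 < e) : ∃ K0 : ℕ, ∀ (m n K : ℕ)
    (Gam : Set (List (Fin n × Bool))) (X : Option (Fin n) → Op (EuclideanSpace ℝ (Fin m)))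
    (L : ℕ → Submodule ℝ (EuclideanSpace ℝ (Fin m)))
    (cl : Rn n →ₗ[ℝ] EuclideanSpace ℝ (Fin m)) (dg : ℕ → Submodule ℝ (Rn n)),
    RW n K Gam X L cl dg → K0 ≤ K → ∀ s lam : ℕ, 1 ≤ lam → lam ≤ s → (s : ℝ) ≤ (K : ℝ) ^ 2 →
    ∃ (V : Fm (Fin n) → Rn n) (Wd : ℕ), (Wd : ℝ) ≤ (K : ℝ) ^ e * Real.sqrt (s * lam) ∧
      ∀ k, k + Wd ≤ K → VI cl dg V yy Wd s k ((1 / 2 : ℝ) ^ lam) := by
  obtain ⟨C1, hC1, hB⟩ := bhom_exists
  obtain ⟨C2, hC2⟩ := vi2 (e / 2) (by positivity)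
  obtain ⟨K0, hK0⟩ := num4 e he C1 C2 hC1
  refine ⟨K0, ?_⟩
  intro m n K Gam X L cl dg hRW hK s lam hlam hls hsK
  obtain ⟨lam2, S, d, s0, κ, h1, h2, h3, h4, h5, h6, h7, h8⟩ := hK0 K s lam hK hlam hls hsK
  obtain ⟨R0, T, hR0, hT⟩ := hB (EuclideanSpace ℝ (Fin m)) (Option (Fin n)) X L K hRW.wld
    s0 d ((1 / 2 : ℝ) ^ 40) h1 h3 (by positivity) (by norm_num)
  obtain ⟨V, hV⟩ := hC2 (EuclideanSpace ℝ (Fin m)) n K Gam X L cl dg hRW s lam2 S d s0 κ R0 T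
    (hlam.trans hls) h1 h2 h4 h5 h6 hT
  refine ⟨V, _, h8 R0 hR0, fun k hk => ?_⟩
  have h := hV k hk
  exact
    { deg := h.deg
      degy := h.degy
      idy := h.idy
      idem := fun F hF p hp => (h.idem F hF p hp).trans
        (mul_le_mul_of_nonneg_right h7 (norm_nonneg _))
      var := fun i p hp => (h.var i p hp).trans
        (mul_le_mul_of_nonneg_right h7 (norm_nonneg _))
      neg := fun F hF p hp => (h.neg F hF p hp).trans
        (mul_le_mul_of_nonneg_right h7 (norm_nonneg _))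
      imp := fun A B hF p hp => (h.imp A B hF p hp).trans
        (mul_le_mul_of_nonneg_right h7 (norm_nonneg _)) }

end Pool.H6.QR
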