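import Mathlib
import Pool.Agent.H6.QR.Mst2
import Pool.Agent.H6.QR.Exv
import Pool.Agent.H6.QR.Fnb
import Pool.Agent.H6.QL.Stm2
import Pool.Agent.H6.QL.Sps
import Pool.Agent.H6.QL.Tau
import Pool.Agent.H90.QL.Rg

set_option autoImplicit false

/-!
# THEOREM QL: the general theorem, strong form
-/

namespace Pool.H6.QR

open Finset Classical Pool.Agent.H3.Frg Pool.Agent.H3.Frg2 Pool.Agent.H3.Frg4 Pool.Agent.H81.QG
  Pool.H6.QL

open Filter in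
private theorem num5 (e : ℝ) (he : 0 < e) : ∃ δ : ℝ, 0 < δ ∧ ∃ K0 : ℕ, ∀ K : ℕ, K0 ≤ K →
    1 ≤ (K : ℝ) ∧ 1 ≤ (K : ℝ) ^ δ ∧ 3 ≤ (K : ℝ) ^ (e / 2) ∧
    (Nat.log 2 K : ℝ) + 10 ≤ (K : ℝ) ^ δ ∧
    200 * (K : ℝ) ^ δ * (K : ℝ) ^ δ * ((K : ℝ) ^ (e / 8) * (K : ℝ) ^ (1 - e / 2)) ≤ K := by
  obtain ⟨δ, hδ⟩ : ∃ δ, δ = e / 32 := ⟨_, rfl⟩
  have hδ0 : 0 < δ := by rw [hδ]; positivity
  have hr : ∀ a : ℝ, 0 < a → ∀ b : ℝ, ∀ᶠ K : ℕ in atTop, b ≤ (K : ℝ) ^ a := fun a ha b =>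
    ((tendsto_rpow_atTop ha).comp tendsto_natCast_atTop_atTop).eventually_ge_atTop b
  have hlog : ∀ᶠ K : ℕ in atTop, Real.log K ≤ (K : ℝ) ^ (δ / 2) := by
    have h1 := (isLittleO_log_rpow_atTop (by positivity : 0 < δ / 2)).comp_tendsto
      tendsto_natCast_atTop_atTop
    have h2 := h1.bound (c := 1) one_pos
    filter_upwards [h2] with K hK
    simp only [Function.comp_apply, Real.norm_eq_abs, one_mul] at hK
    have h3 : |(K : ℝ) ^ (δ / 2)| = (K : ℝ) ^ (δ / 2) := abs_of_nonneg (by positivity)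
    rw [h3] at hK
    exact (le_abs_self _).trans hK
  obtain ⟨K0, hK0⟩ := eventually_atTop.mp
    ((hr 1 one_pos 1).and ((hr (δ / 2) (by positivity) 20).and
      ((hr (e / 2) (by positivity) 3).and ((hr (e / 4) (by positivity) 200).and hlog))))
  refine ⟨δ, hδ0, K0, fun K hK => ?_⟩
  obtain ⟨h1, h2, h3, h4, h5⟩ := hK0 K hK
  rw [Real.rpow_one] at h1
  have hKpos : (0 : ℝ) < K := by linarith
  have e1 : (K : ℝ) ^ δ = (K : ℝ) ^ (δ / 2) * (K : ℝ) ^ (δ / 2) := by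
    rw [← Real.rpow_add hKpos]
    congr 1
    ring
  refine ⟨h1, ?_, h3, ?_, ?_⟩
  · rw [e1]
    nlinarith
  · have h6 : (Nat.log 2 K : ℝ) ≤ Real.logb 2 K := Real.natLog_le_logb K 2
    have h7 : Real.logb 2 K = Real.log K / Real.log 2 := rfl
    have h8 : 0.69 < Real.log 2 := by
      have := Real.log_two_gt_d9
      linarith
    have h9 : Real.log K / Real.log 2 ≤ 2 * (K : ℝ) ^ (δ / 2) := by
      rw [div_le_iff₀ (by linarith)]
      nlinarith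
    rw [e1]
    nlinarith
  · have e2 : (K : ℝ) ^ δ * (K : ℝ) ^ δ * ((K : ℝ) ^ (e / 8) * (K : ℝ) ^ (1 - e / 2)) ≤
        (K : ℝ) ^ (1 - e / 4) := by
      rw [← Real.rpow_add hKpos, ← Real.rpow_add hKpos, ← Real.rpow_add hKpos]
      refine Real.rpow_le_rpow_of_exponent_le h1 ?_
      rw [hδ]
      linarith
    have e3 : (K : ℝ) ^ (e / 4) * (K : ℝ) ^ (1 - e / 4) = K := by
      rw [← Real.rpow_add hKpos]
      have : e / 4 + (1 - e / 4) = 1 := by ring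
      rw [this, Real.rpow_one]
    have e4 : 0 < (K : ℝ) ^ (1 - e / 4) := Real.rpow_pos_of_pos hKpos _
    calc 200 * (K : ℝ) ^ δ * (K : ℝ) ^ δ * ((K : ℝ) ^ (e / 8) * (K : ℝ) ^ (1 - e / 2))
        = 200 * ((K : ℝ) ^ δ * (K : ℝ) ^ δ * ((K : ℝ) ^ (e / 8) * (K : ℝ) ^ (1 - e / 2))) := by ring
      _ ≤ 200 * (K : ℝ) ^ (1 - e / 4) := by linarith
      _ ≤ (K : ℝ) ^ (e / 4) * (K : ℝ) ^ (1 - e / 4) := mul_le_mul_of_nonneg_right h4 e4.le
      _ = K := e3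

private theorem setup2 (e : ℝ) (he : 0 < e) : ∃ δ : ℝ, 0 < δ ∧ ∃ K0 : ℕ, ∀ K : ℕ, K0 ≤ K →
    (1 ≤ (K : ℝ) ∧ 1 ≤ (K : ℝ) ^ δ ∧ 3 ≤ (K : ℝ) ^ (e / 2) ∧
      (Nat.log 2 K : ℝ) + 10 ≤ (K : ℝ) ^ δ) ∧
    ∀ (n : ℕ) (Γ : Set (List (Fin n × Bool))), PE n K Γ →
    (∀ c ∈ Γ, (c.length : ℝ) ≤ (K : ℝ) ^ δ) →
    ∀ (s lam : ℕ) (q : ℝ), 1 ≤ s → 1 ≤ q → (s : ℝ) * q < (K : ℝ) ^ (2 - e) → 1 ≤ lam →
    (lam : ℝ) ≤ 60 * (K : ℝ) ^ δ * q →
    ∃ (m : ℕ) (cl : Rn n →ₗ[ℝ] EuclideanSpace ℝ (Fin m)) (dg : ℕ → Submodule ℝ (Rn n))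
      (V : Fm (Fin n) → Rn n) (W : ℕ), Liar cl dg K ∧ 1 ≤ W ∧
      (12 * ⌊(K : ℝ) ^ δ⌋₊ + 10) * W ≤ K ∧
      ∀ k, k + 2 * W + 4 * ⌊(K : ℝ) ^ δ⌋₊ ≤ K →
        VI cl dg V yy W s k ((1 / 2 : ℝ) ^ lam) ∧
        ∀ A ∈ Cls Γ, A.len ≤ 4 * ⌊(K : ℝ) ^ δ⌋₊ ∧ ∀ p ∈ dg k, cl ((1 - ev yy A) * p) = 0 := by
  obtain ⟨K1, hM⟩ := master2 (e / 8) (by positivity)
  obtain ⟨δ, hδ, K2, hN⟩ := num5 e he
  refine ⟨δ, hδ, max K1 K2, fun K hK => ?_⟩
  have hK1 : K1 ≤ K := (le_max_left _ _).trans hK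
  obtain ⟨n1, n2, n3, n4, n5⟩ := hN K ((le_max_right _ _).trans hK)
  refine ⟨⟨n1, n2, n3, n4⟩, ?_⟩
  intro n Γ hPE hΓ s lam q hs hq hsq hlam hlq
  obtain ⟨x, hx⟩ : ∃ x, x = (K : ℝ) ^ δ := ⟨_, rfl⟩
  rw [← hx] at n2 n4 n5 hΓ hlq ⊢
  have hKpos : (0 : ℝ) < K := by linarith
  obtain ⟨m, X, L, cl, dg, hRW⟩ := Pool.H90.QL.rw_exists hPE
  have hL := hRW.liar
  have hax : ∀ (W k : ℕ), k + 2 * W + 4 * ⌊x⌋₊ ≤ K → ∀ A ∈ Cls Γ, A.len ≤ 4 * ⌊x⌋₊ ∧
      ∀ p ∈ dg k, cl ((1 - ev yy A) * p) = 0 := by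
    rintro W k hk A ⟨a, c, hac, rfl⟩
    have h1 : (c.length + 1 : ℕ) ≤ ⌊x⌋₊ := by
      apply Nat.le_floor
      have := hΓ _ hac
      rw [List.length_cons] at this
      exact this
    refine ⟨(len_clF a c).trans (Nat.mul_le_mul_left 4 h1), ?_⟩
    intro p hp
    rw [ev_clF]
    refine hRW.null _ hac k ?_ p hp
    rw [List.length_cons]
    omega
  have hs1 : (1 : ℝ) ≤ s := by exact_mod_cast hs
  have hq0 : (0 : ℝ) < q := by linarith
  have hlam1 : (1 : ℝ) ≤ lam := by exact_mod_cast hlam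
  have hK2e : (K : ℝ) ^ (2 - e) = (K : ℝ) ^ (1 - e / 2) * (K : ℝ) ^ (1 - e / 2) := by
    rw [← Real.rpow_add hKpos]
    congr 1
    ring
  obtain ⟨z, hz⟩ : ∃ z, z = (K : ℝ) ^ (1 - e / 2) := ⟨_, rfl⟩
  obtain ⟨w, hw⟩ : ∃ w, w = (K : ℝ) ^ (e / 8) := ⟨_, rfl⟩
  rw [← hz] at hK2e n5
  rw [← hw] at n5
  have hz0 : 0 ≤ z := by rw [hz]; positivity
  have hw1 : 1 ≤ w := by rw [hw]; exact Real.one_le_rpow n1 (by positivity)
  have hz1 : 1 ≤ z := by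
    have h1 : 1 ≤ (s : ℝ) * q := by nlinarith
    rw [hK2e] at hsq
    nlinarith
  have hfl : (⌊x⌋₊ : ℝ) ≤ x := Nat.floor_le (by linarith)
  have hbound : ∀ W : ℕ, (W : ℝ) ≤ 9 * x * (w * z) → (12 * ⌊x⌋₊ + 10) * W ≤ K := by
    intro W hW
    have h1 : (((12 * ⌊x⌋₊ + 10) * W : ℕ) : ℝ) ≤ K := by
      push_cast
      have h2 : 12 * (⌊x⌋₊ : ℝ) + 10 ≤ 22 * x := by linarith
      have h3 : (12 * (⌊x⌋₊ : ℝ) + 10) * W ≤ 22 * x * (9 * x * (w * z)) :=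
        mul_le_mul h2 hW (Nat.cast_nonneg _) (by linarith)
      have h4 : 0 ≤ x * x * (w * z) := by positivity
      nlinarith
    exact_mod_cast h1
  have hslam : (s : ℝ) * lam ≤ 60 * x * (z * z) := by
    have h1 : (s : ℝ) * lam ≤ s * (60 * x * q) := mul_le_mul_of_nonneg_left hlq (by linarith)
    have h2 : (s : ℝ) * (60 * x * q) = 60 * x * (s * q) := by ring
    have h3 : 60 * x * ((s : ℝ) * q) ≤ 60 * x * (z * z) :=
      mul_le_mul_of_nonneg_left (by rw [← hK2e]; exact hsq.le) (by linarith)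
    linarith
  have hsqrt : Real.sqrt (60 * x * (z * z)) ≤ 8 * x * z := by
    rw [Real.sqrt_le_left (by positivity)]
    have h1 : 0 ≤ z * z * x := by positivity
    nlinarith
  by_cases hls : lam ≤ s
  · have hsK : (s : ℝ) ≤ (K : ℝ) ^ 2 := by
      have h1 : (K : ℝ) ^ (2 - e) ≤ (K : ℝ) ^ 2 := by
        rw [← Real.rpow_natCast]
        exact Real.rpow_le_rpow_of_exponent_le n1 (by push_cast; linarith)
      nlinarith
    obtain ⟨V, Wd, hWd, hVI⟩ := hM m n K Γ X L cl dg hRW hK1 s lam hlam hls hsK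
    rw [← hw] at hWd
    refine ⟨m, cl, dg, V, Wd + 1, hL, by omega, hbound _ ?_, fun k hk => ⟨?_, hax _ k hk⟩⟩
    · have h1 : Real.sqrt ((s : ℝ) * lam) ≤ 8 * x * z :=
        (Real.sqrt_le_sqrt hslam).trans hsqrt
      have h2 : w * Real.sqrt ((s : ℝ) * lam) ≤ w * (8 * x * z) :=
        mul_le_mul_of_nonneg_left h1 (by linarith)
      push_cast
      have h3 : 1 ≤ x * (w * z) := by
        have h4 : 1 * 1 ≤ w * z := mul_le_mul hw1 hz1 (by norm_num) (by linarith)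
        nlinarith
      nlinarith
    · have h := hVI k (by omega)
      exact { deg := fun F hF => hL.mono (Nat.le_succ _) (h.deg F hF)
              degy := h.degy
              idy := h.idy
              idem := h.idem
              var := h.var
              neg := h.neg
              imp := h.imp }
  · push Not at hls
    have hls' : (s : ℝ) ≤ lam := by exact_mod_cast hls.le
    refine ⟨m, cl, dg, fun F => ev (R := Rn n) yy F, s, hL, hs, hbound _ ?_,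
      fun k hk => ⟨?_, hax _ k hk⟩⟩
    · have h1 : (s : ℝ) * s ≤ 60 * x * (z * z) :=
        (mul_le_mul_of_nonneg_left hls' (by linarith)).trans hslam
      have h2 : (s : ℝ) ≤ Real.sqrt (60 * x * (z * z)) := by
        apply Real.le_sqrt_of_sq_le
        nlinarith
      have h3 : 8 * x * z ≤ 9 * x * (w * z) := by
        have h4 : x * z ≤ x * (w * z) := by
          refine mul_le_mul_of_nonneg_left ?_ (by linarith)
          nlinarith
        have h5 : 0 ≤ x * z := by positivity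
        nlinarith
      linarith
    · have h := vi_exact (K := K) hL hRW.ymem s k
      have hp : 0 ≤ (1 / 2 : ℝ) ^ lam := by positivity
      have hm : ∀ r : Rn n, Sml cl dg k 0 r → Sml cl dg k ((1 / 2 : ℝ) ^ lam) r :=
        fun r hr => hr.mono hL le_rfl hp
      exact { deg := h.deg
              degy := h.degy
              idy := h.idy
              idem := fun F hF => hm _ (h.idem F hF)
              var := fun i => hm _ (h.var i)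
              neg := fun F hF => hm _ (h.neg F hF)
              imp := fun A B hAB => hm _ (h.imp A B hAB) }

private theorem lpos {V : Type} (A : Fm V) : 1 ≤ A.leaves := by
  induction A with
  | var i => exact le_rfl
  | neg A ih => exact ih
  | imp A B ihA ihB => exact le_trans ihA (Nat.le_add_right _ _)

private theorem neg_ne {V : Type} (A : Fm V) : A ≠ .neg A := by
  intro h
  have h1 := congrArg sizeOf h
  simp at h1

private theorem pw_le (ℓ : ℕ) : (100 : ℝ) ^ ℓ ≤ 2 ^ (7 * ℓ) := by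
  rw [pow_mul]
  exact pow_le_pow_left₀ (by norm_num) (by norm_num) ℓ

/-- The size-space trade-off with a general number of steps. -/
private theorem gen1 (e : ℝ) (he : 0 < e) : ∃ δ : ℝ, 0 < δ ∧ ∃ K0 : ℕ, ∀ K : ℕ, K0 ≤ K →
    (1 ≤ (K : ℝ) ∧ 1 ≤ (K : ℝ) ^ δ ∧ 3 ≤ (K : ℝ) ^ (e / 2) ∧
      (Nat.log 2 K : ℝ) + 10 ≤ (K : ℝ) ^ δ) ∧
    ∀ (n : ℕ) (Γ : Set (List (Fin n × Bool))), PE n K Γ →
    (∀ c ∈ Γ, (c.length : ℝ) ≤ (K : ℝ) ^ δ) →
    ∀ Sch : Set (Fm ℕ), (∀ ψ ∈ Sch, (ψ.len : ℝ) ≤ (K : ℝ) ^ δ ∧ ∀ x : ℕ → Bool, ψ.eval x = true) →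
    (∀ (S T : ℕ) (M : ℕ → Finset (Fm (Fin n))), BB Sch (Cls Γ) S T M →
      (∃ A ∈ M T, Fm.neg A ∈ M T) → (K : ℝ) ^ (2 - e) ≤ S * Real.logb 2 T) ∧
    (∀ (s N N' : ℕ) (A : Fm (Fin n)), TD Sch (Cls Γ) s N A → TD Sch (Cls Γ) s N' (Fm.neg A) →
      (K : ℝ) ^ (2 - e) ≤ s * Real.logb 2 (N + N')) ∧
    (∀ (s h : ℕ) (A : Fm (Fin n)), HD Sch (Cls Γ) s h A → HD Sch (Cls Γ) s h (Fm.neg A) →
      (K : ℝ) ^ (2 - e) ≤ s * (h + 1)) := by
  obtain ⟨δ, hδ, K0, hS0⟩ := setup2 e he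
  refine ⟨δ, hδ, K0, fun K hK => ?_⟩
  obtain ⟨⟨n1, n2, n3, n4⟩, hS1⟩ := hS0 K hK
  refine ⟨⟨n1, n2, n3, n4⟩, ?_⟩
  intro n Γ hPE hΓ Sch hSch
  have hS := hS1 n Γ hPE hΓ
  have hKpos : (0 : ℝ) < K := by linarith
  obtain ⟨x, hx⟩ : ∃ x, x = (K : ℝ) ^ δ := ⟨_, rfl⟩
  rw [← hx] at n2 n4 hS
  obtain ⟨ℓ, hℓ⟩ : ∃ ℓ, ℓ = 4 * ⌊x⌋₊ := ⟨_, rfl⟩
  have hℓx : (ℓ : ℝ) ≤ 4 * x := by
    rw [hℓ]
    push_cast
    have := Nat.floor_le (show 0 ≤ x by linarith)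
    linarith
  have hℓ3 : 12 * ⌊x⌋₊ = 3 * ℓ := by rw [hℓ]; ring
  rw [hℓ3, ← hℓ] at hS
  have hSchl : ∀ ψ ∈ Sch, ψ.len ≤ ℓ ∧ ∀ y : ℕ → Bool, ψ.eval y = true := by
    intro ψ hψ
    obtain ⟨h1, h2⟩ := hSch ψ hψ
    rw [← hx] at h1
    refine ⟨?_, h2⟩
    have h3 : ψ.len ≤ ⌊x⌋₊ := Nat.le_floor h1
    omega
  have hKl : (K : ℝ) ≤ 2 ^ (Nat.log 2 K + 1) := by
    have := Nat.lt_pow_succ_log_self (by norm_num : 1 < 2) K
    exact_mod_cast this.le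
  have hK2 : (K : ℝ) ^ (2 - e) ≤ (K : ℝ) ^ 2 := by
    rw [← Real.rpow_natCast]
    exact Real.rpow_le_rpow_of_exponent_le n1 (by push_cast; linarith)
  refine ⟨?_, ?_, ?_⟩
  · -- total space
    intro S T M hM hc
    by_contra hlt
    push Not at hlt
    have hT2 : 2 ≤ T := by
      obtain ⟨A, hA, hnA⟩ := hc
      by_contra hT
      push Not at hT
      have hT1 : T = 0 ∨ T = 1 := by omega
      rcases hT1 with rfl | rfl
      · rw [hM.1] at hA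
        simp at hA
      · obtain ⟨B, hB, -⟩ := hM.2.2 0 (by norm_num)
        rw [hM.1] at hB
        have h1 : A = B := by
          rcases hB A hA with h | h
          · simp at h
          · exact h
        have h2 : Fm.neg A = B := by
          rcases hB _ hnA with h | h
          · simp at h
          · exact h
        exact neg_ne A (h1.trans h2.symm)
    have hTr : (2 : ℝ) ≤ T := by exact_mod_cast hT2
    have hS1' : 1 ≤ S := by
      obtain ⟨A, hA, _⟩ := hc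
      have h1 : A.leaves ≤ ∑ B ∈ M T, B.leaves :=
        Finset.single_le_sum (f := fun B : Fm (Fin n) => B.leaves) (fun _ _ => Nat.zero_le _) hA
      have h2 := hM.2.1 T le_rfl
      have h3 := lpos A
      omega
    have hSr : (1 : ℝ) ≤ S := by exact_mod_cast hS1'
    obtain ⟨q, hq⟩ : ∃ q, q = Real.logb 2 T := ⟨_, rfl⟩
    rw [← hq] at hlt
    have hq1 : 1 ≤ q := by
      rw [hq, Real.le_logb_iff_rpow_le (by norm_num) (by linarith), Real.rpow_one]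
      exact hTr
    obtain ⟨r, hr⟩ : ∃ r, r = ⌈q⌉₊ := ⟨_, rfl⟩
    have hrq : (r : ℝ) ≤ q + 1 := by
      rw [hr]
      exact (Nat.ceil_lt_add_one (by linarith)).le
    have hTle : (T : ℝ) ≤ 2 ^ r := by
      have h1 : (T : ℝ) = (2 : ℝ) ^ q := by
        rw [hq, Real.rpow_logb (by norm_num) (by norm_num) (by linarith)]
      rw [h1, ← Real.rpow_natCast]
      refine Real.rpow_le_rpow_of_exponent_le (by norm_num) ?_
      rw [hr]
      exact Nat.le_ceil q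
    obtain ⟨lam, hlam⟩ : ∃ lam, lam = r + 7 * ℓ + 4 * (Nat.log 2 K + 1) + 20 := ⟨_, rfl⟩
    have hlamr : (lam : ℝ) ≤ 60 * x * q := by
      rw [hlam]
      push_cast
      have h1 : q ≤ x * q := le_mul_of_one_le_left (by linarith) n2
      have h2 : x ≤ x * q := le_mul_of_one_le_right (by linarith) hq1
      nlinarith
    obtain ⟨m, cl, dg, V, W, hL, hW1, hWK, hVI⟩ := hS S lam q hS1' hq1 hlt (by omega) hlamr
    have hW2 : ℓ ≤ ℓ * W := Nat.le_mul_of_pos_right ℓ (by omega)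
    have hW3 : (3 * ℓ + 10) * W = 3 * (ℓ * W) + 10 * W := by ring
    obtain ⟨k, hk⟩ : ∃ k, k + 2 * W + ℓ = K := ⟨K - (2 * W + ℓ), by omega⟩
    obtain ⟨hVk, hAx⟩ := hVI k (by omega)
    refine fin_space hL hW1 hVk (by positivity) (by omega) (ℓ := ℓ) hSchl hAx ?_ ?_ hM hc le_rfl
    · have h1 : (2 * ℓ + 5) * W = 2 * (ℓ * W) + 5 * W := by ring
      omega
    · have h1 : (T : ℝ) + 1 ≤ 2 ^ (r + 1) := by
        rw [pow_succ]
        linarith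
      have hSK : (S : ℝ) ≤ (K : ℝ) ^ 2 := by
        have h2 : (S : ℝ) * 1 ≤ S * q := mul_le_mul_of_nonneg_left hq1 (by linarith)
        linarith
      have h2 : ((S : ℝ) + 1) ^ 2 ≤ 2 ^ (4 * (Nat.log 2 K + 1) + 2) := by
        have h3 : (S : ℝ) + 1 ≤ 2 * (2 ^ (Nat.log 2 K + 1)) ^ 2 := by
          have h4 : (K : ℝ) ^ 2 ≤ (2 ^ (Nat.log 2 K + 1)) ^ 2 :=
            pow_le_pow_left₀ hKpos.le hKl 2
          have h5 : (1 : ℝ) ≤ (2 ^ (Nat.log 2 K + 1)) ^ 2 :=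
            one_le_pow₀ (one_le_pow₀ (by norm_num))
          linarith
        calc ((S : ℝ) + 1) ^ 2 ≤ (2 * (2 ^ (Nat.log 2 K + 1)) ^ 2) ^ 2 :=
              pow_le_pow_left₀ (by linarith) h3 2
          _ = 2 ^ (4 * (Nat.log 2 K + 1) + 2) := by
              generalize Nat.log 2 K + 1 = t
              have h6 : (2 : ℝ) ^ (4 * t + 2) = (2 ^ t) ^ 4 * 4 := by
                rw [pow_add, mul_comm 4 t, pow_mul]
                norm_num
              rw [h6]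
              ring
      have h3 : 4000 * ((T : ℝ) + 1) * ((S : ℝ) + 1) ^ 2 * 100 ^ ℓ ≤
          2 ^ 12 * 2 ^ (r + 1) * 2 ^ (4 * (Nat.log 2 K + 1) + 2) * 2 ^ (7 * ℓ) := by
        have := pw_le ℓ
        gcongr
        norm_num
      have h4 : (2 : ℝ) ^ 12 * 2 ^ (r + 1) * 2 ^ (4 * (Nat.log 2 K + 1) + 2) * 2 ^ (7 * ℓ) ≤
          2 ^ lam := by
        rw [← pow_add, ← pow_add, ← pow_add]
        exact pow_le_pow_right₀ (by norm_num) (by omega)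
      have h5 : (2 : ℝ) ^ lam * (1 / 2) ^ lam = 1 := by
        rw [← mul_pow]
        norm_num
      calc 4000 * ((T : ℝ) + 1) * ((S : ℝ) + 1) ^ 2 * (100 ^ ℓ * (1 / 2) ^ lam)
          = (4000 * ((T : ℝ) + 1) * ((S : ℝ) + 1) ^ 2 * 100 ^ ℓ) * (1 / 2) ^ lam := by ring
        _ ≤ 2 ^ lam * (1 / 2) ^ lam :=
            mul_le_mul_of_nonneg_right (h3.trans h4) (by positivity)
        _ = 1 := h5
  · -- tree-like
    intro s N N' A hA hA'
    by_contra hlt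
    push Not at hlt
    have hs1 : 1 ≤ s := (lpos A).trans hA.leaves
    have hN1 : ∀ {B : Fm (Fin n)} {N : ℕ}, TD Sch (Cls Γ) s N B → 1 ≤ N := by
      intro B N h
      cases h with
      | hyp => exact le_rfl
      | inst => exact le_rfl
      | mp => omega
    have h1N := hN1 hA
    have h1N' := hN1 hA'
    have hNN : (2 : ℝ) ≤ (N : ℝ) + N' := by
      have h3 : (1 : ℝ) ≤ N := by exact_mod_cast h1N
      have h4 : (1 : ℝ) ≤ N' := by exact_mod_cast h1N'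
      linarith
    obtain ⟨q, hq⟩ : ∃ q, q = Real.logb 2 ((N : ℝ) + N') := ⟨_, rfl⟩
    rw [← hq] at hlt
    have hq1 : 1 ≤ q := by
      rw [hq, Real.le_logb_iff_rpow_le (by norm_num) (by linarith), Real.rpow_one]
      exact hNN
    obtain ⟨r, hr⟩ : ∃ r, r = ⌈q⌉₊ + 1 := ⟨_, rfl⟩
    have hrq : (r : ℝ) ≤ q + 2 := by
      rw [hr]
      push_cast
      linarith [(Nat.ceil_lt_add_one (show 0 ≤ q by linarith)).le]
    have hNle : (N : ℝ) + N' ≤ 2 ^ ⌈q⌉₊ := by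
      have h1 : (N : ℝ) + N' = (2 : ℝ) ^ q := by
        rw [hq, Real.rpow_logb (by norm_num) (by norm_num) (by linarith)]
      rw [h1, ← Real.rpow_natCast]
      exact Real.rpow_le_rpow_of_exponent_le (by norm_num) (Nat.le_ceil q)
    have hNle' : N + N' ≤ 2 ^ ⌈q⌉₊ := by exact_mod_cast hNle
    have hlt2 : 2 ^ ⌈q⌉₊ < 2 ^ r := by
      rw [hr]
      exact Nat.pow_lt_pow_right (by norm_num) (by omega)
    obtain ⟨lam, hlam⟩ : ∃ lam, lam = 2 * r + 7 * ℓ + 20 := ⟨_, rfl⟩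
    have hlamr : (lam : ℝ) ≤ 60 * x * q := by
      rw [hlam]
      push_cast
      have h1 : q ≤ x * q := le_mul_of_one_le_left (by linarith) n2
      have h2 : x ≤ x * q := le_mul_of_one_le_right (by linarith) hq1
      nlinarith
    obtain ⟨m, cl, dg, V, W, hL, hW1, hWK, hVI⟩ := hS s lam q hs1 hq1 hlt (by omega) hlamr
    have hW2 : ℓ ≤ ℓ * W := Nat.le_mul_of_pos_right ℓ (by omega)
    have hW3 : (3 * ℓ + 10) * W = 3 * (ℓ * W) + 10 * W := by ring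
    have hW4 : (2 * ℓ + 2) * W = 2 * (ℓ * W) + 2 * W := by ring
    obtain ⟨k, hk⟩ : ∃ k, k + 2 * W + ℓ = K := ⟨K - (2 * W + ℓ), by omega⟩
    obtain ⟨k', hk'⟩ : ∃ k', k' + (2 * ℓ + 2) * W = k := ⟨k - (2 * ℓ + 2) * W, by omega⟩
    obtain ⟨hVk, hAx⟩ := hVI k (by omega)
    have hη1 : (1 / 2 : ℝ) ^ lam ≤ 1 := pow_le_one₀ (by norm_num) (by norm_num)
    have hη' : 10 * 100 ^ ℓ * (1 / 2 : ℝ) ^ lam ≤ (1 / 2) ^ (2 * r + 16) := by
      have h1 : (10 : ℝ) * 100 ^ ℓ ≤ 2 ^ (4 + 7 * ℓ) := by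
        rw [pow_add]
        have := pw_le ℓ
        nlinarith [show (0 : ℝ) ≤ 100 ^ ℓ by positivity]
      have h2 : (1 / 2 : ℝ) ^ lam = (1 / 2) ^ (4 + 7 * ℓ) * (1 / 2) ^ (2 * r + 16) := by
        rw [← pow_add, hlam]
        congr 1
        omega
      have h3 : (2 : ℝ) ^ (4 + 7 * ℓ) * (1 / 2) ^ (4 + 7 * ℓ) = 1 := by
        rw [← mul_pow]
        norm_num
      rw [h2, ← mul_assoc]
      have h4 : 10 * 100 ^ ℓ * (1 / 2 : ℝ) ^ (4 + 7 * ℓ) ≤ 1 := by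
        calc 10 * 100 ^ ℓ * (1 / 2 : ℝ) ^ (4 + 7 * ℓ) ≤ 2 ^ (4 + 7 * ℓ) * (1 / 2) ^ (4 + 7 * ℓ) :=
              mul_le_mul_of_nonneg_right h1 (by positivity)
          _ = 1 := h3
      exact mul_le_of_le_one_left (by positivity) h4
    refine fin_tree2 hL hW1 hVk (by positivity) (by omega) hSchl (k' := k')
      (η' := (1 / 2) ^ (2 * r + 16)) hk'.le hη' ?_ (r := r) (by omega) ?_ ?_ hA hA'
      (by omega) (by omega)
    · intro B hB hBs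
      obtain ⟨h1, h2⟩ := hAx B hB
      refine (ax_sml hL hW1 hVk (by positivity) hη1 (by omega) B h2 hBs (k' := k') ?_).mono hL
        le_rfl (le_trans ?_ hη')
      · have : B.len * W ≤ ℓ * W := Nat.mul_le_mul_right W h1
        omega
      · have h3 : (100 : ℝ) ^ B.len ≤ 100 ^ ℓ := pow_le_pow_right₀ (by norm_num) h1
        have h4 : 0 ≤ (100 : ℝ) ^ ℓ * (1 / 2) ^ lam := by positivity
        calc (100 : ℝ) ^ B.len * (1 / 2) ^ lam ≤ 100 ^ ℓ * (1 / 2) ^ lam :=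
              mul_le_mul_of_nonneg_right h3 (by positivity)
          _ ≤ 10 * 100 ^ ℓ * (1 / 2) ^ lam := by nlinarith
    · calc (1 / 2 : ℝ) ^ (2 * r + 16) ≤ (1 / 2) ^ 16 :=
            pow_le_pow_of_le_one (by norm_num) (by norm_num) (by omega)
        _ ≤ 1 / 1000 := by norm_num
    · have h1 : ((1 / 2 : ℝ) ^ (2 * r + 16)) ^ 2 = (1 / 8) ^ r * (1 / 2) ^ (r + 32) := by
        have h2 : (1 / 8 : ℝ) = (1 / 2) ^ 3 := by norm_num
        rw [h2, ← pow_mul, ← pow_mul, ← pow_add]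
        congr 1
        ring
      have h3 : (8 : ℝ) ^ r * (1 / 8) ^ r = 1 := by
        rw [← mul_pow]
        norm_num
      rw [h1]
      calc 12 * 8 ^ r * ((1 / 8 : ℝ) ^ r * (1 / 2) ^ (r + 32))
          = 12 * (8 ^ r * (1 / 8) ^ r) * (1 / 2) ^ (r + 32) := by ring
        _ = 12 * (1 / 2) ^ (r + 32) := by rw [h3]; ring
        _ ≤ 12 * (1 / 2) ^ 32 := by
            have : (1 / 2 : ℝ) ^ (r + 32) ≤ (1 / 2) ^ 32 :=
              pow_le_pow_of_le_one (by norm_num) (by norm_num) (by omega)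
            linarith
        _ < 1 := by norm_num
  · -- height
    intro s h A hA hA'
    by_contra hlt
    push Not at hlt
    have hs1 : 1 ≤ s := (lpos A).trans hA.leaves
    have hh0 : (0 : ℝ) ≤ h := Nat.cast_nonneg _
    obtain ⟨lam, hlam⟩ : ∃ lam, lam = h + 2 + 7 * ℓ + 20 := ⟨_, rfl⟩
    have hlamr : (lam : ℝ) ≤ 60 * x * ((h : ℝ) + 1) := by
      rw [hlam]
      push_cast
      have h1 : (h : ℝ) + 1 ≤ x * (h + 1) := le_mul_of_one_le_left (by linarith) n2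
      have h2 : x ≤ x * ((h : ℝ) + 1) := le_mul_of_one_le_right (by linarith) (by linarith)
      nlinarith
    obtain ⟨m, cl, dg, V, W, hL, hW1, hWK, hVI⟩ :=
      hS s lam ((h : ℝ) + 1) hs1 (by linarith) hlt (by omega) hlamr
    have hW2 : ℓ ≤ ℓ * W := Nat.le_mul_of_pos_right ℓ (by omega)
    have hW3 : (3 * ℓ + 10) * W = 3 * (ℓ * W) + 10 * W := by ring
    have hW4 : (2 * ℓ + 2) * W = 2 * (ℓ * W) + 2 * W := by ring
    obtain ⟨k, hk⟩ : ∃ k, k + 2 * W + ℓ = K := ⟨K - (2 * W + ℓ), by omega⟩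
    obtain ⟨k', hk'⟩ : ∃ k', k' + (2 * ℓ + 2) * W = k := ⟨k - (2 * ℓ + 2) * W, by omega⟩
    obtain ⟨hVk, hAx⟩ := hVI k (by omega)
    have hη1 : (1 / 2 : ℝ) ^ lam ≤ 1 := pow_le_one₀ (by norm_num) (by norm_num)
    have hη' : 10 * 100 ^ ℓ * (1 / 2 : ℝ) ^ lam ≤ (1 / 2) ^ (h + 2 + 16) := by
      have h1 : (10 : ℝ) * 100 ^ ℓ ≤ 2 ^ (4 + 7 * ℓ) := by
        rw [pow_add]
        have := pw_le ℓ
        nlinarith [show (0 : ℝ) ≤ 100 ^ ℓ by positivity]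
      have h2 : (1 / 2 : ℝ) ^ lam = (1 / 2) ^ (4 + 7 * ℓ) * (1 / 2) ^ (h + 2 + 16) := by
        rw [← pow_add, hlam]
        congr 1
        omega
      have h3 : (2 : ℝ) ^ (4 + 7 * ℓ) * (1 / 2) ^ (4 + 7 * ℓ) = 1 := by
        rw [← mul_pow]
        norm_num
      rw [h2, ← mul_assoc]
      have h4 : 10 * 100 ^ ℓ * (1 / 2 : ℝ) ^ (4 + 7 * ℓ) ≤ 1 := by
        calc 10 * 100 ^ ℓ * (1 / 2 : ℝ) ^ (4 + 7 * ℓ) ≤ 2 ^ (4 + 7 * ℓ) * (1 / 2) ^ (4 + 7 * ℓ) :=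
              mul_le_mul_of_nonneg_right h1 (by positivity)
          _ = 1 := h3
      exact mul_le_of_le_one_left (by positivity) h4
    refine fin_height2 hL hW1 hVk (by positivity) (by omega) hSchl (k' := k')
      (η' := (1 / 2) ^ (h + 2 + 16)) hk'.le hη' ?_ (h := h) (by omega) ?_ ?_ hA hA'
    · intro B hB hBs
      obtain ⟨h1, h2⟩ := hAx B hB
      refine (ax_sml hL hW1 hVk (by positivity) hη1 (by omega) B h2 hBs (k' := k') ?_).mono hL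
        le_rfl (le_trans ?_ hη')
      · have : B.len * W ≤ ℓ * W := Nat.mul_le_mul_right W h1
        omega
      · have h3 : (100 : ℝ) ^ B.len ≤ 100 ^ ℓ := pow_le_pow_right₀ (by norm_num) h1
        have h4 : 0 ≤ (100 : ℝ) ^ ℓ * (1 / 2) ^ lam := by positivity
        calc (100 : ℝ) ^ B.len * (1 / 2) ^ lam ≤ 100 ^ ℓ * (1 / 2) ^ lam :=
              mul_le_mul_of_nonneg_right h3 (by positivity)
          _ ≤ 10 * 100 ^ ℓ * (1 / 2) ^ lam := by nlinarith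
    · calc (1 / 2 : ℝ) ^ (h + 2 + 16) ≤ (1 / 2) ^ 16 :=
            pow_le_pow_of_le_one (by norm_num) (by norm_num) (by omega)
        _ ≤ 1 / 1000 := by norm_num
    · have h1 : ((1 / 2 : ℝ) ^ (h + 2 + 16)) ^ 2 = (1 / 4) ^ (h + 2) * (1 / 2) ^ 32 := by
        have h2 : (1 / 4 : ℝ) = (1 / 2) ^ 2 := by norm_num
        rw [h2, ← pow_mul, ← pow_mul, ← pow_add]
        congr 1
        ring
      have h3 : (3 : ℝ) ^ (h + 2) * (1 / 4) ^ (h + 2) ≤ 1 := by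
        rw [← mul_pow]
        exact pow_le_one₀ (by norm_num) (by norm_num)
      rw [h1, ← mul_assoc]
      have h4 : (3 : ℝ) ^ (h + 2) * (1 / 4) ^ (h + 2) * (1 / 2) ^ 32 ≤ 1 * (1 / 2) ^ 32 :=
        mul_le_mul_of_nonneg_right h3 (by positivity)
      have h5 : (1 : ℝ) * (1 / 2) ^ 32 < 1 := by norm_num
      linarith

/-- **Theorem (strong form).** If no operator solves approximately a family of clauses on `n` variables
below degree `K` (`PE n K Γ`: there is a pseudo-expectation of degree `K`), then the family is hard in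
every system of sound axiom schemes of size at most `K ^ δ`, with the trade-offs of `Hard2`. -/
theorem hard2 (e : ℝ) (he : 0 < e) : ∃ δ : ℝ, 0 < δ ∧ ∃ K0 : ℕ,
    ∀ (n K : ℕ) (Γ : Set (List (Fin n × Bool))), K0 ≤ K → PE n K Γ →
    (∀ c ∈ Γ, (c.length : ℝ) ≤ (K : ℝ) ^ δ) → Hard2 Γ (K : ℝ) e δ := by
  obtain ⟨δ1, hδ1, K1, h1⟩ := gen1 e he
  obtain ⟨δ2, hδ2, K2, h2⟩ := hard e he
  refine ⟨min δ1 δ2, lt_min hδ1 hδ2, max K1 K2, fun n K Γ hK hPE hΓ => ?_⟩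
  obtain ⟨⟨n1, n2, n3, n4⟩, h1'⟩ := h1 K ((le_max_left _ _).trans hK)
  have m1 : (K : ℝ) ^ min δ1 δ2 ≤ (K : ℝ) ^ δ1 :=
    Real.rpow_le_rpow_of_exponent_le n1 (min_le_left _ _)
  have m2 : (K : ℝ) ^ min δ1 δ2 ≤ (K : ℝ) ^ δ2 :=
    Real.rpow_le_rpow_of_exponent_le n1 (min_le_right _ _)
  intro Sch hSch
  obtain ⟨s1, s4, s5⟩ := h1' n Γ hPE (fun c hc => (hΓ c hc).trans m1) Sch
    fun ψ hψ => ⟨(hSch ψ hψ).1.trans m1, (hSch ψ hψ).2⟩
  obtain ⟨-, s2, s3, -, -⟩ := h2 n K Γ ((le_max_right _ _).trans hK) hPE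
    (fun c hc => (hΓ c hc).trans m2) Sch
    fun ψ hψ => ⟨(hSch ψ hψ).1.trans m2, (hSch ψ hψ).2⟩
  exact ⟨s1, s2, s3, s4, s5⟩

end Pool.H6.QR
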