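import Mathlib
import Pool.Agent.H6.QR.Rn2

set_option autoImplicit false
set_option linter.unusedSectionVars false

/-!
# Sharpness, with the number of symbols

As `H55/QT/ShB.lean` and `H55/QT/Shp.lean`, with `len` (number of symbols) in place of `leaves`.
-/

namespace Pool.H6.QR

open Finset Classical Pool.H6.QL Pool.Agent.H3.Frg Pool.Agent.H3.Frg2 Pool.Agent.H3.Frg4
  Pool.Agent.H90.UB Pool.Agent.H55.AG Pool.Agent.H55.QT

private theorem ren_ren {V V' V'' : Type} (f : V → V') (g : V' → V'') (A : Fm V) :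
    (A.ren f).ren g = A.ren (fun v => g (f v)) := by
  induction A with
  | var i => rfl
  | neg A ih => simp only [Fm.ren, ih]
  | imp A B ihA ihB => simp only [Fm.ren, ihA, ihB]

private theorem ren_id {V : Type} (A : Fm V) : A.ren (fun v => v) = A := by
  induction A with
  | var i => rfl
  | neg A ih => simp only [Fm.ren, ih]
  | imp A B ihA ihB => simp only [Fm.ren, ihA, ihB]

private theorem len_ren {V V' : Type} (f : V → V') (A : Fm V) : (A.ren f).len = A.len := by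
  induction A with
  | var i => rfl
  | neg A ih => simp only [Fm.ren, Fm.len, ih]
  | imp A B ihA ihB => simp only [Fm.ren, Fm.len, ihA, ihB]

private theorem ubsl {F : Set (Fm ℕ)} (hF : Pool.Agent.H90.UB.Compl F) (D : ℕ) : ∃ Cc : ℕ,
    ∀ (V : Type) [Fintype V] (G : SimpleGraph V), G.Connected → 2 ≤ Fintype.card V →
    (∀ v, (nbG G v).card ≤ D) →
    ∀ (μ : Sym2 V → Fin (D * Fintype.card V)), Set.InjOn μ G.edgeSet →
    ∀ (c : V → Bool), Odd (univ.filter fun v => c v = true).card →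
    ∃ (L : ℕ) (pf : Fin L → Fm (Fin (D * Fintype.card V))),
      IsDer F (Pool.H6.QL.Cls (TsC G μ c)) pf ∧ (∃ i j, pf i = Fm.neg (pf j)) ∧
      ∑ i, (pf i).len ≤ Cc * (Fintype.card V ^ 2 * (Nat.log 2 (Fintype.card V) + 1) ^ 2) := by
  rcases Nat.eq_zero_or_pos D with hD0 | hD0
  · refine ⟨0, fun V _ G hG h2 hdeg μ hμ c hc => ?_⟩
    have h := (ubpg2 G hG h2 hdeg hμ hc).1
    omega
  obtain ⟨ℓ0, K0, h0⟩ := ub0T D hD0
  obtain ⟨c0, hc0, hsim⟩ := simulT hF ℓ0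
  refine ⟨c0 * K0, fun V _ G hG h2 hdeg μ hμ c hc => ?_⟩
  obtain ⟨-, C, hC, hU⟩ := ubpg2 G hG h2 hdeg hμ hc
  obtain ⟨ne, v0, C', l, hne, hCC, hl, ⟨A, hA, hA'⟩, htot⟩ := h0 _ C hU
  obtain ⟨l', hl', hsub, htot'⟩ := hsim (Fin ne) v0 (Set.range C') l hl
  obtain ⟨pf, hpf, hpf1, hpf2⟩ := to_derT hl'
  have hM0 : 0 < D * Fintype.card V := Nat.mul_pos hD0 (by omega)
  obtain ⟨g, hg⟩ : ∃ g : ℕ → Fin (D * Fintype.card V), ∀ i : Fin (D * Fintype.card V),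
      g (i : ℕ) = i :=
    ⟨fun i => if h : i < D * Fintype.card V then ⟨i, h⟩ else ⟨0, hM0⟩, fun i => dif_pos i.isLt⟩
  refine ⟨l'.length, fun i => (pf i).ren (fun v : Fin ne => g (v : ℕ)), ?_, ?_, ?_⟩
  · have h1 := isDer_ren hpf (fun v : Fin ne => g (v : ℕ))
    intro i
    rcases h1 i with h2 | h2
    · left
      obtain ⟨B, ⟨j, rfl⟩, h3⟩ := h2
      have h3' : (C' j).ren (fun v : Fin ne => g (v : ℕ)) = (pf i).ren (fun v : Fin ne => g (v : ℕ)) := h3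
      show (pf i).ren (fun v : Fin ne => g (v : ℕ)) ∈ _
      obtain ⟨A1, hA1, hA2⟩ := hC j
      have h4 : (C' j).ren (fun v : Fin ne => g (v : ℕ)) = A1 := by
        rw [← ren_ren (fun v : Fin ne => (v : ℕ)) g]
        have h5 : (C' j).ren (fun v : Fin ne => (v : ℕ)) = C j := (hCC j).symm
        rw [h5, hA2, ren_ren]
        have h6 : (fun v : Fin (D * Fintype.card V) => g (Fin.val v)) = fun v => v := by
          funext v
          exact hg v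
        rw [h6, ren_id]
      rw [← h3', h4]
      exact hA1
    · exact Or.inr h2
  · obtain ⟨i, hi⟩ := hpf1 _ (hsub _ hA')
    obtain ⟨j, hj⟩ := hpf1 _ (hsub _ hA)
    refine ⟨i, j, ?_⟩
    show (pf i).ren _ = Fm.neg ((pf j).ren _)
    rw [hi, hj]
    rfl
  · calc ∑ i, ((pf i).ren (fun v : Fin ne => g (v : ℕ))).len = ∑ i, (pf i).len :=
          Finset.sum_congr rfl fun i _ => len_ren _ _
      _ = tot l' := hpf2
      _ ≤ c0 * tot l := htot'
      _ ≤ c0 * (K0 * (Fintype.card V ^ 2 * (Nat.log 2 (Fintype.card V) + 1) ^ 2)) :=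
          Nat.mul_le_mul_left _ htot
      _ = _ := by ring

private theorem ubsl' {F : Set (Fm ℕ)} (hF : Pool.Agent.H90.UB.Compl F) (D : ℕ) : ∃ Cc : ℕ,
    ∀ (N : ℕ) (V : Type) [Fintype V] (G : SimpleGraph V), N = Fintype.card V → G.Connected →
    2 ≤ N → (∀ v, (nbG G v).card ≤ D) →
    ∀ (μ : Sym2 V → Fin (D * N)), Set.InjOn μ G.edgeSet →
    ∀ (c : V → Bool), Odd (univ.filter fun v => c v = true).card →
    ∃ (L : ℕ) (pf : Fin L → Fm (Fin (D * N))),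
      IsDer F (Cls (TsC G μ c)) pf ∧ (∃ i j, pf i = Fm.neg (pf j)) ∧
      ∑ i, (pf i).len ≤ Cc * (N ^ 2 * (Nat.log 2 N + 1) ^ 2) := by
  obtain ⟨Cc, h⟩ := ubsl hF D
  refine ⟨Cc, ?_⟩
  intro N V _ G hN hG h2 hdeg μ hμ c hc
  subst hN
  exact h V G hG h2 hdeg μ hμ c hc

theorem shp3 : ∃ n0 : ℕ, ∃ Γ : (n : ℕ) → Set (List (Fin (16 * n) × Bool)),
    (∀ n, n0 ≤ n → (∀ l ∈ Γ n, l.length ≤ 16) ∧
      PE (16 * n) ⌊(1 / 10 ^ 6 : ℝ) * n⌋₊ (Γ n)) ∧
    (∀ e : ℝ, 0 < e → ∃ δ : ℝ, 0 < δ ∧ ∃ n1 : ℕ, ∀ n, n1 ≤ n → Hard2 (Γ n) (n : ℝ) e δ) ∧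
    ∀ F : Set (Fm ℕ), Pool.Agent.H90.UB.Compl F → ∃ Cc : ℕ, ∀ n, n0 ≤ n →
      ∃ (L : ℕ) (pf : Fin L → Fm (Fin (16 * n))), IsDer F (Cls (Γ n)) pf ∧
        (∃ i j, pf i = Fm.neg (pf j)) ∧
        ∑ i, (pf i).len ≤ Cc * (n ^ 2 * (Nat.log 2 n + 1) ^ 2) := by
  have key : ∀ n : ℕ, 10 ^ 7 ≤ n → ∃ Γ : Set (List (Fin (16 * n) × Bool)),
      ((∀ l ∈ Γ, l.length ≤ 16) ∧ PE (16 * n) ⌊(1 / 10 ^ 6 : ℝ) * n⌋₊ Γ) ∧
      ∃ (V : Type) (_ : Fintype V) (G : SimpleGraph V) (μ : Sym2 V → Fin (16 * n)) (c : V → Bool),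
        n = Fintype.card V ∧ G.Connected ∧ (∀ v, (nbG G v).card ≤ 16) ∧ Set.InjOn μ G.edgeSet ∧
        Odd (univ.filter fun v => c v = true).card ∧ Γ = TsC G μ c := by
    intro n hn
    haveI : NeZero n := ⟨by omega⟩
    obtain ⟨d, hd⟩ : ∃ d, d = (n - 1) / 42 := ⟨_, rfl⟩
    obtain ⟨G, hG, hdeg, htw, μ, hμ⟩ := exg n d (by omega) (by omega)
    obtain ⟨c, hc⟩ : ∃ c : ZMod n → Bool, ∀ v, c v = true ↔ v = 0 :=
      ⟨fun v => decide (v = 0), fun v => by simp⟩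
    have hodd : Odd (univ.filter fun v => c v = true).card := by
      have h1 : (univ.filter fun v => c v = true) = {0} := by
        ext v
        rw [mem_filter, Finset.mem_singleton, hc]
        simp
      rw [h1, Finset.card_singleton]
      exact odd_one
    refine ⟨TsC G μ c, ⟨?_, ?_⟩, ZMod n, inferInstance, G, μ, c, (ZMod.card n).symm, hG, hdeg, hμ,
      hodd, rfl⟩
    · rintro l ⟨hnd, v, hv, -⟩
      have h1 : l.length = (l.map Prod.fst).toFinset.card := by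
        rw [List.toFinset_card_of_nodup hnd, List.length_map]
      rw [h1]
      refine le_trans ?_ (hdeg v)
      have h2 : (l.map Prod.fst).toFinset ⊆ (nbG G v).image fun u => μ s(v, u) := by
        intro i hi
        rw [List.mem_toFinset, hv] at hi
        obtain ⟨u, hu, rfl⟩ := hi
        rw [Finset.mem_image]
        refine ⟨u, ?_, rfl⟩
        unfold nbG
        rw [mem_filter]
        exact ⟨mem_univ _, hu⟩
      exact (Finset.card_le_card h2).trans Finset.card_image_le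
    · refine pe_ts (Δ := 16) hG hdeg ?_ hμ c
      intro hk
      have h1 := htw _ hk
      have h2 : (⌊(1 / 10 ^ 6 : ℝ) * n⌋₊ : ℝ) ≤ (1 / 10 ^ 6 : ℝ) * n :=
        Nat.floor_le (by positivity)
      have h3 : 10 ^ 6 * ⌊(1 / 10 ^ 6 : ℝ) * n⌋₊ ≤ n := by
        have h4 : (10 : ℝ) ^ 6 * ⌊(1 / 10 ^ 6 : ℝ) * n⌋₊ ≤ n := by linarith
        exact_mod_cast h4
      omega
  choose! Γ hΓ1 hΓ2 using key
  refine ⟨10 ^ 7, Γ, hΓ1, ?_, ?_⟩
  · intro e he
    obtain ⟨e', he'⟩ : ∃ e', e' = min (e / 2) (1 / 2) := ⟨_, rfl⟩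
    have he0 : 0 < e' := by
      rw [he']
      exact lt_min (by linarith) (by norm_num)
    have he1 : e' ≤ 1 / 2 := by
      rw [he']
      exact min_le_right _ _
    have he2 : e' < e := by
      have : e' ≤ e / 2 := by
        rw [he']
        exact min_le_left _ _
      linarith
    obtain ⟨δ', hδ', K0, hK0⟩ := hard2 e' he0
    obtain ⟨n2, hn2⟩ := pow_cmp (c := 1 / 10 ^ 7) (a := δ' / 2) (b := δ') (by positivity) hδ'
      (by linarith)
    obtain ⟨n3, hn3⟩ := pow_cmp (c := 1 / 10 ^ 7) (a := 2 - e) (b := 2 - e') (by positivity)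
      (by linarith) (by linarith)
    have ht : Filter.Tendsto (fun n : ℕ => (1 / 10 ^ 7 : ℝ) * (n : ℝ)) Filter.atTop Filter.atTop :=
      tendsto_natCast_atTop_atTop.const_mul_atTop (by positivity)
    obtain ⟨n6, hn6⟩ := Filter.eventually_atTop.1 (ht.eventually_ge_atTop (K0 : ℝ))
    have ht2 : Filter.Tendsto (fun K : ℕ => (K : ℝ) ^ δ') Filter.atTop Filter.atTop :=
      (tendsto_rpow_atTop hδ').comp tendsto_natCast_atTop_atTop
    obtain ⟨K1, hK1⟩ := Filter.eventually_atTop.1 (ht2.eventually_ge_atTop (16 : ℝ))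
    obtain ⟨n7, hn7⟩ := Filter.eventually_atTop.1 (ht.eventually_ge_atTop (K1 : ℝ))
    refine ⟨δ' / 2, by linarith, 10 ^ 7 + n2 + n3 + n6 + n7, ?_⟩
    intro n hn
    obtain ⟨hlen, hPE⟩ := hΓ1 n (by omega)
    have hKn : (1 / 10 ^ 7 : ℝ) * n ≤ (⌊(1 / 10 ^ 6 : ℝ) * n⌋₊ : ℝ) := by
      have h1 : (1 / 10 ^ 6 : ℝ) * n < ⌊(1 / 10 ^ 6 : ℝ) * n⌋₊ + 1 := Nat.lt_floor_add_one _
      have h2 : (10 ^ 7 : ℝ) ≤ n := by
        have h3 : 10 ^ 7 ≤ n := by omega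
        exact_mod_cast h3
      have h4 : (1 : ℝ) + (1 / 10 ^ 7 : ℝ) * n ≤ (1 / 10 ^ 6 : ℝ) * n := by
        linarith
      linarith
    have hKK : K0 ≤ ⌊(1 / 10 ^ 6 : ℝ) * n⌋₊ := by
      have h1 := hn6 n (by omega)
      exact_mod_cast h1.trans hKn
    have hKK1 : K1 ≤ ⌊(1 / 10 ^ 6 : ℝ) * n⌋₊ := by
      have h1 := hn7 n (by omega)
      exact_mod_cast h1.trans hKn
    have hH := hK0 (16 * n) ⌊(1 / 10 ^ 6 : ℝ) * n⌋₊ (Γ n) hKK hPE (by
      intro l hl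
      have h3 := hK1 _ hKK1
      have h4 : (l.length : ℝ) ≤ 16 := by exact_mod_cast hlen l hl
      exact h4.trans h3)
    exact hard2_mono hH (hn2 n (by omega) _ hKn) (hn3 n (by omega) _ hKn)
  · intro F hF
    obtain ⟨Cc, hCc⟩ := ubsl' hF 16
    refine ⟨Cc, ?_⟩
    intro n hn
    obtain ⟨V, _, G, μ, c, hc1, hG, hdeg, hμ, hodd, hΓ⟩ := hΓ2 n hn
    rw [hΓ]
    exact hCc n V G hc1 hG (by omega) hdeg μ hμ c hodd

end Pool.H6.QR
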